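import Pool.Agent.Lib.MP_f3fa2b_pr.FE.Good

/-!
Expectation of the logarithm of a block, bad part.
-/

namespace Pool.Agent.MP_f3fa2b_pr

open MeasureTheory ProbabilityTheory Filter Topology
open scoped ENNReal

variable {d : ℕ} {Ω : Type*} [MeasurableSpace Ω] {P : Measure Ω} [IsProbabilityMeasure P]

/-- Uniform integrability of identically distributed variables. -/
theorem ui_site {ω : ℕ → Vx d → Ω → ℝ} (h : IIDField P ω) (hω : Integrable (ω 1 0) P) {ε : ℝ}
    (hε : 0 < ε) :
    ∃ ρ : ℝ, 0 < ρ ∧ ∀ (i : ℕ) (y : Vx d) (A : Set Ω), MeasurableSet A → P.real A ≤ ρ →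
      ∫ a in A, |ω i y a| ∂P ≤ ε := by
  have hui := MemLp.uniformIntegrable_of_identDistrib (μ := P)
    (f := fun z : ℕ × Vx d => ω z.1 z.2) (j := (1, 0)) le_rfl ENNReal.one_ne_top
    (memLp_one_iff_integrable.2 hω) (fun z => h.ident z.1 z.2)
  obtain ⟨δ, hδ, hA⟩ := hui.2.1 hε
  refine ⟨δ, hδ, fun i y A hAm hA1 => ?_⟩
  have h1 := hA (i, y) A hAm ((ENNReal.le_ofReal_iff_toReal_le (measure_ne_top P A) hδ.le).2 hA1)
  rw [eLpNorm_indicator_eq_eLpNorm_restrict hAm, eLpNorm_one_eq_lintegral_enorm] at h1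
  have h2 : ∫ a in A, |ω i y a| ∂P = (∫⁻ a in A, ‖ω i y a‖ₑ ∂P).toReal := by
    rw [← integral_norm_eq_lintegral_enorm (h.meas i y).aestronglyMeasurable.restrict]
    rfl
  rw [h2]
  exact ENNReal.toReal_le_of_le_ofReal hε.le h1

/-- Sums along a path. -/
private theorem bad_sum {f : ℕ → Vx d → Ω → ℝ} {A : Set Ω} {ε : ℝ}
    (hf : ∀ i y, Integrable (f i y) P) (hε : ∀ i y, -ε ≤ ∫ a in A, f i y a ∂P)
    (l : List (Vx d)) :
    Integrable (fun a => (l.mapIdx fun i y => f i y a).sum) P ∧
      -(ε * l.length) ≤ ∫ a in A, (l.mapIdx fun i y => f i y a).sum ∂P := by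
  induction l generalizing f with
  | nil => simp
  | cons x l ih =>
    obtain ⟨h1, h2⟩ := ih (f := fun i => f (i + 1)) (fun i y => hf _ _) (fun i y => hε _ _)
    simp only [List.mapIdx_cons, List.sum_cons, List.length_cons]
    refine ⟨(hf 0 x).add h1, ?_⟩
    rw [integral_add (hf 0 x).integrableOn h1.integrableOn]
    have h3 := hε 0 x
    push_cast
    linarith

private theorem bad_log [NeZero d] (β lam : ℝ) (w : Env d) (l : List (Vx d)) :
    Real.log (pw d β lam w l) =
      (l.mapIdx fun i y => β * w (i + 1) y - (lam + Real.log (2 * d))).sum := by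
  have hd : (0 : ℝ) < 2 * d := by
    have : (0 : ℝ) < d := Nat.cast_pos.2 (NeZero.pos d)
    linarith
  have hs : ∀ (f : ℕ → Vx d → ℝ) (c : ℝ) (l : List (Vx d)),
      (l.mapIdx fun i y => f i y - c).sum = (l.mapIdx f).sum - l.length * c := by
    intro f c l
    induction l generalizing f with
    | nil => simp
    | cons x l ih =>
      simp only [List.mapIdx_cons, List.sum_cons, List.length_cons]
      rw [ih fun i => f (i + 1)]
      push_cast
      ring
  unfold pw wd
  rw [Real.log_mul (by positivity) (Real.exp_pos _).ne', Real.log_exp, Real.log_pow, one_div,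
    Real.log_inv]
  have h1 := hs (fun i y => β * w (i + 1) y) lam l
  have h2 := hs (fun i y => β * w (i + 1) y) (lam + Real.log (2 * d)) l
  rw [h1, h2]
  ring

theorem bad_part [NeZero d] {ω : ℕ → Vx d → Ω → ℝ} (h : IIDField P ω)
    (hω : Integrable (ω 1 0) P) (β lam : ℝ) {ε : ℝ} (hε : 0 < ε) :
    ∃ ρ : ℝ, 0 < ρ ∧ ∀ (l : List (Vx d)) (A : Set Ω), MeasurableSet A → P.real A ≤ ρ →
      -(ε * l.length) ≤ ∫ a in A, Real.log (pw d β lam (ev0 ω a) l) ∂P := by
  have hb : 0 < |β| + 1 := by positivity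
  have hc : 0 < |lam + Real.log (2 * d)| + 1 := by positivity
  obtain ⟨ρ, hρ, hui⟩ := ui_site h hω (ε := ε / (2 * (|β| + 1))) (by positivity)
  refine ⟨min ρ (ε / (2 * (|lam + Real.log (2 * d)| + 1))), lt_min hρ (by positivity),
    fun l A hAm hA => ?_⟩
  have hA1 := hA.trans (min_le_left _ _)
  have hA2 := hA.trans (min_le_right _ _)
  have hint : ∀ i y, Integrable (ω i y) P := fun i y => (h.ident i y).integrable_iff.2 hω
  have key := bad_sum (P := P) (A := A) (ε := ε)
    (f := fun i y a => β * ω (i + 1) y a - (lam + Real.log (2 * d)))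
    (fun i y => ((hint (i + 1) y).const_mul β).sub (integrable_const _)) (fun i y => ?_) l
  · refine key.2.trans (le_of_eq ?_)
    refine integral_congr_ae (Filter.Eventually.of_forall fun a => ?_)
    exact (bad_log β lam (ev0 ω a) l).symm
  · have hI := hint (i + 1) y
    rw [integral_sub (hI.const_mul β).integrableOn (integrable_const _).integrableOn,
      integral_const_mul, setIntegral_const, smul_eq_mul]
    have h1 := hui (i + 1) y A hAm hA1
    have h2 : |∫ a in A, ω (i + 1) y a ∂P| ≤ ε / (2 * (|β| + 1)) :=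
      (abs_integral_le_integral_abs).trans h1
    have h3 : |β * ∫ a in A, ω (i + 1) y a ∂P| ≤ ε / 2 := by
      rw [abs_mul]
      calc |β| * |∫ a in A, ω (i + 1) y a ∂P| ≤ (|β| + 1) * (ε / (2 * (|β| + 1))) :=
            mul_le_mul (by linarith) h2 (abs_nonneg _) hb.le
        _ = ε / 2 := by field_simp
    have h4 : |P.real A * (lam + Real.log (2 * d))| ≤ ε / 2 := by
      rw [abs_mul, abs_of_nonneg measureReal_nonneg]
      calc P.real A * |lam + Real.log (2 * d)|
          ≤ (ε / (2 * (|lam + Real.log (2 * d)| + 1))) * (|lam + Real.log (2 * d)| + 1) :=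
            mul_le_mul hA2 (by linarith) (abs_nonneg _) (by positivity)
        _ = ε / 2 := by field_simp
    have h5 := neg_abs_le (β * ∫ a in A, ω (i + 1) y a ∂P)
    have h6 := le_abs_self (P.real A * (lam + Real.log (2 * d)))
    linarith

end Pool.Agent.MP_f3fa2b_pr
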