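import Pool.Agent.Lib.MP_f3fa2b_pr.FE.Defs

/-!
Elementary facts.
-/

namespace Pool.Agent.MP_f3fa2b_pr

open MeasureTheory ProbabilityTheory Filter Topology
open scoped ENNReal

variable {d : ℕ}

theorem deg_full (x : Vx d) : deg (full d) x = 2 * d := by
  unfold deg full
  rw [Finset.filter_true_of_mem (fun _ _ => rfl), Finset.card_univ, Fintype.card_prod,
    Fintype.card_fin, Fintype.card_bool, mul_comm]

theorem wd_pos (β lam : ℝ) (w : Env d) (l : List (Vx d)) : 0 < wd β lam w l := by
  exact Real.exp_pos _

theorem wd_append (β lam : ℝ) (w : Env d) (l l' : List (Vx d)) :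
    wd β lam w (l ++ l') = wd β lam w l * wd β lam (tsh l.length w) l' := by
  unfold wd
  rw [List.mapIdx_append, List.sum_append, Real.exp_add]
  congr 4
  funext i y
  unfold tsh
  rw [show i + l.length + 1 = l.length + (i + 1) by omega]

theorem pw_append (β lam : ℝ) (w : Env d) (l l' : List (Vx d)) :
    pw d β lam w (l ++ l') = pw d β lam w l * pw d β lam (tsh l.length w) l' := by
  unfold pw
  rw [wd_append, List.length_append, pow_add]
  ring

theorem wd_congr (β lam : ℝ) {w w' : Env d} (l : List (Vx d))
    (h : ∀ i, 1 ≤ i → i ≤ l.length → w i = w' i) : wd β lam w l = wd β lam w' l := by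
  unfold wd
  congr 2
  refine List.ext_getElem (by simp) fun i h1 h2 => ?_
  rw [List.length_mapIdx] at h1
  simp only [List.getElem_mapIdx]
  rw [h (i + 1) (by omega) (by omega)]

theorem mem_Bx {r : ℕ} {x y : Vx d} : y ∈ Bx r x ↔ InBox r x y := by
  unfold Bx InBox
  rw [Fintype.mem_piFinset]
  refine forall_congr' fun i => ?_
  rw [Finset.mem_Icc, abs_le]
  constructor
  · rintro ⟨h1, h2⟩
    constructor <;> omega
  · rintro ⟨h1, h2⟩
    constructor <;> omega

theorem mem_Evb {r : ℕ} {x y : Vx d} :
    y ∈ Evb r x ↔ InBox r x y ∧ Even (∑ i, (y i - x i)) := by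
  classical
  unfold Evb
  rw [Finset.mem_filter, mem_Bx]

theorem meas_wd (β lam : ℝ) (l : List (Vx d)) : Measurable fun w : Env d => wd β lam w l := by
  unfold wd
  refine Real.measurable_exp.comp ?_
  have key : ∀ (l : List (Vx d)) (k : ℕ),
      Measurable fun w : Env d => (l.mapIdx fun i y => β * w (i + k) y - lam).sum := by
    intro l
    induction l with
    | nil =>
      intro k
      simp only [List.mapIdx_nil, List.sum_nil]
      exact measurable_const
    | cons y l ih =>
      intro k
      simp only [List.mapIdx_cons, List.sum_cons]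
      refine Measurable.add ?_ ?_
      · refine (Measurable.const_mul ?_ β).sub_const lam
        exact (measurable_pi_apply y).comp (measurable_pi_apply (0 + k))
      · have h := ih (k + 1)
        have e : (fun w : Env d => (l.mapIdx fun i y => β * w (i + 1 + k) y - lam).sum) =
            fun w : Env d => (l.mapIdx fun i y => β * w (i + (k + 1)) y - lam).sum := by
          funext w
          congr 2
          funext i y
          rw [show i + 1 + k = i + (k + 1) by omega]
        rw [e]
        exact h
  exact key l 1

/-- `walkE` of a measurable integrand is measurable in the environment. -/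
theorem meas_walkE_env (η : Cfg d) (n : ℕ) (x : Vx d) {F : Env d → List (Vx d) → ℝ}
    (hF : ∀ l, Measurable fun w => F w l) : Measurable fun w => walkE η n x (F w) := by
  induction n generalizing x F with
  | zero => exact hF []
  | succ n ih =>
    simp only [walkE]
    refine Measurable.div_const ?_ _
    refine Finset.measurable_sum _ fun s _ => ?_
    by_cases hs : η (bond x s) = true
    · simp only [hs, if_true]
      exact ih (x + vec s) fun l => hF _
    · simp only [hs]
      exact measurable_const

theorem meas_W (η : Cfg d) (β lam : ℝ) (n : ℕ) : Measurable fun w : Env d => W η β lam w n := by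
  simp only [W_eq_wd]
  exact meas_walkE_env η n 0 fun l => meas_wd β lam l

theorem meas_Zc (β lam : ℝ) (n r : ℕ) (x : Vx d) :
    Measurable fun w : Env d => Zc β lam w n r x := by
  unfold Zc
  exact meas_walkE_env (full d) n x fun l => (meas_wd β lam l).const_mul _

theorem meas_Zy (β lam : ℝ) (n r : ℕ) (x y : Vx d) :
    Measurable fun w : Env d => Zy β lam w n r x y := by
  unfold Zy
  exact meas_walkE_env (full d) n x fun l => (meas_wd β lam l).const_mul _

theorem Zc_nonneg (β lam : ℝ) (w : Env d) (n r : ℕ) (x : Vx d) : 0 ≤ Zc β lam w n r x := by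
  exact walkE_nonneg _ _ _ fun l => mul_nonneg (ind_nonneg _) (wd_pos β lam w l).le

theorem Zy_nonneg (β lam : ℝ) (w : Env d) (n r : ℕ) (x y : Vx d) : 0 ≤ Zy β lam w n r x y := by
  exact walkE_nonneg _ _ _ fun l => mul_nonneg (ind_nonneg _) (wd_pos β lam w l).le

/-- `Zy` depends only on the times `1, ..., n`. -/
theorem Zy_congr (β lam : ℝ) {w w' : Env d} (n r : ℕ) (x y : Vx d)
    (h : ∀ i, 1 ≤ i → i ≤ n → w i = w' i) : Zy β lam w n r x y = Zy β lam w' n r x y := by
  unfold Zy
  refine walkE_congr _ _ _ fun l hl _ => ?_
  rw [wd_congr β lam l fun i h1 h2 => h i h1 (hl ▸ h2)]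

theorem Zc_congr (β lam : ℝ) {w w' : Env d} (n r : ℕ) (x : Vx d)
    (h : ∀ i, 1 ≤ i → i ≤ n → w i = w' i) : Zc β lam w n r x = Zc β lam w' n r x := by
  unfold Zc
  refine walkE_congr _ _ _ fun l hl _ => ?_
  rw [wd_congr β lam l fun i h1 h2 => h i h1 (hl ▸ h2)]

/-- Translation of the walk on `ℤ^d`. -/
private theorem Basic_walk_shift (n : ℕ) (a x : Vx d) (F : List (Vx d) → ℝ) :
    walkE (full d) n (a + x) F =
      walkE (full d) n a fun l => F (l.map fun y => y + x) := by
  induction n generalizing a F with
  | zero => rfl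
  | succ n ih =>
    simp only [walkE]
    rw [deg_full, deg_full]
    congr 1
    refine Finset.sum_congr rfl fun s _ => ?_
    have h1 : full d (bond (a + x) s) = true := rfl
    have h2 : full d (bond a s) = true := rfl
    rw [if_pos h1, if_pos h2, show a + x + vec s = a + vec s + x by abel, ih]
    rfl

private theorem Basic_wd_ssh (β lam : ℝ) (w : Env d) (x : Vx d) (l : List (Vx d)) :
    wd β lam w (l.map fun y => y + x) = wd β lam (ssh x w) l := by
  unfold wd
  congr 2
  refine List.ext_getElem (by simp) fun i h1 h2 => ?_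
  simp only [List.getElem_mapIdx, List.getElem_map]
  rfl

/-- Translation of the centre. -/
theorem Zc_ssh (β lam : ℝ) (w : Env d) (n r : ℕ) (x : Vx d) :
    Zc β lam w n r x = Zc β lam (ssh x w) n r 0 := by
  unfold Zc
  have h := Basic_walk_shift n 0 x fun l => ind (∀ u ∈ l, InBox r x u) * wd β lam w l
  rw [zero_add] at h
  rw [h]
  refine walkE_congr _ _ _ fun l _ _ => ?_
  rw [Basic_wd_ssh]
  congr 1
  refine ind_congr ?_
  simp only [List.mem_map, forall_exists_index, and_imp, forall_apply_eq_imp_iff₂]
  refine forall₂_congr fun u _ => ?_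
  unfold InBox
  refine forall_congr' fun i => ?_
  simp

end Pool.Agent.MP_f3fa2b_pr
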