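import Pool.Agent.Lib.MP_f3fa2b_pr.FE.Ret

/-!
Deterministic lower bounds for a block.
-/

namespace Pool.Agent.MP_f3fa2b_pr

variable {d : ℕ}

private theorem blk_lst_mem (l : List (Vx d)) : ∀ x : Vx d, lst x l = x ∨ lst x l ∈ l := by
  induction l with
  | nil => intro x; exact Or.inl rfl
  | cons y l ih =>
    intro x
    rw [lst_cons]
    rcases ih y with h | h
    · rw [h]; exact Or.inr List.mem_cons_self
    · exact Or.inr (List.mem_cons_of_mem _ h)

private theorem blk_mem_Evb {r : ℕ} {x : Vx d} {l : List (Vx d)} (hl : Pth (full d) x l)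
    (he : Even l.length) (hb : ∀ u ∈ l, InBox r x u) : lst x l ∈ Evb r x := by
  rw [mem_Evb]
  refine ⟨?_, par_walk hl he⟩
  rcases blk_lst_mem l x with h | h
  · rw [h]; intro i; simp
  · exact hb _ h

private theorem blk_walk_sum (η : Cfg d) (n : ℕ) (x : Vx d) {ι : Type} (t : Finset ι)
    (F : ι → List (Vx d) → ℝ) :
    ∑ i ∈ t, walkE η n x (F i) = walkE η n x fun l => ∑ i ∈ t, F i l := by
  obtain ⟨S, w, -, h2⟩ := walkE_eq_sum η n x
  rw [h2, Finset.sum_congr rfl fun i _ => h2 (F i), Finset.sum_comm]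
  exact Finset.sum_congr rfl fun l _ => (Finset.mul_sum _ _ _).symm

private theorem blk_pw_pos [NeZero d] (β lam : ℝ) (w : Env d) (l : List (Vx d)) :
    0 < pw d β lam w l := by
  have hd : (0 : ℝ) < d := by exact_mod_cast Nat.pos_of_ne_zero (NeZero.ne d)
  unfold pw
  have := wd_pos β lam w l
  positivity

/-- `path_prob` and `deg_full`. -/
theorem Bl_ge_path [NeZero d] (β lam : ℝ) (w : Env d) {r : ℕ} {x : Vx d} {l : List (Vx d)}
    (hl : Pth (full d) x l) (hb : ∀ u ∈ l, InBox r x u) (hx : lst x l = x) :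
    pw d β lam w l ≤ Bl β lam w l.length r x := by
  unfold pw Bl Zy
  have h1 := path_prob (full d) hl
  have h2 : wd β lam w l * walkE (full d) l.length x (fun l' => ind (l' = l)) ≤
      walkE (full d) l.length x
        (fun l' => ind ((∀ u ∈ l', InBox r x u) ∧ lst x l' = x) * wd β lam w l') := by
    rw [← walkE_mul]
    refine walkE_mono _ _ _ fun l' _ _ => ?_
    by_cases h : l' = l
    · rw [h, ind_pos rfl, ind_pos ⟨hb, hx⟩, mul_one, one_mul]
    · rw [ind_neg h, mul_zero]
      exact mul_nonneg (ind_nonneg _) (wd_pos β lam w l').le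
  calc (1 / (2 * d) : ℝ) ^ l.length * wd β lam w l
      = wd β lam w l * (1 / (2 * d) : ℝ) ^ l.length := mul_comm _ _
    _ ≤ wd β lam w l * walkE (full d) l.length x (fun l' => ind (l' = l)) :=
        mul_le_mul_of_nonneg_left h1 (wd_pos β lam w l).le
    _ ≤ _ := h2

theorem Zc_eq_sum [NeZero d] (β lam : ℝ) (w : Env d) {n r : ℕ} (hn : Even n) (x : Vx d) :
    Zc β lam w n r x = ∑ y ∈ Evb r x, Zy β lam w n r x y := by
  classical
  unfold Zc Zy
  rw [blk_walk_sum]
  refine walkE_congr _ _ _ fun l hl hp => ?_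
  rw [← Finset.sum_mul]
  congr 1
  by_cases hb : ∀ u ∈ l, InBox r x u
  · have hm := blk_mem_Evb (r := r) hp (hl ▸ hn) hb
    rw [ind_pos hb, Finset.sum_eq_single_of_mem _ hm]
    · rw [ind_pos ⟨hb, rfl⟩]
    · intro y _ hy
      exact ind_neg fun h => hy h.2.symm
  · rw [ind_neg hb]
    exact (Finset.sum_eq_zero fun y _ => ind_neg fun h => hb h.1).symm

private theorem blk_inner [NeZero d] (β lam : ℝ) (w : Env d) {n m r : ℕ} {x : Vx d}
    {l q : List (Vx d)} (hl : l.length = n) (hb : ∀ u ∈ l, InBox r x u)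
    (hq : q.length = m) (hp : Pth (full d) (lst x l) q) (hx : lst (lst x l) q = x)
    (hqb : ∀ u ∈ q, InBox r x u) :
    wd β lam w l * pw d β lam (tsh n w) q ≤
      walkE (full d) m (lst x l) fun l' =>
        ind ((∀ u ∈ l ++ l', InBox r x u) ∧ lst x (l ++ l') = x) * wd β lam w (l ++ l') := by
  subst hl hq
  have h1 := path_prob (full d) hp
  have hc : 0 ≤ wd β lam w l * wd β lam (tsh l.length w) q :=
    mul_nonneg (wd_pos _ _ _ _).le (wd_pos _ _ _ _).le
  have h2 : (wd β lam w l * wd β lam (tsh l.length w) q) *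
      walkE (full d) q.length (lst x l) (fun l' => ind (l' = q)) ≤
      walkE (full d) q.length (lst x l) (fun l' =>
        ind ((∀ u ∈ l ++ l', InBox r x u) ∧ lst x (l ++ l') = x) * wd β lam w (l ++ l')) := by
    rw [← walkE_mul]
    refine walkE_mono _ _ _ fun l' _ _ => ?_
    by_cases h : l' = q
    · rw [h, ind_pos rfl, mul_one, ind_pos, one_mul, wd_append]
      refine ⟨fun u hu => ?_, ?_⟩
      · rcases List.mem_append.1 hu with h | h
        · exact hb u h
        · exact hqb u h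
      · rw [lst_append, hx]
    · rw [ind_neg h, mul_zero]
      exact mul_nonneg (ind_nonneg _) (wd_pos β lam w _).le
  refine le_trans ?_ h2
  calc wd β lam w l * pw d β lam (tsh l.length w) q
      = (wd β lam w l * wd β lam (tsh l.length w) q) * (1 / (2 * d) : ℝ) ^ q.length := by
        unfold pw; ring
    _ ≤ _ := mul_le_mul_of_nonneg_left h1 hc

/-- First `n` confined steps to `y`, then the fixed path `ret y` of length `m` from `y` to `x`. -/
theorem Bl_ge_sum [NeZero d] (β lam : ℝ) (w : Env d) {n m r : ℕ} {x : Vx d}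
    {ret : Vx d → List (Vx d)}
    (hr : ∀ y ∈ Evb r x, (ret y).length = m ∧ Pth (full d) y (ret y) ∧ lst y (ret y) = x ∧
      ∀ u ∈ ret y, InBox r x u) :
    ∑ y ∈ Evb r x, Zy β lam w n r x y * pw d β lam (tsh n w) (ret y) ≤
      Bl β lam w (n + m) r x := by
  classical
  unfold Bl
  have e1 : ∀ y ∈ Evb r x, Zy β lam w n r x y * pw d β lam (tsh n w) (ret y) =
      walkE (full d) n x fun l => pw d β lam (tsh n w) (ret y) *
        (ind ((∀ u ∈ l, InBox r x u) ∧ lst x l = y) * wd β lam w l) := by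
    intro y _
    rw [walkE_mul, mul_comm]
    rfl
  rw [Finset.sum_congr rfl e1, blk_walk_sum]
  unfold Zy
  rw [walkE_append]
  refine walkE_mono _ _ _ fun l hl hp => ?_
  have hinner : 0 ≤ walkE (full d) m (lst x l) fun l' =>
      ind ((∀ u ∈ l ++ l', InBox r x u) ∧ lst x (l ++ l') = x) * wd β lam w (l ++ l') :=
    walkE_nonneg _ _ _ fun l' => mul_nonneg (ind_nonneg _) (wd_pos β lam w _).le
  by_cases h : (∀ u ∈ l, InBox r x u) ∧ lst x l ∈ Evb r x
  · obtain ⟨hb, hm⟩ := h
    obtain ⟨a1, a2, a3, a4⟩ := hr _ hm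
    rw [Finset.sum_eq_single_of_mem _ hm]
    · rw [ind_pos ⟨hb, rfl⟩, one_mul, mul_comm]
      exact blk_inner β lam w hl hb a1 a2 a3 a4
    · intro y _ hy
      rw [ind_neg fun h => hy h.2.symm, zero_mul, mul_zero]
  · refine le_trans (le_of_eq (Finset.sum_eq_zero fun y hy => ?_)) hinner
    rw [ind_neg, zero_mul, mul_zero]
    rintro ⟨h1, rfl⟩
    exact h ⟨h1, hy⟩

/-- Jensen for the logarithm: weights `Zy / Zc`. -/
theorem log_Bl_ge [NeZero d] (β lam : ℝ) (w : Env d) {n m r : ℕ} (hn : Even n) {x : Vx d}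
    {ret : Vx d → List (Vx d)}
    (hr : ∀ y ∈ Evb r x, (ret y).length = m ∧ Pth (full d) y (ret y) ∧ lst y (ret y) = x ∧
      ∀ u ∈ ret y, InBox r x u) {δ : ℝ} (hδ : 0 < δ) (hZ : δ ≤ Zc β lam w n r x) :
    Real.log δ + ∑ y ∈ Evb r x, Zy β lam w n r x y / Zc β lam w n r x *
        Real.log (pw d β lam (tsh n w) (ret y)) ≤
      Real.log (Bl β lam w (n + m) r x) := by
  have hZ0 : 0 < Zc β lam w n r x := hδ.trans_le hZ
  have hsum := Zc_eq_sum β lam w (r := r) hn x
  have hw1 : ∑ y ∈ Evb r x, Zy β lam w n r x y / Zc β lam w n r x = 1 := by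
    rw [← Finset.sum_div, ← hsum, div_self hZ0.ne']
  have hJ := (strictConcaveOn_log_Ioi.concaveOn).le_map_sum (t := Evb r x)
    (w := fun y => Zy β lam w n r x y / Zc β lam w n r x)
    (p := fun y => pw d β lam (tsh n w) (ret y))
    (fun y _ => div_nonneg (Zy_nonneg β lam w n r x y) hZ0.le) hw1
    (fun y _ => blk_pw_pos β lam _ _)
  simp only [smul_eq_mul] at hJ
  set T := ∑ y ∈ Evb r x, Zy β lam w n r x y / Zc β lam w n r x *
    pw d β lam (tsh n w) (ret y) with hT
  have hT1 : Zc β lam w n r x * T =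
      ∑ y ∈ Evb r x, Zy β lam w n r x y * pw d β lam (tsh n w) (ret y) := by
    rw [hT, Finset.mul_sum]
    refine Finset.sum_congr rfl fun y _ => ?_
    rw [← mul_assoc, mul_div_cancel₀ _ hZ0.ne']
  have hT0 : 0 < T := by
    obtain ⟨y, hy, hy0⟩ : ∃ y ∈ Evb r x, 0 < Zy β lam w n r x y / Zc β lam w n r x := by
      by_contra h
      push Not at h
      have := Finset.sum_nonpos h
      rw [hw1] at this
      exact absurd this (by norm_num)
    rw [hT]
    exact Finset.sum_pos' (fun y _ => mul_nonneg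
      (div_nonneg (Zy_nonneg β lam w n r x y) hZ0.le) (blk_pw_pos β lam _ _).le)
      ⟨y, hy, mul_pos hy0 (blk_pw_pos β lam _ _)⟩
  have hB : Zc β lam w n r x * T ≤ Bl β lam w (n + m) r x := by
    rw [hT1]
    exact Bl_ge_sum β lam w hr
  calc Real.log δ + ∑ y ∈ Evb r x, Zy β lam w n r x y / Zc β lam w n r x *
        Real.log (pw d β lam (tsh n w) (ret y))
      ≤ Real.log (Zc β lam w n r x) + Real.log T := add_le_add (Real.log_le_log hδ hZ) hJ
    _ = Real.log (Zc β lam w n r x * T) := (Real.log_mul hZ0.ne' hT0.ne').symm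
    _ ≤ _ := Real.log_le_log (mul_pos hZ0 hT0) hB

end Pool.Agent.MP_f3fa2b_pr
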