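import Pool.Agent.Lib.MP_f3fa2b_pr.FE.Conf
import Pool.Agent.Lib.MP_f3fa2b_pr.FE.Bad

/-!
Expectation of the logarithm of a block.
-/

namespace Pool.Agent.MP_f3fa2b_pr

open MeasureTheory ProbabilityTheory Filter Topology
open scoped ENNReal

variable {d : ℕ} {Ω : Type*} [MeasurableSpace Ω] {P : Measure Ω} [IsProbabilityMeasure P]

/-- Length of a block. -/
def bk (d k : ℕ) : ℕ := 2 * k ^ 4 + 2 * d * k ^ 3

private theorem blkE_even (d k : ℕ) : Even (bk d k) := by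
  refine ⟨k ^ 4 + d * k ^ 3, ?_⟩
  unfold bk
  ring

private theorem blkE_meas_ev0 {ω : ℕ → Vx d → Ω → ℝ} (h : IIDField P ω) :
    Measurable fun a => ev0 ω a := by
  refine measurable_pi_lambda _ fun i => measurable_pi_lambda _ fun y => ?_
  exact h.meas i y

private theorem blkE_tsh_zero (w : Env d) : tsh 0 w = w := by
  funext i y
  unfold tsh
  rw [zero_add]

private theorem blkE_Bl_meas {ω : ℕ → Vx d → Ω → ℝ} (h : IIDField P ω) (β lam : ℝ) (n r : ℕ)
    (x : Vx d) : Measurable fun a => Bl β lam (ev0 ω a) n r x :=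
  (meas_Zy β lam n r x x).comp (blkE_meas_ev0 h)

private theorem blkE_Bl_int {ω : ℕ → Vx d → Ω → ℝ} (h : IIDField P ω)
    {β : ℝ} (hi : Integrable (fun a => Real.exp (β * ω 1 0 a)) P) (n r : ℕ) (x : Vx d) :
    Integrable (fun a => Bl β (cgf (ω 1 0) P β) (ev0 ω a) n r x) P := by
  obtain ⟨S, w, h1, h2⟩ := walkE_eq_sum (full d) n x
  have e : (fun a => Bl β (cgf (ω 1 0) P β) (ev0 ω a) n r x) = fun a => ∑ l ∈ S, w l *
      (ind ((∀ u ∈ l, InBox r x u) ∧ lst x l = x) * wd β (cgf (ω 1 0) P β) (ev0 ω a) l) := by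
    funext a
    unfold Bl Zy
    rw [h2]
  rw [e]
  refine integrable_finset_sum _ fun l _ => ?_
  exact ((wt_int h hi l).1.const_mul _).const_mul _

private theorem blkE_pw_pos [NeZero d] (β lam : ℝ) (w : Env d) (l : List (Vx d)) :
    0 < pw d β lam w l := by
  have hd : (0 : ℝ) < d := by exact_mod_cast Nat.pos_of_ne_zero (NeZero.ne d)
  unfold pw
  exact mul_pos (by positivity) (wd_pos β lam w l)

private theorem blkE_triv [NeZero d] {k : ℕ} (hk : 1 ≤ k) (x : Vx d) (β lam : ℝ) :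
    ∃ l : List (Vx d), l.length = bk d k ∧ ∀ w : Env d,
      pw d β lam w l ≤ Bl β lam w (bk d k) (k ^ 3) x := by
  obtain ⟨l, hl1, hl2, hl3, hl4⟩ := exists_triv (r := k ^ 3) (Nat.one_le_pow _ _ hk) x (bk d k)
  refine ⟨l, hl1, fun w => ?_⟩
  have h1 := Bl_ge_path β lam w hl2 hl3 (hl4 (blkE_even d k))
  rwa [hl1] at h1

/-- `log Bl ≤ Bl`, `E Bl ≤ 1`, and `Bl` is at least the weight of the trivial path. -/
theorem Bl_log_int [NeZero d] {ω : ℕ → Vx d → Ω → ℝ} (h : IIDField P ω)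
    (hω : Integrable (ω 1 0) P) {β : ℝ} (hi : Integrable (fun a => Real.exp (β * ω 1 0 a)) P)
    {k : ℕ} (hk : 1 ≤ k) (x : Vx d) :
    Integrable (fun a => Real.log (Bl β (cgf (ω 1 0) P β) (ev0 ω a) (bk d k) (k ^ 3) x)) P := by
  obtain ⟨l, hl, hle⟩ := blkE_triv hk x β (cgf (ω 1 0) P β)
  have h1 := blkE_Bl_int h hi (bk d k) (k ^ 3) x
  have h2 := (pw_log_int h hω β (cgf (ω 1 0) P β) 0 l).1
  simp only [blkE_tsh_zero] at h2
  refine (h1.add h2.abs).mono'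
    (Real.measurable_log.comp (blkE_Bl_meas h β _ _ _ x)).aestronglyMeasurable
    (Eventually.of_forall fun a => ?_)
  have hp := blkE_pw_pos β (cgf (ω 1 0) P β) (ev0 ω a) l
  have hB := hle (ev0 ω a)
  have hB0 := lt_of_lt_of_le hp hB
  have h3 := Real.log_le_log hp hB
  have h4 := Real.log_le_sub_one_of_pos hB0
  have h5 := neg_abs_le (Real.log (pw d β (cgf (ω 1 0) P β) (ev0 ω a) l))
  have h6 := abs_nonneg (Real.log (pw d β (cgf (ω 1 0) P β) (ev0 ω a) l))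
  rw [Real.norm_eq_abs, abs_le]
  simp only [Pi.add_apply]
  constructor
  · linarith
  · linarith

/-- `Zc_pos` with the `ρ` of `bad_part`; on the good event `log_Bl_ge` and `good_part`, on the bad
event `Bl_ge_path` for the trivial path. -/
theorem Bl_log_ge [NeZero d] {ω : ℕ → Vx d → Ω → ℝ} (h : IIDField P ω)
    (hω : Integrable (ω 1 0) P) {β : ℝ} (hi : Integrable (fun a => Real.exp (β * ω 1 0 a)) P)
    (hw : WeakZd P ω β) {ε : ℝ} (hε : 0 < ε) :
    ∃ k : ℕ, 1 ≤ k ∧ ∀ x : Vx d,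
      -(ε * bk d k) ≤
        ∫ a, Real.log (Bl β (cgf (ω 1 0) P β) (ev0 ω a) (bk d k) (k ^ 3) x) ∂P := by
  obtain ⟨lam, hlam⟩ : ∃ lam, lam = cgf (ω 1 0) P β := ⟨_, rfl⟩
  obtain ⟨C, hC⟩ : ∃ C, C = C0 d P (ω 1 0) β lam := ⟨_, rfl⟩
  obtain ⟨ρ, hρ, hbad⟩ := bad_part h hω β lam (half_pos hε)
  obtain ⟨δ, hδ, hδ1, N, hN⟩ := Zc_pos h hi hw hρ
  obtain ⟨k1, hk1⟩ := exists_nat_ge (-(2 * Real.log δ) / ε)
  obtain ⟨k2, hk2⟩ := exists_nat_ge (4 * d * C / ε)
  set k : ℕ := N + 1 + k1 + k2 with hk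
  have hk1' : 1 ≤ k := by omega
  refine ⟨k, hk1', fun x => ?_⟩
  have hkr : (1 : ℝ) ≤ k := by exact_mod_cast hk1'
  have e1 : -Real.log δ ≤ ε / 2 * (k : ℝ) ^ 4 := by
    have h1 : -(2 * Real.log δ) / ε ≤ k := by
      refine hk1.trans ?_
      exact_mod_cast (by omega : k1 ≤ k)
    rw [div_le_iff₀ hε] at h1
    have h2 : (k : ℝ) ≤ (k : ℝ) ^ 4 := le_self_pow₀ hkr (by norm_num)
    nlinarith
  have e2 : 2 * d * (k : ℝ) ^ 3 * C ≤ ε / 2 * (k : ℝ) ^ 4 := by
    have h1 : 4 * d * C / ε ≤ k := by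
      refine hk2.trans ?_
      exact_mod_cast (by omega : k2 ≤ k)
    rw [div_le_iff₀ hε] at h1
    have h2 : (0 : ℝ) ≤ (k : ℝ) ^ 3 := by positivity
    nlinarith
  have e3 : Real.log δ - ((2 * d * k ^ 3 : ℕ) : ℝ) * C ≥ -(ε / 2 * (bk d k : ℕ)) := by
    have h1 : ((bk d k : ℕ) : ℝ) = 2 * (k : ℝ) ^ 4 + 2 * d * (k : ℝ) ^ 3 := by
      unfold bk
      push_cast
      ring
    rw [h1]
    push_cast
    have h2 : (0 : ℝ) ≤ 2 * d * (k : ℝ) ^ 3 := by positivity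
    nlinarith
  -- the paths back to the centre
  have hret : ∀ y : Vx d, ∃ l : List (Vx d), y ∈ Evb (k ^ 3) x →
      (l.length = 2 * d * k ^ 3 ∧ Pth (full d) y l ∧ lst y l = x ∧
        ∀ u ∈ l, InBox (k ^ 3) x u) := by
    intro y
    by_cases hy : y ∈ Evb (k ^ 3) x
    · obtain ⟨l, hl⟩ := exists_ret (Nat.one_le_pow _ _ hk1') hy
      exact ⟨l, fun _ => hl⟩
    · exact ⟨[], fun h' => absurd h' hy⟩
  choose ret hr using hret
  have hn : Even (2 * k ^ 4) := even_two_mul _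
  have hgood := good_part h hω β lam hn x (m := 2 * d * k ^ 3) (r := k ^ 3) (ret := ret)
    (fun y hy => (hr y hy).1) hδ hδ1
  have hfi : Integrable (fun a => Real.log (Bl β lam (ev0 ω a) (bk d k) (k ^ 3) x)) P := by
    rw [hlam]
    exact Bl_log_int h hω hi hk1' x
  have hZm : Measurable fun a => Zc β lam (ev0 ω a) (2 * k ^ 4) (k ^ 3) x :=
    (meas_Zc β lam _ _ x).comp (blkE_meas_ev0 h)
  set B : Set Ω := {a | Zc β lam (ev0 ω a) (2 * k ^ 4) (k ^ 3) x < δ} with hB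
  have hBm : MeasurableSet B := measurableSet_lt hZm measurable_const
  have hBρ : P.real B ≤ ρ := by
    rw [hB, hlam]
    exact hN k (by omega) x
  obtain ⟨l, hl, hle⟩ := blkE_triv hk1' x β lam
  have hbadB := hbad l B hBm hBρ
  rw [hl] at hbadB
  have hpi := (pw_log_int h hω β lam 0 l).1
  simp only [blkE_tsh_zero] at hpi
  have hB1 : ∫ a in B, Real.log (pw d β lam (ev0 ω a) l) ∂P
      ≤ ∫ a in B, Real.log (Bl β lam (ev0 ω a) (bk d k) (k ^ 3) x) ∂P := by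
    refine integral_mono hpi.integrableOn hfi.integrableOn fun a => ?_
    exact Real.log_le_log (blkE_pw_pos β lam (ev0 ω a) l) (hle (ev0 ω a))
  have hG1 : Real.log δ - ((2 * d * k ^ 3 : ℕ) : ℝ) * C
      ≤ ∫ a in Bᶜ, Real.log (Bl β lam (ev0 ω a) (bk d k) (k ^ 3) x) ∂P := by
    rw [hC]
    refine hgood.2.trans ?_
    rw [← integral_indicator hBm.compl]
    refine integral_mono hgood.1 (hfi.indicator hBm.compl) fun a => ?_
    by_cases ha : δ ≤ Zc β lam (ev0 ω a) (2 * k ^ 4) (k ^ 3) x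
    · have ha2 : a ∈ Bᶜ := by
        rw [hB]
        simp only [Set.mem_compl_iff, Set.mem_setOf_eq, not_lt]
        exact ha
      simp only
      rw [ind_pos ha, one_mul, Set.indicator_of_mem ha2]
      exact log_Bl_ge β lam (ev0 ω a) hn hr hδ ha
    · have ha2 : a ∉ Bᶜ := by
        rw [hB]
        simp only [Set.mem_compl_iff, Set.mem_setOf_eq, not_not]
        exact not_le.1 ha
      simp only
      rw [ind_neg ha, zero_mul, Set.indicator_of_notMem ha2]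
  rw [← hlam]
  rw [← integral_add_compl hBm hfi]
  have e4 : -(ε * (bk d k : ℕ)) = -(ε / 2 * (bk d k : ℕ)) + -(ε / 2 * (bk d k : ℕ)) := by ring
  rw [e4]
  exact add_le_add (hbadB.trans hB1) (e3.le.trans hG1)

end Pool.Agent.MP_f3fa2b_pr
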