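import Pool.Agent.Lib.MP_f3fa2b_pr.FE.Basic

/-!
The local modification which creates an open box.
-/

namespace Pool.Agent.MP_f3fa2b_pr

open MeasureTheory ProbabilityTheory Filter Topology
open scoped ENNReal

variable {d : ℕ}

/-- The cluster of `x` is infinite and contains the centres of at least one and at most `M` open
boxes of radius `r`. -/
def FewBoxes (r M : ℕ) (η : Cfg d) (x : Vx d) : Prop :=
  InfC η x ∧ (∃ v ∈ cluster η x, OpenBox η r v) ∧
    ∃ A : Finset (Vx d), A.card ≤ M ∧ ∀ v ∈ cluster η x, OpenBox η r v → v ∈ A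

/-- The bonds which touch the box of radius `r + 1`. -/
noncomputable def boxBonds (d r : ℕ) : Finset (Bond d) :=
  (Bx (r + 1) (0 : Vx d) ×ˢ (Finset.univ : Finset (Step d))).image fun p => bond p.1 p.2

private theorem boxMod_rev (s : Step d) : vec (s.1, !s.2) = -vec s := by
  obtain ⟨i, b⟩ := s
  cases b <;> simp [vec]

private theorem boxMod_bond_rev (x : Vx d) (s : Step d) :
    bond (x + vec s) (s.1, !s.2) = bond x s := by
  obtain ⟨i, b⟩ := s
  cases b <;> simp [vec, bond, sub_eq_add_neg]

private theorem boxMod_bond_eq {x y : Vx d} {s t : Step d} (h : bond x s = bond y t) :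
    (x = y ∧ s = t) ∨ (y = x + vec s ∧ t = (s.1, !s.2)) := by
  obtain ⟨i, b⟩ := s
  obtain ⟨j, c⟩ := t
  cases b <;> cases c <;> simp only [bond, Bool.false_eq_true, if_true, if_false, Prod.mk.injEq,
    vec, Bool.not_true, Bool.not_false] at h ⊢
  · obtain ⟨h1, rfl⟩ := h
    left
    exact ⟨sub_left_injective h1, rfl, trivial⟩
  · obtain ⟨h1, rfl⟩ := h
    right
    refine ⟨?_, rfl, trivial⟩
    rw [← h1]; abel
  · obtain ⟨h1, rfl⟩ := h
    right
    refine ⟨?_, rfl, trivial⟩
    rw [h1]; abel
  · obtain ⟨h1, rfl⟩ := h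
    left
    exact ⟨h1, rfl, trivial⟩

private theorem boxMod_mem {r : ℕ} {x : Vx d} {s : Step d} :
    bond x s ∈ boxBonds d r ↔ x ∈ Bx (r + 1) (0 : Vx d) ∨ x + vec s ∈ Bx (r + 1) (0 : Vx d) := by
  constructor
  · intro h
    unfold boxBonds at h
    rw [Finset.mem_image] at h
    obtain ⟨⟨z, t⟩, hz, hb⟩ := h
    rw [Finset.mem_product] at hz
    rcases boxMod_bond_eq hb with ⟨h1, -⟩ | ⟨h1, h2⟩
    · left
      rw [← show z = x from h1]
      exact hz.1
    · right
      have h3 : x + vec s = z := by
        rw [h2, boxMod_rev, show x = z + vec t from h1]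
        simp
      rw [h3]
      exact hz.1
  · intro h
    unfold boxBonds
    rw [Finset.mem_image]
    rcases h with h | h
    · exact ⟨(x, s), by simp [h], rfl⟩
    · exact ⟨(x + vec s, (s.1, !s.2)), by simp [h], boxMod_bond_rev x s⟩

private theorem boxMod_trans {η : Cfg d} {x y : Vx d} (h : y ∈ cluster η x) :
    cluster η y = cluster η x := by
  obtain ⟨l, hl, rfl⟩ := (mem_cluster_iff η x y).mp h
  exact cluster_lst η hl

private theorem boxMod_step {η : Cfg d} {x u : Vx d} {s : Step d} (h : u ∈ cluster η x)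
    (hs : η (bond u s) = true) : u + vec s ∈ cluster η x :=
  Relation.ReflTransGen.tail h ⟨s, hs, rfl⟩

private theorem boxMod_zero (r : ℕ) : (0 : Vx d) ∈ Bx (r + 1) (0 : Vx d) := by
  rw [mem_Bx]
  intro i
  simp
  positivity

/-- Step 1: the cluster of the origin is covered by the box and closed clusters. -/
private theorem boxMod_cover {r : ℕ} {η : Cfg d} {u : Vx d} (hu : u ∈ cluster η 0) :
    u ∈ Bx (r + 1) (0 : Vx d) ∨ ∃ z ∈ Bx (r + 1) (0 : Vx d), ∃ s : Step d,
      z + vec s ∉ Bx (r + 1) (0 : Vx d) ∧ z + vec s ∈ cluster η 0 ∧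
      u ∈ cluster (modify (boxBonds d r) ∅ η) (z + vec s) := by
  induction hu with
  | refl => exact Or.inl (boxMod_zero r)
  | @tail b c h1 h2 ih =>
    obtain ⟨s, hs, rfl⟩ := h2
    by_cases hc : b + vec s ∈ Bx (r + 1) (0 : Vx d)
    · exact Or.inl hc
    right
    by_cases hb : b ∈ Bx (r + 1) (0 : Vx d)
    · exact ⟨b, hb, s, hc, boxMod_step h1 hs, Relation.ReflTransGen.refl⟩
    rcases ih with ih | ⟨z, hz, t, h3, h4, h5⟩
    · exact absurd ih hb
    refine ⟨z, hz, t, h3, h4, boxMod_step h5 ?_⟩
    have hn : bond b s ∉ boxBonds d r := by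
      rw [boxMod_mem]
      tauto
    unfold modify
    rw [if_neg hn]
    exact hs

/-- Step 2: one of the closed clusters is infinite. -/
private theorem boxMod_inf {r : ℕ} {η : Cfg d} (h : InfC η 0) :
    ∃ z ∈ Bx (r + 1) (0 : Vx d), ∃ s : Step d, z + vec s ∉ Bx (r + 1) (0 : Vx d) ∧
      z + vec s ∈ cluster η 0 ∧ InfC (modify (boxBonds d r) ∅ η) (z + vec s) := by
  by_contra hn
  push Not at hn
  apply h
  have hfin : (((Bx (r + 1) (0 : Vx d) : Finset (Vx d)) : Set (Vx d)) ∪
      ⋃ z ∈ (Bx (r + 1) (0 : Vx d) : Finset (Vx d)), ⋃ s ∈ (Finset.univ : Finset (Step d)),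
        {u | z + vec s ∉ Bx (r + 1) (0 : Vx d) ∧ z + vec s ∈ cluster η 0 ∧
          u ∈ cluster (modify (boxBonds d r) ∅ η) (z + vec s)}).Finite := by
    refine (Finset.finite_toSet _).union ?_
    refine Set.Finite.biUnion (Finset.finite_toSet _) fun z hz => ?_
    refine Set.Finite.biUnion (Finset.finite_toSet _) fun s _ => ?_
    by_cases h1 : z + vec s ∉ Bx (r + 1) (0 : Vx d) ∧ z + vec s ∈ cluster η 0
    · have h2 := hn z hz s h1.1 h1.2
      unfold InfC at h2
      rw [Set.not_infinite] at h2
      exact h2.subset fun u hu => hu.2.2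
    · refine Set.finite_empty.subset fun u hu => ?_
      exact absurd ⟨hu.1, hu.2.1⟩ h1
  refine hfin.subset fun u hu => ?_
  rcases boxMod_cover (r := r) hu with h1 | ⟨z, hz, s, h1, h2, h3⟩
  · left
    exact h1
  · right
    simp only [Set.mem_iUnion]
    exact ⟨z, hz, s, Finset.mem_univ s, h1, h2, h3⟩

/-- The opened bonds. -/
private noncomputable def boxMod_Op (r : ℕ) (z : Vx d) (s : Step d) : Finset (Bond d) :=
  insert (bond z s) (((Bx (r + 1) (0 : Vx d) ×ˢ (Finset.univ : Finset (Step d))).filter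
    fun p => p.1 + vec p.2 ∈ Bx (r + 1) (0 : Vx d)).image fun p => bond p.1 p.2)

private theorem boxMod_mem_Op {r : ℕ} {z x : Vx d} {s t : Step d} :
    bond x t ∈ boxMod_Op r z s ↔ bond x t = bond z s ∨
      (x ∈ Bx (r + 1) (0 : Vx d) ∧ x + vec t ∈ Bx (r + 1) (0 : Vx d)) := by
  unfold boxMod_Op
  rw [Finset.mem_insert, Finset.mem_image]
  refine or_congr Iff.rfl ⟨?_, ?_⟩
  · rintro ⟨⟨y, c⟩, h1, h2⟩
    rw [Finset.mem_filter, Finset.mem_product] at h1
    rcases boxMod_bond_eq h2 with ⟨h3, h4⟩ | ⟨h3, h4⟩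
    · rw [← show y = x from h3, ← show c = t from h4]
      exact ⟨h1.1.1, h1.2⟩
    · have h5 : x + vec t = y := by
        rw [h4, boxMod_rev, show x = y + vec c from h3]
        simp
      rw [h5, show x = y + vec c from h3]
      exact ⟨h1.2, h1.1.1⟩
  · rintro ⟨h1, h2⟩
    exact ⟨(x, t), by simp [h1, h2], rfl⟩

section main

variable {r : ℕ} {η : Cfg d} {z : Vx d} {s : Step d}

private theorem boxMod_in {O : Finset (Bond d)} {b : Bond d} (hb : b ∈ boxBonds d r) :
    modify (boxBonds d r) O η b = true ↔ b ∈ O := by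
  unfold modify
  rw [if_pos hb]
  simp

private theorem boxMod_out {O : Finset (Bond d)} {b : Bond d} (hb : b ∉ boxBonds d r) :
    modify (boxBonds d r) O η b = η b := by
  unfold modify
  rw [if_neg hb]

private theorem boxMod_inf_mod {O : Finset (Bond d)} {y : Vx d}
    (h : InfC (modify (boxBonds d r) ∅ η) y) : InfC (modify (boxBonds d r) O η) y := by
  refine Set.Infinite.mono (fun u hu => ?_) h
  refine Relation.ReflTransGen.mono ?_ _ _ hu
  rintro a b ⟨t, ht, rfl⟩
  refine ⟨t, ?_, rfl⟩
  by_cases hb : bond a t ∈ boxBonds d r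
  · rw [boxMod_in hb] at ht
    simp at ht
  · rw [boxMod_out hb] at ht ⊢
    exact ht

/-- all bonds inside the box of radius `r + 1` are open. -/
private theorem boxMod_open {x : Vx d} {t : Step d} (h1 : x ∈ Bx (r + 1) (0 : Vx d))
    (h2 : x + vec t ∈ Bx (r + 1) (0 : Vx d)) :
    modify (boxBonds d r) (boxMod_Op r z s) η (bond x t) = true :=
  (boxMod_in (boxMod_mem.mpr (Or.inl h1))).mpr (boxMod_mem_Op.mpr (Or.inr ⟨h1, h2⟩))

private theorem boxMod_vec_abs (t : Step d) (i : Fin d) : |vec t i| ≤ 1 := by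
  obtain ⟨j, b⟩ := t
  by_cases h : i = j
  · subst h
    cases b <;> simp [vec, ev]
  · cases b <;> simp [vec, ev, h]

private theorem boxMod_box :
    OpenBox (modify (boxBonds d r) (boxMod_Op r z s) η) r (0 : Vx d) := by
  intro y hy t
  refine boxMod_open ?_ ?_
  · rw [mem_Bx]
    intro i
    have := hy i
    push_cast
    omega
  · rw [mem_Bx]
    intro i
    have h1 := hy i
    have h2 := boxMod_vec_abs t i
    have h3 : (y + vec t) i - (0 : Vx d) i = (y i - (0 : Vx d) i) + vec t i := by
      rw [Pi.add_apply]; ring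
    rw [h3]
    refine (abs_add_le _ _).trans ?_
    push_cast
    omega

/-- the vertices of the box of radius `r + 1` are connected to the centre. -/
private theorem boxMod_conn (k : ℕ) : ∀ y : Vx d, y ∈ Bx (r + 1) (0 : Vx d) →
    ∑ i, (y i).natAbs ≤ k →
    y ∈ cluster (modify (boxBonds d r) (boxMod_Op r z s) η) 0 := by
  induction k with
  | zero =>
    intro y _ hk
    have h0 : y = 0 := by
      funext i
      have h1 : (y i).natAbs ≤ 0 := by
        refine le_trans ?_ hk
        exact Finset.single_le_sum (f := fun i => (y i).natAbs) (fun _ _ => Nat.zero_le _)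
          (Finset.mem_univ i)
      simpa using h1
    rw [h0]
    exact Relation.ReflTransGen.refl
  | succ k ih =>
    intro y hy hk
    by_cases h0 : y = 0
    · rw [h0]
      exact Relation.ReflTransGen.refl
    obtain ⟨j, hj⟩ : ∃ j, y j ≠ 0 := by
      by_contra hn
      push Not at hn
      exact h0 (funext hn)
    -- the step away from the centre
    set t : Step d := (j, decide (0 < y j)) with ht
    have hv : ∀ i, vec t i = if i = j then (if 0 < y j then 1 else -1) else 0 := by
      intro i
      by_cases hp : 0 < y j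
      · by_cases h : i = j
        · subst h
          simp [ht, vec, ev, hp]
        · simp [ht, vec, ev, hp, h]
      · by_cases h : i = j
        · subst h
          simp [ht, vec, ev, hp]
        · simp [ht, vec, ev, hp, h]
    set x : Vx d := y - vec t with hx
    have hxi : ∀ i, x i = if i = j then y j - (if 0 < y j then 1 else -1) else y i := by
      intro i
      rw [hx, Pi.sub_apply, hv]
      by_cases h : i = j
      · subst h; simp
      · simp [h]
    have hyx : x + vec t = y := by rw [hx]; abel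
    have hxB : x ∈ Bx (r + 1) (0 : Vx d) := by
      rw [mem_Bx] at hy ⊢
      intro i
      have h1 := hy i
      have h2 := hxi i
      simp only [Pi.zero_apply, sub_zero] at h1 ⊢
      rw [h2]
      by_cases h : i = j
      · subst h
        rw [if_pos rfl]
        rw [abs_le] at h1 ⊢
        split_ifs with hp <;> constructor <;> omega
      · rw [if_neg h]
        exact h1
    have hsum : ∑ i, (x i).natAbs ≤ k := by
      have h1 : ∑ i, (x i).natAbs < ∑ i, (y i).natAbs := by
        refine Finset.sum_lt_sum (fun i _ => ?_) ⟨j, Finset.mem_univ j, ?_⟩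
        · rw [hxi i]
          by_cases h : i = j
          · subst h
            rw [if_pos rfl]
            split_ifs with hp <;> omega
          · rw [if_neg h]
        · rw [hxi j, if_pos rfl]
          split_ifs with hp <;> omega
      omega
    have h1 := ih x hxB hsum
    rw [← hyx]
    exact boxMod_step h1 (boxMod_open hxB (by rw [hyx]; exact hy))

private theorem boxMod_old (hzS : z ∈ Bx (r + 1) (0 : Vx d)) (hy : z + vec s ∈ cluster η 0)
    {u : Vx d} (hu : u ∈ cluster (modify (boxBonds d r) (boxMod_Op r z s) η) (z + vec s)) :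
    u ∈ Bx (r + 1) (0 : Vx d) ∨ u ∈ cluster η 0 := by
  induction hu with
  | refl => exact Or.inr hy
  | @tail b c h1 h2 ih =>
    obtain ⟨t, ht, rfl⟩ := h2
    by_cases hc : b + vec t ∈ Bx (r + 1) (0 : Vx d)
    · exact Or.inl hc
    right
    by_cases hb : b ∈ Bx (r + 1) (0 : Vx d)
    · rw [boxMod_in (boxMod_mem.mpr (Or.inl hb)), boxMod_mem_Op] at ht
      rcases ht with ht | ht
      · rcases boxMod_bond_eq ht with ⟨h3, h4⟩ | ⟨h3, -⟩
        · rw [h3, h4]; exact hy
        · rw [← h3] at hc
          exact absurd hzS hc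
      · exact absurd ht.2 hc
    · have hn : bond b t ∉ boxBonds d r := by
        rw [boxMod_mem]; tauto
      rw [boxMod_out hn] at ht
      rcases ih with ih | ih
      · exact absurd ih hb
      · exact boxMod_step ih ht

end main

/-- The box and its neighbours. -/
private noncomputable def boxMod_Nb (d r : ℕ) : Finset (Vx d) :=
  Bx (r + 1) (0 : Vx d) ∪ (Bx (r + 1) (0 : Vx d) ×ˢ (Finset.univ : Finset (Step d))).image
    fun p => p.1 + vec p.2

private theorem boxMod_not_Nb {r : ℕ} {u : Vx d} (hu : u ∉ boxMod_Nb d r) (t : Step d) :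
    bond u t ∉ boxBonds d r := by
  rw [boxMod_mem]
  rintro (h | h)
  · exact hu (Finset.mem_union_left _ h)
  · apply hu
    apply Finset.mem_union_right
    rw [Finset.mem_image]
    refine ⟨(u + vec t, (t.1, !t.2)), by simp [h], ?_⟩
    rw [boxMod_rev]; simp

/-- Possible centres of open boxes of the new configuration. -/
private noncomputable def boxMod_AA (d r : ℕ) : Finset (Vx d) :=
  (boxMod_Nb d r ×ˢ Bx r (0 : Vx d)).image fun p => p.1 - p.2

/-- As in `modify_lemma` (file Modify), with the box of radius `r + 1` instead of the segment: close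
all bonds touching the box, then open all bonds with both ends in the box and one bond `z - y`
between `z` in the box and an outer neighbour `y` whose cluster in the closed configuration is
infinite and which lies in the old cluster of `0`. -/
theorem box_modify (r : ℕ) :
    ∃ (O : Finset (Finset (Bond d) × Vx d)) (M : ℕ), ∀ η : Cfg d, InfC η 0 →
      (∀ v ∈ cluster η 0, ¬ OpenBox η r v) →
      ∃ p ∈ O, FewBoxes r M (modify (boxBonds d r) p.1 η) p.2 := by
  classical
  refine ⟨((Bx (r + 1) (0 : Vx d)) ×ˢ (Finset.univ : Finset (Step d))).image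
    (fun p : Vx d × Step d => (boxMod_Op r p.1 p.2, p.1 + vec p.2)), (boxMod_AA d r).card,
    fun η hη hno => ?_⟩
  obtain ⟨z, hzS, s, h1, h2, h3⟩ := boxMod_inf (r := r) hη
  refine ⟨(boxMod_Op r z s, z + vec s), ?_, ?_⟩
  · rw [Finset.mem_image]
    exact ⟨(z, s), Finset.mem_product.mpr ⟨hzS, Finset.mem_univ s⟩, rfl⟩
  have hz0 : z ∈ cluster (modify (boxBonds d r) (boxMod_Op r z s) η) 0 :=
    boxMod_conn _ z hzS le_rfl
  have hzs : z + vec s ∈ cluster (modify (boxBonds d r) (boxMod_Op r z s) η) 0 := by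
    refine boxMod_step hz0 ?_
    exact (boxMod_in (boxMod_mem.mpr (Or.inl hzS))).mpr (boxMod_mem_Op.mpr (Or.inl rfl))
  refine ⟨boxMod_inf_mod h3, ⟨0, ?_, boxMod_box⟩, boxMod_AA d r, le_rfl, ?_⟩
  · rw [boxMod_trans hzs]
    exact Relation.ReflTransGen.refl
  intro w hwc hw
  by_contra hA
  have hout : ∀ y, InBox r w y → y ∉ boxMod_Nb d r := by
    intro y hy hin
    apply hA
    unfold boxMod_AA
    rw [Finset.mem_image]
    refine ⟨(y, y - w), Finset.mem_product.mpr ⟨hin, ?_⟩, by simp⟩
    rw [mem_Bx]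
    intro i
    have := hy i
    simpa using this
  have hbox : OpenBox η r w := by
    intro y hy t
    rw [← hw y hy t, boxMod_out (boxMod_not_Nb (hout y hy) t)]
  have hww : InBox r w w := by
    intro i
    simp
  rcases boxMod_old hzS h2 hwc with h | h
  · exact hout w hww (Finset.mem_union_left _ h)
  · exact hno w h hbox

end Pool.Agent.MP_f3fa2b_pr
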