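import Pool.Agent.Lib.MP_f3fa2b_pr.FE.BoxMod
import Pool.Agent.Lib.MP_f3fa2b_pr.Mtp

/-!
Mass transport for open boxes (as in the file Mtp for pipes).
-/

namespace Pool.Agent.MP_f3fa2b_pr

open MeasureTheory ProbabilityTheory Filter Topology
open scoped ENNReal

variable {d : ℕ} [NeZero d]

private theorem boxMtp_cluster_shift (a : Vx d) (η : Cfg d) (x y : Vx d) :
    y ∈ cluster (shift a η) x ↔ y + a ∈ cluster η (x + a) := by
  constructor
  · intro hu
    change Relation.ReflTransGen _ x y at hu
    change Relation.ReflTransGen _ (x + a) (y + a)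
    induction hu with
    | refl => exact Relation.ReflTransGen.refl
    | tail _ h2 ih =>
      obtain ⟨s, hs, rfl⟩ := h2
      refine Relation.ReflTransGen.tail ih ⟨s, ?_, ?_⟩
      · rw [shift_bond] at hs; exact hs
      · abel
  · intro h
    change Relation.ReflTransGen _ (x + a) (y + a) at h
    obtain ⟨z, hz⟩ : ∃ z, z = y + a := ⟨_, rfl⟩
    rw [← hz] at h
    have key : ∃ u, z = u + a ∧ u ∈ cluster (shift a η) x := by
      clear hz
      induction h with
      | refl => exact ⟨x, rfl, Relation.ReflTransGen.refl⟩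
      | tail _ h2 ih =>
        obtain ⟨u, rfl, hu⟩ := ih
        obtain ⟨s, hs, rfl⟩ := h2
        refine ⟨u + vec s, by abel, ?_⟩
        refine Relation.ReflTransGen.tail hu ⟨s, ?_, rfl⟩
        rw [shift_bond]; exact hs
    obtain ⟨u, hu1, hu2⟩ := key
    have : y = u := add_right_cancel (hz.symm.trans hu1)
    rw [this]
    exact hu2

private theorem boxMtp_cluster_eq (η : Cfg d) {x y : Vx d} (h : y ∈ cluster η x) :
    cluster η y = cluster η x := by
  obtain ⟨l, hl, rfl⟩ := (mem_cluster_iff η x y).1 h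
  exact cluster_lst η hl

theorem meas_openBox (r : ℕ) (v : Vx d) : MeasurableSet {η : Cfg d | OpenBox η r v} := by
  have h : {η : Cfg d | OpenBox η r v} = ⋂ y : Vx d, ⋂ _ : InBox r v y, ⋂ s : Step d,
      {η : Cfg d | η (bond y s) = true} := by
    ext η
    simp [OpenBox]
  rw [h]
  refine MeasurableSet.iInter fun y => MeasurableSet.iInter fun _ => MeasurableSet.iInter fun s => ?_
  have h2 : Measurable fun η : Cfg d => η (bond y s) := measurable_pi_apply (bond y s)
  exact h2 (MeasurableSet.singleton true)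

theorem openBox_shift (r : ℕ) (a : Vx d) (η : Cfg d) (v : Vx d) :
    OpenBox (shift a η) r v ↔ OpenBox η r (v + a) := by
  constructor
  · intro h y hy s
    have h1 := h (y - a) (fun i => by
      have h2 := hy i
      have e : (y - a) i - v i = y i - (v + a) i := by
        rw [Pi.sub_apply, Pi.add_apply]; ring
      rw [e]
      exact h2) s
    rw [shift_bond, sub_add_cancel] at h1
    exact h1
  · intro h y hy s
    rw [shift_bond]
    refine h (y + a) (fun i => ?_) s
    have h2 := hy i
    have e : (y + a) i - (v + a) i = y i - v i := by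
      rw [Pi.add_apply, Pi.add_apply]; ring
    rw [e]
    exact h2

private theorem boxMtp_few_shift (r M : ℕ) (a : Vx d) (η : Cfg d) (x : Vx d) :
    FewBoxes r M (shift a η) x ↔ FewBoxes r M η (x + a) := by
  classical
  unfold FewBoxes
  rw [infC_shift]
  refine and_congr Iff.rfl (and_congr ?_ ?_)
  · constructor
    · rintro ⟨v, hvc, hv⟩
      exact ⟨v + a, (boxMtp_cluster_shift a η x v).1 hvc, (openBox_shift r a η v).1 hv⟩
    · rintro ⟨v, hvc, hv⟩
      refine ⟨v - a, ?_, (openBox_shift r a η _).2 (by rw [sub_add_cancel]; exact hv)⟩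
      rw [boxMtp_cluster_shift, sub_add_cancel]
      exact hvc
  · constructor
    · rintro ⟨A, hA, hAv⟩
      refine ⟨A.image (fun v => v + a), Finset.card_image_le.trans hA, ?_⟩
      intro v hvc hv
      rw [Finset.mem_image]
      refine ⟨v - a, hAv _ ?_ ((openBox_shift r a η _).2 (by rw [sub_add_cancel]; exact hv)),
        sub_add_cancel v a⟩
      rw [boxMtp_cluster_shift, sub_add_cancel]
      exact hvc
    · rintro ⟨A, hA, hAv⟩
      refine ⟨A.image (fun v => v - a), Finset.card_image_le.trans hA, ?_⟩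
      intro v hvc hv
      rw [Finset.mem_image]
      exact ⟨v + a, hAv _ ((boxMtp_cluster_shift a η x v).1 hvc) ((openBox_shift r a η v).1 hv),
        add_sub_cancel_right v a⟩

private theorem boxMtp_meas_few (r M : ℕ) (x : Vx d) :
    MeasurableSet {η : Cfg d | FewBoxes r M η x} := by
  have h : {η : Cfg d | FewBoxes r M η x} = {η : Cfg d | InfC η x} ∩
      ((⋃ v : Vx d, {η : Cfg d | v ∈ cluster η x} ∩ {η : Cfg d | OpenBox η r v}) ∩
        ⋃ A : Finset (Vx d), {_η : Cfg d | A.card ≤ M} ∩
          ⋂ v : Vx d, ({η : Cfg d | v ∈ cluster η x}ᶜ ∪ ({η : Cfg d | OpenBox η r v}ᶜ ∪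
            {_η : Cfg d | v ∈ A}))) := by
    ext η
    simp only [FewBoxes, Set.mem_ofPred_eq, Set.mem_iUnion, Set.mem_inter_iff, Set.mem_iInter,
      Set.mem_union, Set.mem_compl_iff]
    refine and_congr Iff.rfl (and_congr Iff.rfl (exists_congr fun A => and_congr Iff.rfl
      (forall_congr' fun v => ?_)))
    tauto
  rw [h]
  exact (meas_infC x).inter ((MeasurableSet.iUnion fun v =>
    (meas_cluster x v).inter (meas_openBox r v)).inter (MeasurableSet.iUnion fun A =>
      (MeasurableSet.const _).inter (MeasurableSet.iInter fun v =>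
        (meas_cluster x v).compl.union ((meas_openBox r v).compl.union (MeasurableSet.const _)))))

theorem send_null_box {μ : Measure (Cfg d)} [IsProbabilityMeasure μ] (h : TransInv μ)
    (r M : ℕ) : μ {η | FewBoxes r M η (0 : Vx d) ∧ OpenBox η r 0} = 0 := by
  classical
  -- `0` sends to `v`
  let E : Vx d → Set (Cfg d) := fun v => {η | FewBoxes r M η 0 ∧ OpenBox η r v ∧ v ∈ cluster η 0}
  have hEm : ∀ v, MeasurableSet (E v) := fun v =>
    (boxMtp_meas_few r M 0).inter ((meas_openBox r v).inter (meas_cluster 0 v))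
  have hE : ∑' v, μ (E v) ≤ M := by
    have h1 : ∀ v, μ (E v) = ∫⁻ η, (E v).indicator 1 η ∂μ := fun v =>
      (lintegral_indicator_one (hEm v)).symm
    simp only [h1]
    rw [← lintegral_tsum (fun v => (measurable_one.indicator (hEm v)).aemeasurable)]
    have h2 : ∀ η, ∑' v, (E v).indicator (1 : Cfg d → ℝ≥0∞) η ≤ M := by
      intro η
      by_cases hη : FewBoxes r M η 0
      · obtain ⟨A, hA, hAv⟩ := hη.2.2
        have h3 : ∀ v, v ∉ A → (E v).indicator (1 : Cfg d → ℝ≥0∞) η = 0 := by
          intro v hv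
          apply Set.indicator_of_notMem
          intro hmem
          exact hv (hAv v hmem.2.2 hmem.2.1)
        rw [tsum_eq_sum (s := A) (fun v hv => h3 v hv)]
        calc ∑ v ∈ A, (E v).indicator (1 : Cfg d → ℝ≥0∞) η ≤ ∑ v ∈ A, 1 := by
              refine Finset.sum_le_sum fun v _ => ?_
              exact Set.indicator_le_self' (fun _ _ => zero_le_one) η
          _ = (A.card : ℝ≥0∞) := by simp
          _ ≤ M := by exact_mod_cast hA
      · have h3 : ∀ v, (E v).indicator (1 : Cfg d → ℝ≥0∞) η = 0 := by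
          intro v
          apply Set.indicator_of_notMem
          intro hmem
          exact hη hmem.1
        simp only [h3, tsum_zero]
        exact zero_le
    calc ∫⁻ η, ∑' v, (E v).indicator (1 : Cfg d → ℝ≥0∞) η ∂μ ≤ ∫⁻ _, (M : ℝ≥0∞) ∂μ :=
          lintegral_mono h2
      _ = M := by simp
  -- `x` sends to `0`
  let F : Vx d → Set (Cfg d) := fun x => {η | FewBoxes r M η x ∧ OpenBox η r 0 ∧ 0 ∈ cluster η x}
  have hF : ∀ x, μ (F x) = μ (E (-x)) := by
    intro x
    rw [← measure_shift h x (hEm (-x))]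
    congr 1
    ext η
    change (FewBoxes r M η x ∧ OpenBox η r 0 ∧ 0 ∈ cluster η x) ↔
      (FewBoxes r M (shift x η) 0 ∧ OpenBox (shift x η) r (-x) ∧ -x ∈ cluster (shift x η) 0)
    rw [boxMtp_few_shift, openBox_shift, boxMtp_cluster_shift, zero_add, neg_add_cancel]
  have hFs : ∑' x, μ (F x) ≠ ∞ := by
    have h1 : ∑' x, μ (F x) = ∑' v, μ (E v) := by
      simp only [hF]
      exact (Equiv.neg (Vx d)).tsum_eq (fun v => μ (E v))
    rw [h1]
    exact ne_top_of_le_ne_top (ENNReal.natCast_ne_top M) hE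
  have hae := ae_finite_setOf_mem hFs
  rw [ae_iff] at hae
  refine measure_mono_null ?_ hae
  intro η hη
  obtain ⟨h1, h2⟩ := hη
  simp only [Set.mem_setOf_eq]
  intro hfin
  have hinf : (cluster η (0 : Vx d)).Infinite := h1.1
  apply hinf
  refine hfin.subset ?_
  intro x hx
  have hcl := boxMtp_cluster_eq η hx
  have hx1 : (0 : Vx d) ∈ cluster η x := by
    rw [hcl]
    exact Relation.ReflTransGen.refl
  refine ⟨?_, h2, hx1⟩
  obtain ⟨a1, a2, a3⟩ := h1
  refine ⟨?_, ?_, ?_⟩
  · unfold InfC
    rw [hcl]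
    exact a1
  · rw [hcl]
    exact a2
  · rw [hcl]
    exact a3

theorem fewBoxes_null {μ : Measure (Cfg d)} [IsProbabilityMeasure μ] (h : TransInv μ)
    (r M : ℕ) (x : Vx d) : μ {η | FewBoxes r M η x} = 0 := by
  have hsub : {η : Cfg d | FewBoxes r M η x} ⊆
      ⋃ v : Vx d, {η | shift v η ∈ {η' : Cfg d | FewBoxes r M η' (0 : Vx d) ∧ OpenBox η' r 0}} := by
    intro η hη
    obtain ⟨a1, ⟨v, hvc, hv⟩, a3⟩ := hη
    rw [Set.mem_iUnion]
    refine ⟨v, ?_⟩
    have hcl := boxMtp_cluster_eq η hvc
    change FewBoxes r M (shift v η) (0 : Vx d) ∧ OpenBox (shift v η) r 0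
    rw [boxMtp_few_shift, openBox_shift, zero_add]
    refine ⟨⟨?_, ?_, ?_⟩, hv⟩
    · unfold InfC
      rw [hcl]
      exact a1
    · rw [hcl]
      exact ⟨v, hvc, hv⟩
    · rw [hcl]
      exact a3
  refine measure_mono_null hsub ?_
  rw [measure_iUnion_null_iff]
  intro v
  exact (measure_shift h v ((boxMtp_meas_few r M (0 : Vx d)).inter (meas_openBox r 0))).trans
    (send_null_box h r M)

end Pool.Agent.MP_f3fa2b_pr
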