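import Pool.Agent.Lib.MP_f3fa2b_pr.FE.Basic

/-!
The walk on `ℤ^d` does not leave a large box.
-/

namespace Pool.Agent.MP_f3fa2b_pr

open Filter Topology

variable {d : ℕ}

/-- Exponential moment of one coordinate: `E exp(s (X_n - x)_i) ≤ exp(s² n / 2)`. -/
theorem exp_moment [NeZero d] (n : ℕ) (x : Vx d) (i : Fin d) (s : ℝ) :
    (walkE (full d) n x fun l => Real.exp (s * ((lst x l i - x i : ℤ) : ℝ))) ≤
      Real.exp (s ^ 2 * n / 2) := by
  induction n generalizing x with
  | zero => simp [walkE, lst]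
  | succ n ih =>
    have hd : (0 : ℝ) < d := Nat.cast_pos.2 (Nat.pos_of_ne_zero (NeZero.ne d))
    simp only [walkE]
    rw [deg_full]
    have hstep : ∀ t : Step d, walkE (full d) n (x + vec t)
        (fun l => Real.exp (s * ((lst x ((x + vec t) :: l) i - x i : ℤ) : ℝ))) ≤
        Real.exp (s * ((vec t i : ℤ) : ℝ)) * Real.exp (s ^ 2 * n / 2) := by
      intro t
      have e : (fun l => Real.exp (s * ((lst x ((x + vec t) :: l) i - x i : ℤ) : ℝ))) =
          fun l => Real.exp (s * ((vec t i : ℤ) : ℝ)) *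
            Real.exp (s * ((lst (x + vec t) l i - (x + vec t) i : ℤ) : ℝ)) := by
        funext l
        rw [← Real.exp_add, lst_cons]
        congr 1
        simp only [Pi.add_apply]
        push_cast
        ring
      rw [e, walkE_mul]
      exact mul_le_mul_of_nonneg_left (ih (x + vec t)) (Real.exp_pos _).le
    have hsum : ∑ t : Step d, Real.exp (s * ((vec t i : ℤ) : ℝ)) ≤
        2 * d * Real.exp (s ^ 2 / 2) := by
      rw [Fintype.sum_prod_type]
      have h1 : ∀ j : Fin d, ∑ b : Bool, Real.exp (s * ((vec (j, b) i : ℤ) : ℝ)) ≤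
          2 * Real.exp (s ^ 2 / 2) := by
        intro j
        rw [Fintype.sum_bool]
        by_cases hj : i = j
        · subst hj
          have h2 := Real.cosh_le_exp_half_sq s
          rw [Real.cosh_eq] at h2
          simp only [vec, ev, if_true, Bool.false_eq_true, if_false, Pi.neg_apply,
            Pi.single_eq_same, Int.cast_one, Int.cast_neg, mul_one, mul_neg]
          linarith
        · have h2 : 1 ≤ Real.exp (s ^ 2 / 2) := Real.one_le_exp (by positivity)
          have h3 : (Pi.single j 1 : Vx d) i = 0 := Pi.single_eq_of_ne hj 1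
          simp only [vec, ev, if_true, Bool.false_eq_true, if_false, Pi.neg_apply, h3,
            Int.cast_zero, neg_zero, mul_zero, Real.exp_zero]
          linarith
      calc _ ≤ ∑ j : Fin d, 2 * Real.exp (s ^ 2 / 2) := Finset.sum_le_sum fun j _ => h1 j
        _ = _ := by
          rw [Finset.sum_const, Finset.card_univ, Fintype.card_fin, nsmul_eq_mul]
          ring
    have h3 : (∑ t : Step d, if full d (bond x t) = true then walkE (full d) n (x + vec t)
        (fun l => Real.exp (s * ((lst x ((x + vec t) :: l) i - x i : ℤ) : ℝ))) else 0) ≤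
        2 * d * Real.exp (s ^ 2 / 2) * Real.exp (s ^ 2 * n / 2) := by
      calc _ ≤ ∑ t : Step d, Real.exp (s * ((vec t i : ℤ) : ℝ)) * Real.exp (s ^ 2 * n / 2) := by
            refine Finset.sum_le_sum fun t _ => ?_
            rw [if_pos (show full d (bond x t) = true from rfl)]
            exact hstep t
        _ = (∑ t : Step d, Real.exp (s * ((vec t i : ℤ) : ℝ))) * Real.exp (s ^ 2 * n / 2) := by
            rw [Finset.sum_mul]
        _ ≤ _ := mul_le_mul_of_nonneg_right hsum (Real.exp_pos _).le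
    rw [div_le_iff₀ (by push_cast; positivity)]
    refine h3.trans_eq ?_
    rw [mul_assoc, ← Real.exp_add]
    push_cast
    rw [show s ^ 2 / 2 + s ^ 2 * (n : ℝ) / 2 = s ^ 2 * ((n : ℝ) + 1) / 2 by ring]
    ring

/-- The walk at time `m ≤ n`. -/
private theorem Exit_walk_take [NeZero d] (m k : ℕ) (x : Vx d) (F : List (Vx d) → ℝ) :
    (walkE (full d) (m + k) x fun l => F (l.take m)) = walkE (full d) m x F := by
  rw [walkE_append]
  refine walkE_congr _ _ _ fun l hl _ => ?_
  have h0 : 0 < deg (full d) (lst x l) := by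
    rw [deg_full]
    have := Nat.pos_of_ne_zero (NeZero.ne d)
    omega
  rw [← walkE_const (full d) k h0 (F l)]
  refine walkE_congr _ _ _ fun l' _ _ => ?_
  rw [← hl, List.take_left']
  rfl

private theorem Exit_walk_sum (η : Cfg d) (n : ℕ) (x : Vx d) {ι : Type*} (t : Finset ι)
    (F : ι → List (Vx d) → ℝ) :
    (walkE η n x fun l => ∑ j ∈ t, F j l) = ∑ j ∈ t, walkE η n x (F j) := by
  obtain ⟨S, w, _, h2⟩ := walkE_eq_sum η n x
  simp only [h2]
  rw [Finset.sum_comm]
  exact Finset.sum_congr rfl fun l _ => Finset.mul_sum _ _ _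

private theorem Exit_lst_take {x : Vx d} {l : List (Vx d)} {k : ℕ} (hk : k < l.length) :
    lst x (l.take (k + 1)) = l[k] := by
  induction l generalizing x k with
  | nil => simp at hk
  | cons y l ih =>
    rw [List.take_succ_cons, lst_cons]
    cases k with
    | zero => rfl
    | succ k =>
      rw [ih (by simpa using hk)]
      rfl

/-- Union bound over the times and the coordinates, `s = ± r / n`. -/
theorem exit_le [NeZero d] (n r : ℕ) (hn : 1 ≤ n) (x : Vx d) :
    (walkE (full d) n x fun l => ind (¬ ∀ u ∈ l, InBox r x u)) ≤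
      2 * d * n * Real.exp (-((r : ℝ) ^ 2 / (2 * n))) := by
  have hn0 : (0 : ℝ) < n := Nat.cast_pos.2 hn
  set θ : ℝ := r / n with hθ
  have hθ0 : 0 ≤ θ := by positivity
  let G : ℝ → Fin d → List (Vx d) → ℝ := fun s i l =>
    Real.exp (s * ((lst x l i - x i : ℤ) : ℝ))
  have hG : ∀ s : ℝ, (s = θ ∨ s = -θ) → ∀ k ∈ Finset.range n, ∀ i : Fin d,
      (walkE (full d) n x fun l => Real.exp (-(θ * r)) * G s i (l.take (k + 1))) ≤
        Real.exp (-((r : ℝ) ^ 2 / (2 * n))) := by
    intro s hs k hk i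
    have hk' : k + 1 ≤ n := Finset.mem_range.1 hk
    have hs2 : s ^ 2 = θ ^ 2 := by
      rcases hs with rfl | rfl
      · rfl
      · ring
    obtain ⟨m, hm⟩ := Nat.exists_eq_add_of_le hk'
    rw [walkE_mul]
    have h1 : (walkE (full d) n x fun l => G s i (l.take (k + 1))) =
        walkE (full d) (k + 1) x (G s i) := by
      rw [hm]
      exact Exit_walk_take (k + 1) m x (G s i)
    rw [h1]
    have h2 : walkE (full d) (k + 1) x (G s i) ≤ Real.exp (s ^ 2 * ((k + 1 : ℕ) : ℝ) / 2) :=
      exp_moment (k + 1) x i s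
    calc _ ≤ Real.exp (-(θ * r)) * Real.exp (s ^ 2 * ((k + 1 : ℕ) : ℝ) / 2) :=
          mul_le_mul_of_nonneg_left h2 (Real.exp_pos _).le
      _ = Real.exp (-(θ * r) + s ^ 2 * ((k + 1 : ℕ) : ℝ) / 2) := (Real.exp_add _ _).symm
      _ ≤ _ := by
        refine Real.exp_le_exp.2 ?_
        rw [hs2]
        have h3 : ((k + 1 : ℕ) : ℝ) ≤ n := Nat.cast_le.2 hk'
        have h4 : θ ^ 2 * ((k + 1 : ℕ) : ℝ) ≤ θ ^ 2 * n :=
          mul_le_mul_of_nonneg_left h3 (sq_nonneg _)
        have h5 : θ ^ 2 * n = (r : ℝ) ^ 2 / n := by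
          rw [hθ]
          field_simp
        have h6 : θ * r = (r : ℝ) ^ 2 / n := by
          rw [hθ]
          ring
        have h7 : (r : ℝ) ^ 2 / (2 * n) = (r : ℝ) ^ 2 / n / 2 := by
          rw [mul_comm, div_div]
        rw [h6, h7]
        linarith
  have hpt : ∀ l : List (Vx d), l.length = n →
      ind (¬ ∀ u ∈ l, InBox r x u) ≤ ∑ k ∈ Finset.range n, ∑ i : Fin d,
        (Real.exp (-(θ * r)) * G θ i (l.take (k + 1)) +
          Real.exp (-(θ * r)) * G (-θ) i (l.take (k + 1))) := by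
    intro l hl
    have hnn : ∀ (k : ℕ) (i : Fin d), 0 ≤ Real.exp (-(θ * r)) * G θ i (l.take (k + 1)) +
          Real.exp (-(θ * r)) * G (-θ) i (l.take (k + 1)) := fun k i => by positivity
    by_cases h : ∀ u ∈ l, InBox r x u
    · have h0 : ind (¬ ∀ u ∈ l, InBox r x u) = 0 := ind_neg (not_not.2 h)
      rw [h0]
      exact Finset.sum_nonneg fun k _ => Finset.sum_nonneg fun i _ => hnn k i
    · have h1 : ind (¬ ∀ u ∈ l, InBox r x u) = 1 := ind_pos h
      rw [h1]
      push Not at h
      obtain ⟨u, hu, hbox⟩ := h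
      unfold InBox at hbox
      push Not at hbox
      obtain ⟨i, hi⟩ := hbox
      obtain ⟨k, hk, rfl⟩ := List.getElem_of_mem hu
      have hkn : k ∈ Finset.range n := Finset.mem_range.2 (hl ▸ hk)
      have hlst := Exit_lst_take (x := x) hk
      have hi' : (r : ℝ) < |((l[k] i - x i : ℤ) : ℝ)| := by
        rw [← Int.cast_abs]
        exact_mod_cast hi
      have hone : 1 ≤ Real.exp (-(θ * r)) * G θ i (l.take (k + 1)) +
          Real.exp (-(θ * r)) * G (-θ) i (l.take (k + 1)) := by
        simp only [G]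
        rw [hlst, ← Real.exp_add, ← Real.exp_add]
        rcases le_or_gt 0 ((l[k] i - x i : ℤ) : ℝ) with hs | hs
        · rw [abs_of_nonneg hs] at hi'
          have := Real.one_le_exp (show 0 ≤ -(θ * r) + θ * ((l[k] i - x i : ℤ) : ℝ) by
            nlinarith)
          have h9 := Real.exp_pos (-(θ * r) + -θ * ((l[k] i - x i : ℤ) : ℝ))
          linarith
        · rw [abs_of_neg hs] at hi'
          have := Real.one_le_exp (show 0 ≤ -(θ * r) + -θ * ((l[k] i - x i : ℤ) : ℝ) by
            nlinarith)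
          have h9 := Real.exp_pos (-(θ * r) + θ * ((l[k] i - x i : ℤ) : ℝ))
          linarith
      calc (1 : ℝ) ≤ _ := hone
        _ ≤ ∑ i : Fin d, (Real.exp (-(θ * r)) * G θ i (l.take (k + 1)) +
          Real.exp (-(θ * r)) * G (-θ) i (l.take (k + 1))) :=
            Finset.single_le_sum (f := fun i => Real.exp (-(θ * r)) * G θ i (l.take (k + 1)) +
              Real.exp (-(θ * r)) * G (-θ) i (l.take (k + 1))) (fun i _ => hnn k i)
              (Finset.mem_univ i)
        _ ≤ _ := Finset.single_le_sum (f := fun k => ∑ i : Fin d,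
              (Real.exp (-(θ * r)) * G θ i (l.take (k + 1)) +
              Real.exp (-(θ * r)) * G (-θ) i (l.take (k + 1))))
              (fun k _ => Finset.sum_nonneg fun i _ => hnn k i) hkn
  calc _ ≤ walkE (full d) n x fun l => ∑ k ∈ Finset.range n, ∑ i : Fin d,
        (Real.exp (-(θ * r)) * G θ i (l.take (k + 1)) +
          Real.exp (-(θ * r)) * G (-θ) i (l.take (k + 1))) :=
        walkE_mono _ _ _ fun l hl _ => hpt l hl
    _ = ∑ k ∈ Finset.range n, ∑ i : Fin d,
        ((walkE (full d) n x fun l => Real.exp (-(θ * r)) * G θ i (l.take (k + 1))) +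
          walkE (full d) n x fun l => Real.exp (-(θ * r)) * G (-θ) i (l.take (k + 1))) := by
        rw [Exit_walk_sum]
        refine Finset.sum_congr rfl fun k _ => ?_
        rw [Exit_walk_sum]
        refine Finset.sum_congr rfl fun i _ => ?_
        exact walkE_add _ _ _ _ _
    _ ≤ ∑ k ∈ Finset.range n, ∑ i : Fin d, (Real.exp (-((r : ℝ) ^ 2 / (2 * n))) +
        Real.exp (-((r : ℝ) ^ 2 / (2 * n)))) :=
        Finset.sum_le_sum fun k hk => Finset.sum_le_sum fun i _ =>
          add_le_add (hG θ (Or.inl rfl) k hk i) (hG (-θ) (Or.inr rfl) k hk i)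
    _ = _ := by
        rw [Finset.sum_const, Finset.sum_const, Finset.card_range, Finset.card_univ,
          Fintype.card_fin, nsmul_eq_mul, nsmul_eq_mul]
        ring

/-- `n = 2 k^4`, `r = k^3`. -/
theorem exit_tendsto (d : ℕ) :
    Tendsto (fun k : ℕ => 2 * d * ((2 * k ^ 4 : ℕ) : ℝ) *
      Real.exp (-(((k ^ 3 : ℕ) : ℝ) ^ 2 / (2 * ((2 * k ^ 4 : ℕ) : ℝ))))) atTop (𝓝 0) := by
  have h1 : Tendsto (fun x : ℝ => x ^ 2 * Real.exp (-x)) atTop (𝓝 0) :=
    Real.tendsto_pow_mul_exp_neg_atTop_nhds_zero 2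
  have h2 : Tendsto (fun k : ℕ => (k : ℝ) ^ 2 / 4) atTop atTop :=
    ((tendsto_pow_atTop two_ne_zero).comp tendsto_natCast_atTop_atTop).atTop_div_const
      (by norm_num)
  have h3 := (h1.comp h2).const_mul (2 * d * 2 * 16 : ℝ)
  rw [mul_zero] at h3
  refine h3.congr' ?_
  filter_upwards [eventually_gt_atTop 0] with k hk
  have hk0 : (0 : ℝ) < k := Nat.cast_pos.2 hk
  simp only [Function.comp_apply]
  push_cast
  have e : ((k : ℝ) ^ 3) ^ 2 / (2 * (2 * (k : ℝ) ^ 4)) = (k : ℝ) ^ 2 / 4 := by
    field_simp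
    ring
  rw [e]
  ring

end Pool.Agent.MP_f3fa2b_pr
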