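import Pool.Agent.Lib.MP_f3fa2b_pr.FE.Defs

/-!
Laws of functions of an i.i.d. field.
-/

namespace Pool.Agent.MP_f3fa2b_pr

open MeasureTheory ProbabilityTheory Filter Topology
open scoped ENNReal

variable {d : ℕ} {Ω : Type*} [MeasurableSpace Ω] {P : Measure Ω} [IsProbabilityMeasure P]

omit [IsProbabilityMeasure P] in
private theorem law_reindex {ω : ℕ → Vx d → Ω → ℝ} (h : IIDField P ω)
    (g : ℕ × Vx d → ℕ × Vx d) (hg : Function.Injective g) :
    IIDField P (fun i y => ω (g (i, y)).1 (g (i, y)).2) where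
  meas i x := h.meas _ _
  indep := h.indep.precomp hg
  ident i x := (h.ident _ _).trans (h.ident _ _).symm
  nonconst := by
    rintro ⟨c, hc⟩
    refine h.nonconst ⟨c, ?_⟩
    exact (h.ident (g (1, 0)).1 (g (1, 0)).2).ae_snd (p := fun r => r = c)
      (measurableSet_singleton c) hc

theorem iid_tsh {ω : ℕ → Vx d → Ω → ℝ} (h : IIDField P ω) (t : ℕ) :
    IIDField P (fun i y => ω (t + i) y) := by
  refine law_reindex h (fun z => (t + z.1, z.2)) ?_
  rintro ⟨i, y⟩ ⟨j, z⟩ hij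
  simp only [Prod.mk.injEq, Nat.add_left_cancel_iff] at hij
  rw [hij.1, hij.2]

theorem iid_ssh {ω : ℕ → Vx d → Ω → ℝ} (h : IIDField P ω) (x : Vx d) :
    IIDField P (fun i y => ω i (y + x)) := by
  refine law_reindex h (fun z => (z.1, z.2 + x)) ?_
  rintro ⟨i, y⟩ ⟨j, z⟩ hij
  simp only [Prod.mk.injEq, add_left_inj] at hij
  rw [hij.1, hij.2]

/-- The law of a function of the field depends only on the law of one site. -/
theorem law_eq {ω ω' : ℕ → Vx d → Ω → ℝ} (h : IIDField P ω) (h' : IIDField P ω')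
    (he : IdentDistrib (ω 1 0) (ω' 1 0) P P) {Φ : Env d → ℝ} (hΦ : Measurable Φ) :
    IdentDistrib (fun a => Φ (ev0 ω a)) (fun a => Φ (ev0 ω' a)) P P := by
  have hm : ∀ {ω : ℕ → Vx d → Ω → ℝ}, IIDField P ω →
      Measurable (fun (a : Ω) (z : ℕ × Vx d) => ω z.1 z.2 a) := fun h =>
    measurable_pi_iff.2 fun z => h.meas z.1 z.2
  have hJ : IdentDistrib (fun (a : Ω) (z : ℕ × Vx d) => ω z.1 z.2 a)
      (fun (a : Ω) (z : ℕ × Vx d) => ω' z.1 z.2 a) P P := by
    refine ⟨(hm h).aemeasurable, (hm h').aemeasurable, ?_⟩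
    have e1 : P.map (fun (a : Ω) (z : ℕ × Vx d) => ω z.1 z.2 a) =
        Measure.infinitePi (fun _ : ℕ × Vx d => P.map (ω 1 0)) := by
      rw [iIndepFun.map_fun_eq_infinitePi_map (X := fun z : ℕ × Vx d => ω z.1 z.2)
        (fun z => h.meas z.1 z.2) h.indep]
      congr 1
      funext z
      exact (h.ident z.1 z.2).map_eq
    have e2 : P.map (fun (a : Ω) (z : ℕ × Vx d) => ω' z.1 z.2 a) =
        Measure.infinitePi (fun _ : ℕ × Vx d => P.map (ω' 1 0)) := by
      rw [iIndepFun.map_fun_eq_infinitePi_map (X := fun z : ℕ × Vx d => ω' z.1 z.2)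
        (fun z => h'.meas z.1 z.2) h'.indep]
      congr 1
      funext z
      exact (h'.ident z.1 z.2).map_eq
    rw [e1, e2, he.map_eq]
  have hc : Measurable (fun (f : ℕ × Vx d → ℝ) (i : ℕ) (y : Vx d) => f (i, y)) :=
    measurable_pi_iff.2 fun i => measurable_pi_iff.2 fun y => measurable_pi_apply (i, y)
  exact hJ.comp (hΦ.comp hc)

theorem law_tsh {ω : ℕ → Vx d → Ω → ℝ} (h : IIDField P ω) (t : ℕ) {Φ : Env d → ℝ}
    (hΦ : Measurable Φ) :
    IdentDistrib (fun a => Φ (tsh t (ev0 ω a))) (fun a => Φ (ev0 ω a)) P P :=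
  law_eq (iid_tsh h t) h (h.ident (t + 1) 0) hΦ

theorem law_ssh {ω : ℕ → Vx d → Ω → ℝ} (h : IIDField P ω) (x : Vx d) {Φ : Env d → ℝ}
    (hΦ : Measurable Φ) :
    IdentDistrib (fun a => Φ (ssh x (ev0 ω a))) (fun a => Φ (ev0 ω a)) P P :=
  law_eq (iid_ssh h x) h (h.ident 1 (0 + x)) hΦ

omit [MeasurableSpace Ω] in
private theorem law_win_meas [MeasurableSpace Ω] {ω : ℕ → Vx d → Ω → ℝ} {Φ : Env d → ℝ}
    (hΦ : Measurable Φ) {S : Set ℕ} (hω : ∀ i ∈ S, ∀ y, Measurable (ω i y))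
    (hS : ∀ w w' : Env d, (∀ i ∈ S, w i = w' i) → Φ w = Φ w') :
    Measurable (fun a => Φ (ev0 ω a)) := by
  classical
  have e : (fun a => Φ (ev0 ω a)) =
      Φ ∘ fun (a : Ω) (i : ℕ) (y : Vx d) => if i ∈ S then ω i y a else 0 := by
    funext a
    refine hS _ _ fun i hi => ?_
    funext y
    simp only [ev0, if_pos hi]
  rw [e]
  refine hΦ.comp ?_
  refine measurable_pi_iff.2 fun i => measurable_pi_iff.2 fun y => ?_
  by_cases hi : i ∈ S
  · simp only [if_pos hi]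
    exact hω i hi y
  · simp only [if_neg hi]
    exact measurable_const

omit [MeasurableSpace Ω] in
/-- A function of the times in `S` is measurable for the sites with times in `S`. -/
private theorem law_win_le {ω : ℕ → Vx d → Ω → ℝ} {Φ : Env d → ℝ}
    (hΦ : Measurable Φ) {S : Set ℕ}
    (hS : ∀ w w' : Env d, (∀ i ∈ S, w i = w' i) → Φ w = Φ w') :
    MeasurableSpace.comap (fun a => Φ (ev0 ω a)) inferInstance ≤
      ⨆ z ∈ {z : ℕ × Vx d | z.1 ∈ S},
        MeasurableSpace.comap (ω z.1 z.2) inferInstance := by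
  let m0 : MeasurableSpace Ω := ⨆ z ∈ {z : ℕ × Vx d | z.1 ∈ S},
        MeasurableSpace.comap (ω z.1 z.2) inferInstance
  have h1 : Measurable (fun a => Φ (ev0 ω a)) := by
    refine law_win_meas hΦ (fun i hi y => ?_) hS
    rw [measurable_iff_comap_le]
    exact le_iSup₂_of_le (f := fun (z : ℕ × Vx d) (_ : z ∈ {z : ℕ × Vx d | z.1 ∈ S}) =>
      MeasurableSpace.comap (ω z.1 z.2) inferInstance) (i, y) hi le_rfl
  exact measurable_iff_comap_le.1 h1

/-- Functions of disjoint sets of times are independent. -/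
theorem indep_win {ω : ℕ → Vx d → Ω → ℝ} (h : IIDField P ω) {Φ Ψ : Env d → ℝ}
    (hΦ : Measurable Φ) (hΨ : Measurable Ψ) {S T : Set ℕ} (hST : Disjoint S T)
    (hS : ∀ w w' : Env d, (∀ i ∈ S, w i = w' i) → Φ w = Φ w')
    (hT : ∀ w w' : Env d, (∀ i ∈ T, w i = w' i) → Ψ w = Ψ w') :
    IndepFun (fun a => Φ (ev0 ω a)) (fun a => Ψ (ev0 ω a)) P := by
  rw [IndepFun_iff_Indep]
  have hd : Disjoint {z : ℕ × Vx d | z.1 ∈ S} {z : ℕ × Vx d | z.1 ∈ T} := by
    rw [Set.disjoint_left] at hST ⊢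
    intro z hz hz'
    exact hST hz hz'
  have h1 := indep_iSup_of_disjoint (fun z : ℕ × Vx d => (h.meas z.1 z.2).comap_le) h.indep hd
  exact indep_of_indep_of_le_left (indep_of_indep_of_le_right h1 (law_win_le hΨ hT))
    (law_win_le hΦ hS)

end Pool.Agent.MP_f3fa2b_pr
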