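import Pool.Agent.Lib.MP_f3fa2b_pr.FE.Pos
import Pool.Agent.Lib.MP_f3fa2b_pr.FE.Exit
import Pool.Agent.Lib.MP_f3fa2b_pr.FE.Law

/-!
The confined partition function is bounded below with large probability.
-/

namespace Pool.Agent.MP_f3fa2b_pr

open MeasureTheory ProbabilityTheory Filter Topology
open scoped ENNReal

variable {d : ℕ} {Ω : Type*} [MeasurableSpace Ω] {P : Measure Ω} [IsProbabilityMeasure P]

omit [IsProbabilityMeasure P] in
private theorem conf_meas_ev0 {ω : ℕ → Vx d → Ω → ℝ} (h : IIDField P ω) :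
    Measurable fun a => ev0 ω a :=
  measurable_pi_iff.2 fun i => measurable_pi_iff.2 fun y => h.meas i y

/-- The expected weight of the paths which leave the box. -/
private theorem conf_rest {ω : ℕ → Vx d → Ω → ℝ} (h : IIDField P ω) {β : ℝ}
    (hi : Integrable (fun a => Real.exp (β * ω 1 0 a)) P) (n r : ℕ) :
    Integrable (fun a => walkE (full d) n 0 fun l =>
      ind (¬ ∀ u ∈ l, InBox r 0 u) * wd β (cgf (ω 1 0) P β) (ev0 ω a) l) P ∧
    (∫ a, walkE (full d) n 0 (fun l =>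
      ind (¬ ∀ u ∈ l, InBox r 0 u) * wd β (cgf (ω 1 0) P β) (ev0 ω a) l) ∂P) =
      walkE (full d) n 0 fun l => ind (¬ ∀ u ∈ l, InBox r 0 u) := by
  obtain ⟨S, w, hS, hF⟩ := walkE_eq_sum (full d) n (0 : Vx d)
  simp only [hF]
  have h2 : ∀ l ∈ S, Integrable (fun a => w l * (ind (¬ ∀ u ∈ l, InBox r 0 u) *
      wd β (cgf (ω 1 0) P β) (ev0 ω a) l)) P := fun l _ =>
    ((wt_int h hi l).1.const_mul _).const_mul _
  refine ⟨integrable_finsetSum _ h2, ?_⟩
  rw [integral_finsetSum _ h2]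
  refine Finset.sum_congr rfl fun l _ => ?_
  rw [integral_const_mul, integral_const_mul]
  have h3 : ∫ a, wd β (cgf (ω 1 0) P β) (ev0 ω a) l ∂P = 1 := (wt_int h hi l).2
  rw [h3, mul_one]

private theorem conf_split (β lam : ℝ) (w : Env d) (n r : ℕ) :
    W (full d) β lam w n = Zc β lam w n r 0 + walkE (full d) n 0 fun l =>
      ind (¬ ∀ u ∈ l, InBox r 0 u) * wd β lam w l := by
  rw [W_eq_wd, Zc, ← walkE_add]
  refine walkE_congr _ _ _ fun l _ _ => ?_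
  rw [ind_not]
  ring

/-- `E (W_n - Zc) = P(exit)`; Markov; the law of `Zc` does not depend on the centre. -/
theorem Zc_pos [NeZero d] {ω : ℕ → Vx d → Ω → ℝ} (h : IIDField P ω) {β : ℝ}
    (hi : Integrable (fun a => Real.exp (β * ω 1 0 a)) P) (hw : WeakZd P ω β) {ρ : ℝ}
    (hρ : 0 < ρ) :
    ∃ δ : ℝ, 0 < δ ∧ δ ≤ 1 ∧ ∃ N : ℕ, ∀ k ≥ N, ∀ x : Vx d,
      P.real {a | Zc β (cgf (ω 1 0) P β) (ev0 ω a) (2 * k ^ 4) (k ^ 3) x < δ} ≤ ρ := by
  obtain ⟨lam, hlam⟩ : ∃ lam : ℝ, lam = cgf (ω 1 0) P β := ⟨_, rfl⟩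
  obtain ⟨δ, hδ, hδ1, N, hN⟩ := W_pos h hi hw (half_pos hρ)
  have hε : 0 < δ / 2 * (ρ / 2) := by positivity
  obtain ⟨N', hN'⟩ := eventually_atTop.1 ((tendsto_order.1 (exit_tendsto d)).2 _ hε)
  refine ⟨δ / 2, half_pos hδ, by linarith, max (max N N') 1, fun k hk x => ?_⟩
  have hk1 : 1 ≤ k := le_trans (le_max_right _ _) hk
  have hkN : N ≤ k := le_trans (le_trans (le_max_left _ _) (le_max_left _ _)) hk
  have hkN' : N' ≤ k := le_trans (le_trans (le_max_right _ _) (le_max_left _ _)) hk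
  have hk4 : k ≤ 2 * k ^ 4 := by
    calc k = k ^ 1 := (pow_one k).symm
      _ ≤ k ^ 4 := Nat.pow_le_pow_right hk1 (by norm_num)
      _ ≤ 2 * k ^ 4 := by omega
  obtain ⟨n, hn⟩ : ∃ n, n = 2 * k ^ 4 := ⟨_, rfl⟩
  obtain ⟨r, hr⟩ : ∃ r, r = k ^ 3 := ⟨_, rfl⟩
  have hn1 : 1 ≤ n := by rw [hn]; omega
  have hex := hN' k hkN'
  have hle := exit_le n r hn1 (0 : Vx d)
  rw [← hn, ← hr] at hex ⊢
  rw [← hlam]
  have hWn := hN n (by rw [hn]; omega)
  rw [← hlam] at hWn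
  -- the law does not depend on the centre
  have hx : P.real {a | Zc β lam (ev0 ω a) n r x < δ / 2} =
      P.real {a | Zc β lam (ev0 ω a) n r 0 < δ / 2} := by
    have h1 := law_ssh h x (Φ := fun w => Zc β lam w n r 0) (meas_Zc β lam n r 0)
    have h2 := h1.measure_mem_eq (measurableSet_Iio (a := δ / 2))
    have e : {a | Zc β lam (ev0 ω a) n r x < δ / 2} =
        (fun a => Zc β lam (ssh x (ev0 ω a)) n r 0) ⁻¹' Set.Iio (δ / 2) := by
      ext a
      rw [Set.mem_setOf_eq, Zc_ssh]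
      rfl
    rw [e]
    exact congrArg ENNReal.toReal h2
  rw [hx]
  obtain ⟨R, hR⟩ : ∃ R : Ω → ℝ, R = fun a => walkE (full d) n 0 fun l =>
      ind (¬ ∀ u ∈ l, InBox r 0 u) * wd β lam (ev0 ω a) l := ⟨_, rfl⟩
  have hrest := conf_rest h hi n r
  rw [← hlam, ← hR] at hrest
  have hR0 : ∀ a, 0 ≤ R a := fun a => by
    rw [hR]
    exact walkE_nonneg _ _ _ fun l => mul_nonneg (ind_nonneg _) (wd_pos β lam _ l).le
  have hsub : {a | Zc β lam (ev0 ω a) n r 0 < δ / 2} ⊆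
      {a | W (full d) β lam (ev0 ω a) n < δ} ∪ {a | δ / 2 ≤ R a} := by
    intro a ha
    have ha' : Zc β lam (ev0 ω a) n r 0 < δ / 2 := ha
    by_cases hb : δ / 2 ≤ R a
    · exact Or.inr hb
    · left
      show W (full d) β lam (ev0 ω a) n < δ
      rw [conf_split β lam (ev0 ω a) n r]
      have e : R a = walkE (full d) n 0 fun l =>
        ind (¬ ∀ u ∈ l, InBox r 0 u) * wd β lam (ev0 ω a) l := by rw [hR]
      rw [← e]
      linarith [not_le.1 hb]
  have hmk : P.real {a | δ / 2 ≤ R a} ≤ ρ / 2 := by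
    have h1 := mul_meas_ge_le_integral_of_nonneg (ae_of_all _ hR0) hrest.1 (δ / 2)
    rw [hrest.2] at h1
    have h2 : δ / 2 * P.real {a | δ / 2 ≤ R a} < δ / 2 * (ρ / 2) :=
      lt_of_le_of_lt (h1.trans hle) hex
    exact (lt_of_mul_lt_mul_left h2 (half_pos hδ).le).le
  calc P.real {a | Zc β lam (ev0 ω a) n r 0 < δ / 2}
      ≤ P.real ({a | W (full d) β lam (ev0 ω a) n < δ} ∪ {a | δ / 2 ≤ R a}) :=
        measureReal_mono hsub
    _ ≤ P.real {a | W (full d) β lam (ev0 ω a) n < δ} + P.real {a | δ / 2 ≤ R a} :=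
        measureReal_union_le _ _
    _ ≤ ρ / 2 + ρ / 2 := add_le_add hWn hmk
    _ = ρ := add_halves ρ

end Pool.Agent.MP_f3fa2b_pr
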