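import Pool.Agent.Lib.MP_f3fa2b_pr.Path
import Pool.Agent.Lib.MP_f3fa2b_pr.Prod

/-!
Free energy: definitions.
-/

namespace Pool.Agent.MP_f3fa2b_pr

open MeasureTheory ProbabilityTheory Filter Topology
open scoped ENNReal

variable {d : ℕ}

/-- The configuration in which all bonds are open, that is, `ℤ^d` itself. -/
def full (d : ℕ) : Cfg d := fun _ => true

/-- Environments. -/
abbrev Env (d : ℕ) := ℕ → Vx d → ℝ

/-- Time shift. -/
def tsh (t : ℕ) (w : Env d) : Env d := fun i y => w (t + i) y

/-- Space shift. -/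
def ssh (x : Vx d) (w : Env d) : Env d := fun i y => w i (y + x)

/-- The environment of a field at the sample point `a`. -/
def ev0 {Ω : Type*} (ω : ℕ → Vx d → Ω → ℝ) (a : Ω) : Env d := fun i y => ω i y a

/-- Weight of a path. -/
noncomputable def wd (β lam : ℝ) (w : Env d) (l : List (Vx d)) : ℝ :=
  Real.exp ((l.mapIdx fun i y => β * w (i + 1) y - lam).sum)

theorem W_eq_wd (η : Cfg d) (β lam : ℝ) (w : Env d) (n : ℕ) :
    W η β lam w n = walkE η n 0 fun l => wd β lam w l := rfl

theorem wt_eq_wd {Ω : Type*} (β lam : ℝ) (ω : ℕ → Vx d → Ω → ℝ) (l : List (Vx d)) (a : Ω) :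
    wt β lam ω l a = wd β lam (ev0 ω a) l := rfl

/-- `y` lies in the box of radius `r` around `x`. -/
def InBox (r : ℕ) (x y : Vx d) : Prop := ∀ i, |y i - x i| ≤ r

/-- All bonds at the vertices of the box around `x` are open. -/
def OpenBox (η : Cfg d) (r : ℕ) (x : Vx d) : Prop :=
  ∀ y, InBox r x y → ∀ s : Step d, η (bond y s) = true

/-- The vertices of the box. -/
noncomputable def Bx (r : ℕ) (x : Vx d) : Finset (Vx d) :=
  Fintype.piFinset fun i => Finset.Icc (x i - r) (x i + r)

/-- The vertices of the box at even distance from the centre. -/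
noncomputable def Evb (r : ℕ) (x : Vx d) : Finset (Vx d) := by
  classical exact (Bx r x).filter fun y => Even (∑ i, (y i - x i))

/-- Partition function of the paths of length `n` of `ℤ^d` which stay in the box. -/
noncomputable def Zc (β lam : ℝ) (w : Env d) (n r : ℕ) (x : Vx d) : ℝ :=
  walkE (full d) n x fun l => ind (∀ u ∈ l, InBox r x u) * wd β lam w l

/-- Partition function of the paths of length `n` of `ℤ^d` which stay in the box and end at `y`. -/
noncomputable def Zy (β lam : ℝ) (w : Env d) (n r : ℕ) (x y : Vx d) : ℝ :=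
  walkE (full d) n x fun l => ind ((∀ u ∈ l, InBox r x u) ∧ lst x l = y) * wd β lam w l

/-- Block: paths from `x` to `x`. -/
noncomputable def Bl (β lam : ℝ) (w : Env d) (n r : ℕ) (x : Vx d) : ℝ := Zy β lam w n r x x

/-- Weight of a single path, with its probability. -/
noncomputable def pw (d : ℕ) (β lam : ℝ) (w : Env d) (l : List (Vx d)) : ℝ :=
  (1 / (2 * d) : ℝ) ^ l.length * wd β lam w l

/-- The polymer on `ℤ^d` is not in strong disorder. -/
def WeakZd {Ω : Type*} [MeasurableSpace Ω] (P : Measure Ω) (ω : ℕ → Vx d → Ω → ℝ) (β : ℝ) : Prop :=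
  ¬ ∀ᵐ a ∂P, Tendsto (fun n => W (full d) β (cgf (ω 1 0) P β) (fun i y => ω i y a) n) atTop (𝓝 0)

/-- Number of meetings of two paths. -/
def coin : List (Vx d) → List (Vx d) → ℕ
  | y :: l, y' :: l' => (if y = y' then 1 else 0) + coin l l'
  | _, _ => 0

end Pool.Agent.MP_f3fa2b_pr
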