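import Pool.Agent.Lib.MP_f3fa2b_pr.FE.Blk
import Pool.Agent.Lib.MP_f3fa2b_pr.FE.Law

/-!
Expectation of the logarithm of a block, good part.
-/

namespace Pool.Agent.MP_f3fa2b_pr

open MeasureTheory ProbabilityTheory Filter Topology
open scoped ENNReal

variable {d : ℕ} {Ω : Type*} [MeasurableSpace Ω] {P : Measure Ω} [IsProbabilityMeasure P]

/-- `C₀ = log (2 d) + |λ| + |β| E|ω|`: one step of a fixed path costs at most `C₀` on average. -/
noncomputable def C0 (d : ℕ) (P : Measure Ω) (X : Ω → ℝ) (β lam : ℝ) : ℝ :=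
  Real.log (2 * d) + |lam| + |β| * ∫ a, |X a| ∂P

private theorem good_log [NeZero d] (β lam : ℝ) (w : Env d) (l : List (Vx d)) :
    Real.log (pw d β lam w l) =
      (l.mapIdx fun i y => β * w (i + 1) y - (lam + Real.log (2 * d))).sum := by
  have hd : (0 : ℝ) < 2 * d := by
    have : (0 : ℝ) < d := Nat.cast_pos.2 (NeZero.pos d)
    linarith
  have hs : ∀ (f : ℕ → Vx d → ℝ) (c : ℝ) (l : List (Vx d)),
      (l.mapIdx fun i y => f i y - c).sum = (l.mapIdx f).sum - l.length * c := by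
    intro f c l
    induction l generalizing f with
    | nil => simp
    | cons x l ih =>
      simp only [List.mapIdx_cons, List.sum_cons, List.length_cons]
      rw [ih fun i => f (i + 1)]
      push_cast
      ring
  unfold pw wd
  rw [Real.log_mul (by positivity) (Real.exp_pos _).ne', Real.log_exp, Real.log_pow, one_div,
    Real.log_inv]
  have h1 := hs (fun i y => β * w (i + 1) y) lam l
  have h2 := hs (fun i y => β * w (i + 1) y) (lam + Real.log (2 * d)) l
  rw [h1, h2]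
  ring

/-- Sums along a path. -/
private theorem good_sum {f : ℕ → Vx d → Ω → ℝ} {C : ℝ}
    (hf : ∀ i y, Integrable (f i y) P) (hC : ∀ i y, ∫ a, |f i y a| ∂P ≤ C)
    (l : List (Vx d)) :
    Integrable (fun a => (l.mapIdx fun i y => f i y a).sum) P ∧
      ∫ a, |(l.mapIdx fun i y => f i y a).sum| ∂P ≤ l.length * C := by
  induction l generalizing f with
  | nil => simp
  | cons x l ih =>
    obtain ⟨h1, h2⟩ := ih (f := fun i => f (i + 1)) (fun i y => hf _ _) (fun i y => hC _ _)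
    simp only [List.mapIdx_cons, List.sum_cons, List.length_cons]
    refine ⟨(hf 0 x).add h1, ?_⟩
    have h3 := hC 0 x
    have h4 : ∫ a, |f 0 x a + (l.mapIdx fun i y => f (i + 1) y a).sum| ∂P ≤
        ∫ a, (|f 0 x a| + |(l.mapIdx fun i y => f (i + 1) y a).sum|) ∂P := by
      refine integral_mono ((hf 0 x).add h1).abs ((hf 0 x).abs.add h1.abs) fun a => ?_
      exact abs_add_le _ _
    rw [integral_add (hf 0 x).abs h1.abs] at h4
    push_cast
    linarith

theorem pw_log_int [NeZero d] {ω : ℕ → Vx d → Ω → ℝ} (h : IIDField P ω)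
    (hω : Integrable (ω 1 0) P) (β lam : ℝ) (n : ℕ) (l : List (Vx d)) :
    Integrable (fun a => Real.log (pw d β lam (tsh n (ev0 ω a)) l)) P ∧
      ∫ a, |Real.log (pw d β lam (tsh n (ev0 ω a)) l)| ∂P ≤ l.length * C0 d P (ω 1 0) β lam := by
  have hint : ∀ i y, Integrable (ω i y) P := fun i y => (h.ident i y).integrable_iff.2 hω
  have habs : ∀ i y, ∫ a, |ω i y a| ∂P = ∫ a, |ω 1 0 a| ∂P := fun i y =>
    ((h.ident i y).comp measurable_abs).integral_eq
  have hd : (0 : ℝ) ≤ Real.log (2 * d) := by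
    apply Real.log_nonneg
    have : (1 : ℝ) ≤ d := by exact_mod_cast NeZero.pos d
    linarith
  have key := good_sum (P := P) (C := C0 d P (ω 1 0) β lam)
    (f := fun i y a => β * ω (n + (i + 1)) y a - (lam + Real.log (2 * d)))
    (fun i y => ((hint (n + (i + 1)) y).const_mul β).sub (integrable_const _)) (fun i y => ?_) l
  · have e : ∀ a, Real.log (pw d β lam (tsh n (ev0 ω a)) l) =
        (l.mapIdx fun i y => β * ω (n + (i + 1)) y a - (lam + Real.log (2 * d))).sum := fun a =>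
      good_log β lam (tsh n (ev0 ω a)) l
    simp only [e]
    exact key
  · have hI := hint (n + (i + 1)) y
    have h1 : ∫ a, |β * ω (n + (i + 1)) y a - (lam + Real.log (2 * d))| ∂P ≤
        ∫ a, (|β| * |ω (n + (i + 1)) y a| + (|lam| + Real.log (2 * d))) ∂P := by
      refine integral_mono ((hI.const_mul β).sub (integrable_const _)).abs
        ((hI.abs.const_mul _).add (integrable_const _)) fun a => ?_
      simp only
      rw [← abs_mul]
      have h2 := abs_sub (β * ω (n + (i + 1)) y a) (lam + Real.log (2 * d))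
      have h3 := abs_add_le lam (Real.log (2 * d))
      rw [abs_of_nonneg hd] at h3
      linarith
    rw [integral_add (hI.abs.const_mul _) (integrable_const _), integral_const_mul, habs,
      integral_const] at h1
    simp only [probReal_univ, one_smul] at h1
    unfold C0
    linarith

omit [IsProbabilityMeasure P] in
private theorem good_meas_ev0 {ω : ℕ → Vx d → Ω → ℝ} (h : IIDField P ω) :
    Measurable fun a => ev0 ω a := by
  refine measurable_pi_lambda _ fun i => measurable_pi_lambda _ fun y => ?_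
  exact h.meas i y

private theorem good_meas_tsh (n : ℕ) : Measurable fun w : Env d => tsh n w := by
  refine measurable_pi_lambda _ fun i => measurable_pi_lambda _ fun y => ?_
  exact (measurable_pi_apply y).comp (measurable_pi_apply (n + i))

private theorem good_meas_pw (β lam : ℝ) (n : ℕ) (l : List (Vx d)) :
    Measurable fun w : Env d => Real.log (pw d β lam (tsh n w) l) := by
  have h1 : Measurable fun w : Env d => wd β lam (tsh n w) l :=
    (meas_wd β lam l).comp (good_meas_tsh n)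
  exact Real.measurable_log.comp (h1.const_mul _)

private theorem good_meas_ind {f : Env d → ℝ} (hf : Measurable f) (δ : ℝ) :
    Measurable fun w : Env d => ind (δ ≤ f w) := by
  classical
  have : (fun w : Env d => ind (δ ≤ f w)) = fun w => if δ ≤ f w then (1 : ℝ) else 0 := by
    funext w
    by_cases hw : δ ≤ f w
    · rw [ind_pos hw, if_pos hw]
    · rw [ind_neg hw, if_neg hw]
  rw [this]
  exact Measurable.ite (measurableSet_le measurable_const hf) measurable_const measurable_const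

/-- The weights `1(δ ≤ Zc) Zy / Zc` depend on the times `1, ..., n`, the paths `ret y` on the times
`n + 1, ..., n + m`: independence. -/
theorem good_part [NeZero d] {ω : ℕ → Vx d → Ω → ℝ} (h : IIDField P ω)
    (hω : Integrable (ω 1 0) P) (β lam : ℝ) {n m r : ℕ} (hn : Even n) (x : Vx d)
    {ret : Vx d → List (Vx d)} (hr : ∀ y ∈ Evb r x, (ret y).length = m) {δ : ℝ} (hδ : 0 < δ)
    (hδ1 : δ ≤ 1) :
    Integrable (fun a => ind (δ ≤ Zc β lam (ev0 ω a) n r x) * (Real.log δ +
        ∑ y ∈ Evb r x, Zy β lam (ev0 ω a) n r x y / Zc β lam (ev0 ω a) n r x *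
          Real.log (pw d β lam (tsh n (ev0 ω a)) (ret y)))) P ∧
      Real.log δ - m * C0 d P (ω 1 0) β lam ≤
        ∫ a, ind (δ ≤ Zc β lam (ev0 ω a) n r x) * (Real.log δ +
          ∑ y ∈ Evb r x, Zy β lam (ev0 ω a) n r x y / Zc β lam (ev0 ω a) n r x *
            Real.log (pw d β lam (tsh n (ev0 ω a)) (ret y))) ∂P := by
  classical
  -- the weights
  obtain ⟨Φ, hΦ⟩ : ∃ Φ : Vx d → Env d → ℝ, Φ = fun y w =>
      ind (δ ≤ Zc β lam w n r x) * (Zy β lam w n r x y / Zc β lam w n r x) := ⟨_, rfl⟩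
  obtain ⟨Ψ, hΨ⟩ : ∃ Ψ : Vx d → Env d → ℝ, Ψ = fun y w =>
      Real.log (pw d β lam (tsh n w) (ret y)) := ⟨_, rfl⟩
  obtain ⟨J, hJ⟩ : ∃ J : Env d → ℝ, J = fun w => ind (δ ≤ Zc β lam w n r x) := ⟨_, rfl⟩
  obtain ⟨C, hC⟩ : ∃ C, C = C0 d P (ω 1 0) β lam := ⟨_, rfl⟩
  have hJm : Measurable J := by
    rw [hJ]
    exact good_meas_ind (meas_Zc β lam n r x) δ
  have hΦm : ∀ y, Measurable (Φ y) := by
    intro y
    rw [hΦ]
    exact (good_meas_ind (meas_Zc β lam n r x) δ).mul
      ((meas_Zy β lam n r x y).div (meas_Zc β lam n r x))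
  have hΨm : ∀ y, Measurable (Ψ y) := by
    intro y
    rw [hΨ]
    exact good_meas_pw β lam n (ret y)
  have hJ0 : ∀ w, 0 ≤ J w := fun w => by rw [hJ]; exact ind_nonneg _
  have hJ1 : ∀ w, J w ≤ 1 := fun w => by rw [hJ]; exact ind_le_one _
  have hΦ0 : ∀ y w, 0 ≤ Φ y w := by
    intro y w
    rw [hΦ]
    exact mul_nonneg (ind_nonneg _) (div_nonneg (Zy_nonneg _ _ _ _ _ _ _) (Zc_nonneg _ _ _ _ _ _))
  have hΦs : ∀ w, ∑ y ∈ Evb r x, Φ y w ≤ 1 := by
    intro w
    rw [hΦ]
    simp only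
    rw [← Finset.mul_sum, ← Finset.sum_div, ← Zc_eq_sum β lam w hn x]
    by_cases hw : δ ≤ Zc β lam w n r x
    · rw [ind_pos hw, one_mul, div_self (lt_of_lt_of_le hδ hw).ne']
    · rw [ind_neg hw, zero_mul]
      exact zero_le_one
  have hΦ1 : ∀ y ∈ Evb r x, ∀ w, Φ y w ≤ 1 := by
    intro y hy w
    exact (Finset.single_le_sum (f := fun y => Φ y w) (fun z _ => hΦ0 z w) hy).trans (hΦs w)
  have hev := good_meas_ev0 h
  have hJi : Integrable (fun a => J (ev0 ω a)) P := by
    refine Integrable.mono' (integrable_const (1 : ℝ)) (hJm.comp hev).aestronglyMeasurable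
      (Eventually.of_forall fun a => ?_)
    rw [Real.norm_eq_abs, abs_of_nonneg (hJ0 _)]
    exact hJ1 _
  have hΦi : ∀ y ∈ Evb r x, Integrable (fun a => Φ y (ev0 ω a)) P := by
    intro y hy
    refine Integrable.mono' (integrable_const (1 : ℝ)) ((hΦm y).comp hev).aestronglyMeasurable
      (Eventually.of_forall fun a => ?_)
    rw [Real.norm_eq_abs, abs_of_nonneg (hΦ0 _ _)]
    exact hΦ1 y hy _
  have hΨi : ∀ y, Integrable (fun a => Ψ y (ev0 ω a)) P := by
    intro y
    rw [hΨ]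
    exact (pw_log_int h hω β lam n (ret y)).1
  have hΨb : ∀ y ∈ Evb r x, -(m * C) ≤ ∫ a, Ψ y (ev0 ω a) ∂P := by
    intro y hy
    have h1 := (pw_log_int h hω β lam n (ret y)).2
    rw [hr y hy, ← hC] at h1
    have h2 : |∫ a, Ψ y (ev0 ω a) ∂P| ≤ ∫ a, |Ψ y (ev0 ω a)| ∂P := abs_integral_le_integral_abs
    rw [hΨ] at h2 ⊢
    simp only at h2 ⊢
    have h3 := neg_abs_le (∫ a, Real.log (pw d β lam (tsh n (ev0 ω a)) (ret y)) ∂P)
    linarith
  have hind : ∀ y, IndepFun (fun a => Φ y (ev0 ω a)) (fun a => Ψ y (ev0 ω a)) P := by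
    intro y
    refine indep_win h (hΦm y) (hΨm y) (S := {i | 1 ≤ i ∧ i ≤ n}) (T := {i | n + 1 ≤ i}) ?_ ?_ ?_
    · rw [Set.disjoint_left]
      intro i hi hi'
      simp only [Set.mem_ofPred_eq] at hi hi'
      omega
    · intro w w' hw
      have hw1 : ∀ i, 1 ≤ i → i ≤ n → w i = w' i := fun i h1 h2 => hw i ⟨h1, h2⟩
      rw [hΦ]
      simp only
      rw [Zc_congr β lam n r x hw1, Zy_congr β lam n r x y hw1]
    · intro w w' hw
      rw [hΨ]
      simp only
      have e : wd β lam (tsh n w) (ret y) = wd β lam (tsh n w') (ret y) := by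
        refine wd_congr β lam _ fun i h1 _ => ?_
        funext z
        unfold tsh
        rw [hw (n + i) (show n + 1 ≤ n + i by omega)]
      unfold pw
      rw [e]
  have hprod : ∀ y ∈ Evb r x, Integrable (fun a => Φ y (ev0 ω a) * Ψ y (ev0 ω a)) P := by
    intro y hy
    exact (hind y).integrable_mul (hΦi y hy) (hΨi y)
  have hEprod : ∀ y ∈ Evb r x, ∫ a, Φ y (ev0 ω a) * Ψ y (ev0 ω a) ∂P =
      (∫ a, Φ y (ev0 ω a) ∂P) * ∫ a, Ψ y (ev0 ω a) ∂P := by
    intro y hy
    exact (hind y).integral_mul_eq_mul_integral (hΦi y hy).aestronglyMeasurable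
      (hΨi y).aestronglyMeasurable
  have e0 : (fun a => ind (δ ≤ Zc β lam (ev0 ω a) n r x) * (Real.log δ +
        ∑ y ∈ Evb r x, Zy β lam (ev0 ω a) n r x y / Zc β lam (ev0 ω a) n r x *
          Real.log (pw d β lam (tsh n (ev0 ω a)) (ret y)))) =
      fun a => Real.log δ * J (ev0 ω a) + ∑ y ∈ Evb r x, Φ y (ev0 ω a) * Ψ y (ev0 ω a) := by
    funext a
    rw [hΦ, hΨ, hJ]
    simp only
    rw [mul_add, Finset.mul_sum, mul_comm (Real.log δ)]
    congr 1
    exact Finset.sum_congr rfl fun y _ => by ring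
  have hsumi : Integrable (fun a => ∑ y ∈ Evb r x, Φ y (ev0 ω a) * Ψ y (ev0 ω a)) P :=
    integrable_finsetSum _ hprod
  rw [e0]
  refine ⟨(hJi.const_mul _).add hsumi, ?_⟩
  rw [integral_add (hJi.const_mul _) hsumi, integral_const_mul, integral_finsetSum _ hprod, ← hC]
  have hC0 : 0 ≤ C := by
    rw [hC]
    unfold C0
    have h1 : (0 : ℝ) ≤ Real.log (2 * d) := by
      apply Real.log_nonneg
      have : (1 : ℝ) ≤ d := by exact_mod_cast NeZero.pos d
      linarith
    have h2 : 0 ≤ ∫ a, |ω 1 0 a| ∂P := integral_nonneg fun a => abs_nonneg _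
    positivity
  have hJE0 : 0 ≤ ∫ a, J (ev0 ω a) ∂P := integral_nonneg fun a => hJ0 _
  have hJE : ∫ a, J (ev0 ω a) ∂P ≤ 1 := by
    have h1 : ∫ a, J (ev0 ω a) ∂P ≤ ∫ _, (1 : ℝ) ∂P :=
      integral_mono hJi (integrable_const _) fun a => hJ1 _
    simpa using h1
  have hlog : Real.log δ ≤ 0 := Real.log_nonpos hδ.le hδ1
  have h1 : Real.log δ ≤ Real.log δ * ∫ a, J (ev0 ω a) ∂P := by nlinarith
  have hΦE0 : ∀ y, 0 ≤ ∫ a, Φ y (ev0 ω a) ∂P := fun y => integral_nonneg fun a => hΦ0 y _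
  have hΦE : ∑ y ∈ Evb r x, ∫ a, Φ y (ev0 ω a) ∂P ≤ 1 := by
    rw [← integral_finsetSum _ hΦi]
    have h2 : ∫ a, ∑ y ∈ Evb r x, Φ y (ev0 ω a) ∂P ≤ ∫ _, (1 : ℝ) ∂P :=
      integral_mono (integrable_finsetSum _ hΦi) (integrable_const _) fun a => hΦs _
    simpa using h2
  have h2 : -(m * C) ≤ ∑ y ∈ Evb r x, ∫ a, Φ y (ev0 ω a) * Ψ y (ev0 ω a) ∂P := by
    have h3 : ∑ y ∈ Evb r x, (∫ a, Φ y (ev0 ω a) ∂P) * (-(m * C)) ≤
        ∑ y ∈ Evb r x, ∫ a, Φ y (ev0 ω a) * Ψ y (ev0 ω a) ∂P := by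
      refine Finset.sum_le_sum fun y hy => ?_
      rw [hEprod y hy]
      exact mul_le_mul_of_nonneg_left (hΨb y hy) (hΦE0 y)
    rw [← Finset.sum_mul] at h3
    have h4 : 0 ≤ (m : ℝ) * C := by positivity
    nlinarith
  linarith

end Pool.Agent.MP_f3fa2b_pr
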