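import Pool.Agent.Lib.MP_f3fa2b_pr.FE.Blk

/-!
Deterministic lower bound for the partition function on a cluster with an open box.
-/

namespace Pool.Agent.MP_f3fa2b_pr

variable {d : ℕ}

private theorem lower_inBox_self (r : ℕ) (x : Vx d) : InBox r x x := by
  intro i
  rw [sub_self, abs_zero]
  exact Nat.cast_nonneg r

private theorem lower_ind_and (p q : Prop) : ind (p ∧ q) = ind p * ind q := by
  by_cases hp : p
  · by_cases hq : q
    · rw [ind_pos ⟨hp, hq⟩, ind_pos hp, ind_pos hq, one_mul]
    · rw [ind_neg (fun h => hq h.2), ind_neg hq, mul_zero]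
  · rw [ind_neg (fun h => hp h.1), ind_neg hp, zero_mul]

private theorem lower_deg {η : Cfg d} {y : Vx d} (h : ∀ s : Step d, η (bond y s) = true) :
    deg η y = deg (full d) y := by
  unfold deg
  congr 1
  refine Finset.filter_congr fun s _ => ?_
  constructor
  · intro _; rfl
  · intro _; exact h s

private theorem lower_walk_zero (η : Cfg d) (n : ℕ) (z : Vx d) {G : List (Vx d) → ℝ}
    (h : ∀ l, G l = 0) : walkE η n z G = 0 := by
  have e : G = fun l => (0 : ℝ) * G l := by
    funext l
    rw [zero_mul, h l]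
  rw [e, walkE_mul, zero_mul]

/-- Inside an open box the walk on the cluster is the walk on `ℤ^d`. -/
theorem walkE_box {η : Cfg d} {r : ℕ} {x : Vx d} (ho : OpenBox η r x) (n : ℕ) {y : Vx d}
    (hy : InBox r x y) (F : List (Vx d) → ℝ) :
    (walkE η n y fun l => ind (∀ u ∈ l, InBox r x u) * F l) =
      walkE (full d) n y fun l => ind (∀ u ∈ l, InBox r x u) * F l := by
  induction n generalizing y F with
  | zero => rfl
  | succ n ih =>
    simp only [walkE]
    rw [lower_deg (ho y hy)]
    congr 1
    refine Finset.sum_congr rfl fun s _ => ?_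
    have hf : full d (bond y s) = true := rfl
    rw [if_pos (ho y hy s), if_pos hf]
    by_cases hz : InBox r x (y + vec s)
    · have e : (fun l : List (Vx d) => ind (∀ u ∈ (y + vec s) :: l, InBox r x u) *
          F ((y + vec s) :: l)) =
          fun l => ind (∀ u ∈ l, InBox r x u) * (fun l => F ((y + vec s) :: l)) l := by
        funext l
        congr 1
        apply ind_congr
        simp [hz]
      rw [e]
      exact ih hz _
    · have h0 : ∀ l : List (Vx d), ind (∀ u ∈ (y + vec s) :: l, InBox r x u) *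
          F ((y + vec s) :: l) = 0 := by
        intro l
        rw [ind_neg, zero_mul]
        intro h
        exact hz (h _ List.mem_cons_self)
      rw [lower_walk_zero η n _ h0, lower_walk_zero (full d) n _ h0]

private theorem lower_pth {η : Cfg d} {r : ℕ} {x : Vx d} (ho : OpenBox η r x)
    (l : List (Vx d)) {y : Vx d} (hy : InBox r x y) (hl : Pth (full d) y l)
    (hb : ∀ u ∈ l, InBox r x u) : Pth η y l := by
  induction l generalizing y with
  | nil => trivial
  | cons z l ih =>
    obtain ⟨⟨s, _, hs⟩, h2⟩ := hl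
    exact ⟨⟨s, ho y hy s, hs⟩, ih (hb z List.mem_cons_self) h2
      fun u hu => hb u (List.mem_cons_of_mem _ hu)⟩

private theorem lower_tsh (t n : ℕ) (w : Env d) : tsh n (tsh t w) = tsh (t + n) w := by
  funext i y
  unfold tsh
  rw [add_assoc]

private theorem lower_pw_nonneg (β lam : ℝ) (w : Env d) (l : List (Vx d)) :
    0 ≤ pw d β lam w l := by
  unfold pw
  exact mul_nonneg (by positivity) (wd_pos β lam w l).le

/-- Follow a fixed path, then bound what comes after it. -/
private theorem lower_follow (η : Cfg d) (β lam : ℝ) (w : Env d) {y : Vx d} {l₀ : List (Vx d)}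
    (h0 : Pth η y l₀) (N : ℕ) {C : ℝ} (hC : 0 ≤ C)
    (h : C ≤ walkE η N (lst y l₀) fun l => wd β lam (tsh l₀.length w) l) :
    pw d β lam w l₀ * C ≤ walkE η (l₀.length + N) y fun l => wd β lam w l := by
  rw [walkE_append]
  have h1 : (walkE η l₀.length y fun l => (wd β lam w l₀ * C) * ind (l = l₀)) ≤
      walkE η l₀.length y fun l => walkE η N (lst y l) fun l' => wd β lam w (l ++ l') := by
    refine walkE_mono η _ _ fun l _ _ => ?_
    by_cases hl : l = l₀
    · rw [ind_pos hl, mul_one, hl]
      have e : (fun l' : List (Vx d) => wd β lam w (l₀ ++ l')) =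
          fun l' => wd β lam w l₀ * wd β lam (tsh l₀.length w) l' := by
        funext l'
        exact wd_append β lam w l₀ l'
      rw [e, walkE_mul]
      exact mul_le_mul_of_nonneg_left h (wd_pos β lam w l₀).le
    · rw [ind_neg hl, mul_zero]
      exact walkE_nonneg η _ _ fun l' => (wd_pos β lam w _).le
  refine le_trans ?_ h1
  rw [walkE_mul]
  have h2 := path_prob η h0
  have h3 : 0 ≤ wd β lam w l₀ * C := mul_nonneg (wd_pos β lam w l₀).le hC
  calc pw d β lam w l₀ * C = (wd β lam w l₀ * C) * (1 / (2 * d) : ℝ) ^ l₀.length := by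
        unfold pw; ring
    _ ≤ _ := mul_le_mul_of_nonneg_left h2 h3

private theorem lower_blocks {η : Cfg d} {r : ℕ} {x : Vx d} (ho : OpenBox η r x) (β lam : ℝ)
    (w : Env d) (n m : ℕ) {l₁ : List (Vx d)} (h1 : Pth (full d) x l₁)
    (hb : ∀ u ∈ l₁, InBox r x u) (t : ℕ) :
    (∏ i ∈ Finset.range m, Bl β lam (tsh (t + i * n) w) n r x) *
        pw d β lam (tsh (t + m * n) w) l₁ ≤
      walkE η (m * n + l₁.length) x fun l => wd β lam (tsh t w) l := by
  induction m generalizing t with
  | zero =>
    have hp : Pth η x l₁ := lower_pth ho l₁ (lower_inBox_self r x) h1 hb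
    have h := lower_follow η β lam (tsh t w) hp 0 (C := 1) zero_le_one (by
      show (1 : ℝ) ≤ wd β lam _ []
      unfold wd
      simp)
    rw [mul_one, add_zero] at h
    rw [Finset.range_zero, Finset.prod_empty, one_mul, zero_mul, zero_add, add_zero]
    exact h
  | succ m ih =>
    obtain ⟨C, hC⟩ : ∃ C, C = (∏ i ∈ Finset.range m, Bl β lam (tsh (t + n + i * n) w) n r x) *
        pw d β lam (tsh (t + n + m * n) w) l₁ := ⟨_, rfl⟩
    have ih' : C ≤ walkE η (m * n + l₁.length) x fun l => wd β lam (tsh (t + n) w) l := by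
      rw [hC]
      exact ih (t + n)
    have e1 : (m + 1) * n + l₁.length = n + (m * n + l₁.length) := by ring
    have e2 : (∏ i ∈ Finset.range (m + 1), Bl β lam (tsh (t + i * n) w) n r x) *
        pw d β lam (tsh (t + (m + 1) * n) w) l₁ = Bl β lam (tsh t w) n r x * C := by
      rw [Finset.prod_range_succ', hC]
      have e3 : ∀ i : ℕ, t + (i + 1) * n = t + n + i * n := fun i => by ring
      simp only [e3]
      rw [zero_mul, add_zero]
      ring
    rw [e1, e2, walkE_append]
    have hB : Bl β lam (tsh t w) n r x =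
        walkE η n x fun l => ind ((∀ u ∈ l, InBox r x u) ∧ lst x l = x) *
          wd β lam (tsh t w) l := by
      unfold Bl Zy
      have e : (fun l : List (Vx d) => ind ((∀ u ∈ l, InBox r x u) ∧ lst x l = x) *
          wd β lam (tsh t w) l) = fun l => ind (∀ u ∈ l, InBox r x u) *
            (fun l => ind (lst x l = x) * wd β lam (tsh t w) l) l := by
        funext l
        rw [lower_ind_and, mul_assoc]
      rw [e]
      exact (walkE_box ho n (lower_inBox_self r x) _).symm
    rw [hB, mul_comm, ← walkE_mul]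
    refine walkE_mono η _ _ fun l hl _ => ?_
    by_cases hp : (∀ u ∈ l, InBox r x u) ∧ lst x l = x
    · rw [ind_pos hp, one_mul, hp.2]
      have e : (fun l' : List (Vx d) => wd β lam (tsh t w) (l ++ l')) =
          fun l' => wd β lam (tsh t w) l * wd β lam (tsh (t + n) w) l' := by
        funext l'
        rw [wd_append, hl, lower_tsh]
      rw [e, walkE_mul, mul_comm]
      exact mul_le_mul_of_nonneg_left ih' (wd_pos β lam _ l).le
    · rw [ind_neg hp, zero_mul, mul_zero]
      exact walkE_nonneg η _ _ fun l' => (wd_pos β lam _ _).le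

theorem W_ge [NeZero d] {η : Cfg d} {r : ℕ} {x : Vx d} (ho : OpenBox η r x) (β lam : ℝ)
    (w : Env d) {l₀ : List (Vx d)} (h0 : Pth η 0 l₀) (hx : lst 0 l₀ = x) (n m : ℕ)
    {l₁ : List (Vx d)} (h1 : Pth (full d) x l₁) (hb : ∀ u ∈ l₁, InBox r x u) :
    pw d β lam w l₀ * (∏ i ∈ Finset.range m, Bl β lam (tsh (l₀.length + i * n) w) n r x) *
        pw d β lam (tsh (l₀.length + m * n) w) l₁ ≤
      W η β lam w (l₀.length + m * n + l₁.length) := by
  have hbl := lower_blocks ho β lam w n m h1 hb l₀.length
  have hC : 0 ≤ (∏ i ∈ Finset.range m, Bl β lam (tsh (l₀.length + i * n) w) n r x) *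
      pw d β lam (tsh (l₀.length + m * n) w) l₁ := by
    refine mul_nonneg (Finset.prod_nonneg fun i _ => ?_) (lower_pw_nonneg β lam _ l₁)
    exact Zy_nonneg β lam _ n r x x
  have h := lower_follow η β lam w h0 (m * n + l₁.length) hC (by rw [hx]; exact hbl)
  rw [mul_assoc, W_eq_wd, add_assoc]
  exact h

end Pool.Agent.MP_f3fa2b_pr
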