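import Pool.Agent.Lib.MP_f3fa2b_pr.FE.BlkE
import Pool.Agent.Lib.MP_f3fa2b_pr.FE.Lower

/-!
Strong law of large numbers for the blocks.
-/

namespace Pool.Agent.MP_f3fa2b_pr

open MeasureTheory ProbabilityTheory Filter Topology
open scoped ENNReal

variable {d : ℕ} {Ω : Type*} [MeasurableSpace Ω] {P : Measure Ω} [IsProbabilityMeasure P]

private theorem slln_meas_tsh (t : ℕ) : Measurable (tsh t : Env d → Env d) := by
  refine measurable_pi_lambda _ fun i => ?_
  exact measurable_pi_apply (t + i)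

/-- `strong_law_ae_real`, `indep_win`, `law_tsh`, `Zy_congr`. -/
theorem slln_blocks [NeZero d] {ω : ℕ → Vx d → Ω → ℝ} (h : IIDField P ω) (β lam : ℝ)
    (D n r : ℕ) (x : Vx d)
    (hB : Integrable (fun a => Real.log (Bl β lam (ev0 ω a) n r x)) P) :
    ∀ᵐ a ∂P, Tendsto (fun m : ℕ =>
      (∑ i ∈ Finset.range m, Real.log (Bl β lam (tsh (D + i * n) (ev0 ω a)) n r x)) / m)
      atTop (𝓝 (∫ a, Real.log (Bl β lam (ev0 ω a) n r x) ∂P)) := by
  obtain ⟨Φ, hΦ⟩ : ∃ Φ : Env d → ℝ, Φ = fun w => Real.log (Bl β lam w n r x) := ⟨_, rfl⟩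
  have hm : Measurable Φ := by
    rw [hΦ]
    exact Real.measurable_log.comp (meas_Zy β lam n r x x)
  have hid : ∀ t, IdentDistrib (fun a => Φ (tsh t (ev0 ω a))) (fun a => Φ (ev0 ω a)) P P :=
    fun t => law_tsh h t hm
  have hcg : ∀ t (w w' : Env d), (∀ i ∈ Set.Ioc t (t + n), w i = w' i) →
      Φ (tsh t w) = Φ (tsh t w') := by
    intro t w w' hw
    rw [hΦ]
    change Real.log (Zy β lam (tsh t w) n r x x) = Real.log (Zy β lam (tsh t w') n r x x)
    rw [Zy_congr β lam n r x x]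
    intro i h1 h2
    change (fun y => w (t + i) y) = fun y => w' (t + i) y
    rw [hw (t + i) ⟨by omega, by omega⟩]
  have key := strong_law_ae_real (fun i a => Φ (tsh (D + i * n) (ev0 ω a)))
    (by
      have h0 := (hid (D + 0 * n)).integrable_iff.2 (by rw [hΦ]; exact hB)
      exact h0)
    (by
      intro i j hij
      refine indep_win h (Φ := fun w => Φ (tsh (D + i * n) w)) (Ψ := fun w => Φ (tsh (D + j * n) w))
        (S := Set.Ioc (D + i * n) (D + i * n + n)) (T := Set.Ioc (D + j * n) (D + j * n + n))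
        (hm.comp (slln_meas_tsh _)) (hm.comp (slln_meas_tsh _)) ?_ (hcg _) (hcg _)
      rw [Set.disjoint_left]
      intro u hu hv
      rcases lt_or_gt_of_ne hij with hlt | hlt
      · have h1 : (i + 1) * n ≤ j * n := Nat.mul_le_mul_right n hlt
        have h2 := hu.2
        have h3 := hv.1
        rw [add_mul, one_mul] at h1
        omega
      · have h1 : (j + 1) * n ≤ i * n := Nat.mul_le_mul_right n hlt
        have h2 := hv.2
        have h3 := hu.1
        rw [add_mul, one_mul] at h1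
        omega)
    (fun i => (hid _).trans (hid _).symm)
  have hint : ∫ a, Φ (tsh (D + 0 * n) (ev0 ω a)) ∂P =
      ∫ a, Real.log (Bl β lam (ev0 ω a) n r x) ∂P := by
    rw [(hid (D + 0 * n)).integral_eq, hΦ]
  filter_upwards [key] with a ha
  rw [hint, hΦ] at ha
  exact ha

private theorem slln_last_lim {u : ℕ → ℝ} {c : ℝ}
    (h : Tendsto (fun m : ℕ => (∑ i ∈ Finset.range m, u i) / m) atTop (𝓝 c)) :
    Tendsto (fun m : ℕ => u m / m) atTop (𝓝 0) := by
  have h1 : Tendsto (fun m : ℕ => (∑ i ∈ Finset.range (m + 1), u i) / ((m + 1 : ℕ) : ℝ)) atTop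
      (𝓝 c) := h.comp (tendsto_add_atTop_nat 1)
  have h2 : Tendsto (fun m : ℕ => (1 : ℝ) + 1 / (m : ℝ)) atTop (𝓝 (1 + 0)) :=
    tendsto_const_nhds.add tendsto_one_div_atTop_nhds_zero_nat
  have h3 := (h1.mul h2).sub h
  rw [add_zero, mul_one, sub_self] at h3
  refine h3.congr' ?_
  filter_upwards [eventually_ge_atTop 1] with m hm
  have hm0 : (m : ℝ) ≠ 0 := by positivity
  have hm1 : ((m + 1 : ℕ) : ℝ) ≠ 0 := by positivity
  rw [Finset.sum_range_succ]
  rw [Nat.cast_add, Nat.cast_one] at hm1 ⊢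
  field_simp
  ring

private theorem slln_site {ω : ℕ → Vx d → Ω → ℝ} (h : IIDField P ω)
    (hω : Integrable (ω 1 0) P) {n : ℕ} (hn : 1 ≤ n) (D : ℕ) (y : Vx d) :
    ∀ᵐ a ∂P, Tendsto (fun m : ℕ => ω (D + m * n) y a / m) atTop (𝓝 0) := by
  have key := strong_law_ae_real (fun m a => ω (D + m * n) y a)
    ((h.ident (D + 0 * n) y).integrable_iff.2 hω)
    (by
      intro i j hij
      have hne : ((D + i * n, y) : ℕ × Vx d) ≠ (D + j * n, y) := by
        intro he
        have h1 := congrArg Prod.fst he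
        have h2 : i * n = j * n := by
          change D + i * n = D + j * n at h1
          omega
        exact hij (Nat.eq_of_mul_eq_mul_right hn h2)
      exact h.indep.indepFun hne)
    (fun i => (h.ident _ y).trans (h.ident _ y).symm)
  filter_upwards [key] with a ha
  exact slln_last_lim ha

private theorem slln_sum (f : ℕ → Vx d → ℝ) (l : List (Vx d)) :
    (l.mapIdx f).sum = ∑ i ∈ Finset.range l.length, f i (l.getD i 0) := by
  induction l using List.reverseRecOn with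
  | nil => simp
  | append_singleton l y ih =>
    rw [List.mapIdx_concat, List.sum_append, ih, List.length_append, List.length_singleton,
      Finset.sum_range_succ]
    congr 1
    · refine Finset.sum_congr rfl fun i hi => ?_
      rw [Finset.mem_range] at hi
      rw [List.getD_append _ _ _ _ hi]
    · rw [List.getD_append_right _ _ _ _ le_rfl]
      simp

private theorem slln_pw_pos [NeZero d] (β lam : ℝ) (w : Env d) (l : List (Vx d)) :
    0 < pw d β lam w l := by
  have hd : (0 : ℝ) < d := by exact_mod_cast Nat.pos_of_ne_zero (NeZero.ne d)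
  unfold pw
  exact mul_pos (by positivity) (wd_pos β lam w l)

private theorem slln_log_pw [NeZero d] (β lam : ℝ) (w : Env d) (l : List (Vx d)) :
    Real.log (pw d β lam w l) = l.length * Real.log (1 / (2 * d) : ℝ) +
      ∑ i ∈ Finset.range l.length, (β * w (i + 1) (l.getD i 0) - lam) := by
  have hd : (0 : ℝ) < d := by exact_mod_cast Nat.pos_of_ne_zero (NeZero.ne d)
  unfold pw wd
  rw [Real.log_mul (by positivity) (Real.exp_pos _).ne', Real.log_exp, Real.log_pow, slln_sum]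

/-- The last incomplete block is negligible. -/
theorem last_block [NeZero d] {ω : ℕ → Vx d → Ω → ℝ} (h : IIDField P ω)
    (hω : Integrable (ω 1 0) P) (β lam : ℝ) (D n : ℕ) (l : List (Vx d)) (hl : l.length ≤ n) :
    ∀ᵐ a ∂P, Tendsto (fun m : ℕ =>
      Real.log (pw d β lam (tsh (D + m * n) (ev0 ω a)) l) / m) atTop (𝓝 0) := by
  rcases Nat.eq_zero_or_pos n with rfl | hn
  · have hl0 : l = [] := List.length_eq_zero_iff.1 (Nat.le_zero.1 hl)
    refine ae_of_all _ fun a => ?_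
    subst hl0
    have e : (fun m : ℕ => Real.log (pw d β lam (tsh (D + m * 0) (ev0 ω a)) []) / (m : ℝ)) =
        fun _ => 0 := by
      funext m
      rw [slln_log_pw]
      simp
    rw [e]
    exact tendsto_const_nhds
  have h1 : ∀ᵐ a ∂P, ∀ i : Fin l.length,
      Tendsto (fun m : ℕ => ω (D + (i + 1) + m * n) (l.getD i 0) a / m) atTop (𝓝 0) := by
    rw [ae_all_iff]
    intro i
    exact slln_site h hω hn _ _
  filter_upwards [h1] with a ha
  have hc : ∀ c : ℝ, Tendsto (fun m : ℕ => c / (m : ℝ)) atTop (𝓝 0) :=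
    fun c => tendsto_const_div_atTop_nhds_zero_nat c
  have h2 : Tendsto (fun m : ℕ => (l.length * Real.log (1 / (2 * d) : ℝ)) / (m : ℝ) +
      ∑ i ∈ Finset.range l.length,
        (β * (ω (D + (i + 1) + m * n) (l.getD i 0) a / m) - lam / m)) atTop
      (𝓝 (0 + ∑ i ∈ Finset.range l.length, (β * 0 - 0))) := by
    refine (hc _).add (tendsto_finsetSum _ fun i hi => ?_)
    exact ((ha ⟨i, Finset.mem_range.1 hi⟩).const_mul β).sub (hc lam)
  have e0 : (0 : ℝ) + ∑ i ∈ Finset.range l.length, (β * 0 - 0 : ℝ) = 0 := by simp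
  rw [e0] at h2
  refine h2.congr fun m => ?_
  rw [slln_log_pw, add_div, Finset.sum_div]
  congr 1
  refine Finset.sum_congr rfl fun i _ => ?_
  have e1 : tsh (D + m * n) (ev0 ω a) (i + 1) (l.getD i 0) =
      ω (D + (i + 1) + m * n) (l.getD i 0) a := by
    have e2 : D + m * n + (i + 1) = D + (i + 1) + m * n := by ring
    change ω (D + m * n + (i + 1)) (l.getD i 0) a = _
    rw [e2]
  rw [e1]
  ring

theorem lower_eps [NeZero d] {ω : ℕ → Vx d → Ω → ℝ} (h : IIDField P ω)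
    (hω : Integrable (ω 1 0) P) {β : ℝ} (hi : Integrable (fun a => Real.exp (β * ω 1 0 a)) P)
    (hw : WeakZd P ω β) {η : Cfg d} (hη : ∀ r : ℕ, ∃ x ∈ cluster η 0, OpenBox η r x) {ε : ℝ}
    (hε : 0 < ε) :
    ∀ᵐ a ∂P, ∀ᶠ n : ℕ in atTop,
      -ε ≤ Real.log (W η β (cgf (ω 1 0) P β) (ev0 ω a) n) / n := by
  obtain ⟨k, hk, hI⟩ := Bl_log_ge h hω hi hw (half_pos hε)
  obtain ⟨x, hx, ho⟩ := hη (k ^ 3)
  obtain ⟨l₀, h0, hl0⟩ := (mem_cluster_iff η 0 x).1 hx
  have hr : 1 ≤ k ^ 3 := Nat.one_le_pow _ _ hk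
  obtain ⟨n₀, hn₀⟩ : ∃ n₀, n₀ = bk d k := ⟨_, rfl⟩
  have hn1 : 1 ≤ n₀ := by
    rw [hn₀]
    unfold bk
    have : 1 ≤ k ^ 4 := Nat.one_le_pow _ _ hk
    omega
  have hne : Even n₀ := by
    rw [hn₀]
    unfold bk
    exact ⟨k ^ 4 + d * k ^ 3, by ring⟩
  obtain ⟨lam, hlam⟩ : ∃ lam, lam = cgf (ω 1 0) P β := ⟨_, rfl⟩
  rw [← hlam] at hI ⊢
  rw [← hn₀] at hI
  have hpath : ∀ s : ℕ, ∃ l : List (Vx d), l.length = s ∧ Pth (full d) x l ∧
      (∀ u ∈ l, InBox (k ^ 3) x u) ∧ (Even s → lst x l = x) := exists_triv hr x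
  choose l₁ hlen hPth hbox hcl using hpath
  have hBlpos : ∀ w : Env d, 0 < Bl β lam w n₀ (k ^ 3) x := by
    intro w
    refine lt_of_lt_of_le (slln_pw_pos β lam w (l₁ n₀)) ?_
    have h1 := Bl_ge_path β lam w (hPth n₀) (hbox n₀) (hcl n₀ hne)
    rwa [hlen] at h1
  have hBint := Bl_log_int h hω hi hk x
  rw [← hlam, ← hn₀] at hBint
  have hA := slln_blocks h β lam l₀.length n₀ (k ^ 3) x hBint
  have hC : ∀ᵐ a ∂P, ∀ s : Fin n₀, Tendsto (fun m : ℕ =>
      Real.log (pw d β lam (tsh (l₀.length + m * n₀) (ev0 ω a)) (l₁ s)) / m) atTop (𝓝 0) := by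
    rw [ae_all_iff]
    intro s
    exact last_block h hω β lam l₀.length n₀ (l₁ s) (by rw [hlen]; exact s.2.le)
  filter_upwards [hA, hC] with a hA hC
  obtain ⟨I, hIe⟩ : ∃ I, I = ∫ a, Real.log (Bl β lam (ev0 ω a) n₀ (k ^ 3) x) ∂P := ⟨_, rfl⟩
  have hI2 : -(ε / 2 * n₀) ≤ I := by rw [hIe]; exact hI x
  rw [← hIe] at hA
  have hn0R : (0 : ℝ) < n₀ := by exact_mod_cast hn1
  have hlt : -(ε * n₀) < I := by nlinarith
  have hev : ∀ᶠ m : ℕ in atTop, ∀ s : Fin n₀, -(ε * n₀) <
      Real.log (pw d β lam (ev0 ω a) l₀) / m +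
      (∑ i ∈ Finset.range m,
        Real.log (Bl β lam (tsh (l₀.length + i * n₀) (ev0 ω a)) n₀ (k ^ 3) x)) / m +
      Real.log (pw d β lam (tsh (l₀.length + m * n₀) (ev0 ω a)) (l₁ s)) / m := by
    rw [eventually_all]
    intro s
    have h1 := ((tendsto_const_div_atTop_nhds_zero_nat
      (Real.log (pw d β lam (ev0 ω a) l₀))).add hA).add (hC s)
    rw [zero_add, add_zero] at h1
    exact h1.eventually_const_lt hlt
  obtain ⟨M, hM⟩ := eventually_atTop.1 hev
  filter_upwards [eventually_ge_atTop (l₀.length + (M + 1) * n₀)] with N hN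
  obtain ⟨m, hm⟩ : ∃ m, m = (N - l₀.length) / n₀ := ⟨_, rfl⟩
  obtain ⟨s, hs⟩ : ∃ s, s = (N - l₀.length) % n₀ := ⟨_, rfl⟩
  have hs1 : s < n₀ := by rw [hs]; exact Nat.mod_lt _ hn1
  have hdm : n₀ * m + s = N - l₀.length := by rw [hm, hs]; exact Nat.div_add_mod _ _
  have hNl : l₀.length ≤ N := le_trans (Nat.le_add_right _ _) hN
  have hNe : N = l₀.length + m * n₀ + s := by
    rw [mul_comm] at hdm
    omega
  have hmM : M + 1 ≤ m := by
    rw [hm, Nat.le_div_iff_mul_le hn1]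
    omega
  have hm0 : (0 : ℝ) < m := by
    have : 0 < m := by omega
    exact_mod_cast this
  have hWge := W_ge ho β lam (ev0 ω a) h0 hl0 n₀ m (hPth s) (hbox s)
  rw [hlen] at hWge
  rw [← hNe] at hWge
  have hpp : 0 < ∏ i ∈ Finset.range m,
      Bl β lam (tsh (l₀.length + i * n₀) (ev0 ω a)) n₀ (k ^ 3) x :=
    Finset.prod_pos fun i _ => hBlpos _
  have hlog : Real.log (pw d β lam (ev0 ω a) l₀) + (∑ i ∈ Finset.range m,
        Real.log (Bl β lam (tsh (l₀.length + i * n₀) (ev0 ω a)) n₀ (k ^ 3) x)) +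
      Real.log (pw d β lam (tsh (l₀.length + m * n₀) (ev0 ω a)) (l₁ s)) ≤
      Real.log (W η β lam (ev0 ω a) N) := by
    have h1 := Real.log_le_log (mul_pos (mul_pos (slln_pw_pos _ _ _ _) hpp)
      (slln_pw_pos _ _ _ _)) hWge
    rw [Real.log_mul (mul_pos (slln_pw_pos _ _ _ _) hpp).ne' (slln_pw_pos _ _ _ _).ne',
      Real.log_mul (slln_pw_pos _ _ _ _).ne' hpp.ne', Real.log_prod] at h1
    · exact h1
    · intro i _
      exact (hBlpos _).ne'
  have h2 := hM m (by omega) ⟨s, hs1⟩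
  have h3 : -(ε * n₀) * m < Real.log (W η β lam (ev0 ω a) N) := by
    refine lt_of_lt_of_le ?_ hlog
    rw [← add_div, ← add_div, lt_div_iff₀ hm0] at h2
    exact h2
  have hN0 : (0 : ℝ) < N := by
    have : 0 < N := by
      have h4 : 0 < (M + 1) * n₀ := Nat.mul_pos (Nat.succ_pos _) hn1
      omega
    exact_mod_cast this
  have h5 : (n₀ : ℝ) * m ≤ N := by
    have : n₀ * m ≤ N := by omega
    exact_mod_cast this
  rw [le_div_iff₀ hN0]
  have h6 : ε * (n₀ * m) ≤ ε * N := mul_le_mul_of_nonneg_left h5 hε.le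
  nlinarith

end Pool.Agent.MP_f3fa2b_pr
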