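import Pool.Agent.Lib.MP_f3fa2b_pr.FE.Basic

/-!
Second moment of the partition function of `ℤ^d`.
-/

namespace Pool.Agent.MP_f3fa2b_pr

open MeasureTheory ProbabilityTheory Filter Topology
open scoped ENNReal

variable {d : ℕ} {Ω : Type*} [MeasurableSpace Ω] {P : Measure Ω} [IsProbabilityMeasure P]

/-- The meetings as a sum over the times. -/
private theorem Sec_coin_sum {l l' : List (Vx d)} (hl : l.length = l'.length) :
    coin l l' = ∑ i ∈ Finset.range l.length, if l.getD i 0 = l'.getD i 0 then 1 else 0 := by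
  induction l generalizing l' with
  | nil =>
    cases l' with
    | nil => rfl
    | cons y' l' => simp at hl
  | cons y l ih =>
    cases l' with
    | nil => simp at hl
    | cons y' l' =>
      have hl2 : l.length = l'.length := by simpa using hl
      rw [List.length_cons, Finset.sum_range_succ']
      simp only [List.getD_cons_succ, List.getD_cons_zero]
      rw [← ih hl2, add_comm]
      rfl

/-- The meetings are the common sites. -/
private theorem Sec_card_inter {l l' : List (Vx d)} (hl : l.length = l'.length) :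
    (sites l ∩ sites l').card = coin l l' := by
  classical
  have e : sites l ∩ sites l' = ((Finset.range l.length).filter
      fun i => l.getD i 0 = l'.getD i 0).image fun i => (i + 1, l.getD i 0) := by
    ext ⟨j, y⟩
    simp only [sites, Finset.mem_inter, Finset.mem_image, Finset.mem_filter, Finset.mem_range,
      Prod.mk.injEq]
    constructor
    · rintro ⟨⟨i, hi, rfl, rfl⟩, ⟨i', hi', h1, h2⟩⟩
      have : i' = i := by omega
      subst this
      exact ⟨i', ⟨hi, h2.symm⟩, rfl, rfl⟩
    · rintro ⟨i, ⟨hi, h1⟩, rfl, rfl⟩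
      exact ⟨⟨i, hi, rfl, rfl⟩, ⟨i, hl ▸ hi, rfl, h1.symm⟩⟩
  rw [e, Finset.card_image_of_injective, Finset.card_filter, Sec_coin_sum hl]
  intro i j hij
  have := congrArg Prod.fst hij
  simpa using this

/-- `int_prod` over `sites l ∪ sites l'`: the common sites are the meetings. -/
theorem wd_mul_int {ω : ℕ → Vx d → Ω → ℝ} (h : IIDField P ω) {β : ℝ}
    (hi : Integrable (fun a => Real.exp (β * ω 1 0 a)) P)
    (h2 : Integrable (fun a => Real.exp (2 * β * ω 1 0 a)) P) {l l' : List (Vx d)}
    (hl : l.length = l'.length) :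
    Integrable (fun a => wd β (cgf (ω 1 0) P β) (ev0 ω a) l *
        wd β (cgf (ω 1 0) P β) (ev0 ω a) l') P ∧
      ∫ a, wd β (cgf (ω 1 0) P β) (ev0 ω a) l * wd β (cgf (ω 1 0) P β) (ev0 ω a) l' ∂P =
        (∫ a, gw β (cgf (ω 1 0) P β) (ω 1 0 a) ^ 2 ∂P) ^ coin l l' := by
  classical
  set lam := cgf (ω 1 0) P β with hlam
  set φ : ℕ × Vx d → ℝ → ℝ := fun z x => (if z ∈ sites l then gw β lam x else 1) *
    (if z ∈ sites l' then gw β lam x else 1) with hφ
  have hg0 : ∀ x, 0 ≤ gw β lam x := fun x => (Real.exp_pos _).le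
  have hφm : ∀ z, Measurable (φ z) := by
    intro z
    by_cases h1 : z ∈ sites l <;> by_cases h3 : z ∈ sites l' <;>
      simp only [hφ, h1, h3, if_true, if_false]
    · exact (meas_gw β lam).mul (meas_gw β lam)
    · exact (meas_gw β lam).mul measurable_const
    · exact measurable_const.mul (meas_gw β lam)
    · exact measurable_const
  have hφ0 : ∀ z x, 0 ≤ φ z x := by
    intro z x
    refine mul_nonneg ?_ ?_
    · split_ifs
      · exact hg0 x
      · exact zero_le_one
    · split_ifs
      · exact hg0 x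
      · exact zero_le_one
  have hgi := gw_integrable hi lam
  have hg2 : Integrable (fun a => gw β lam (ω 1 0 a) * gw β lam (ω 1 0 a)) P := by
    have e : (fun a => gw β lam (ω 1 0 a) * gw β lam (ω 1 0 a)) =
        fun a => Real.exp (2 * β * ω 1 0 a) * Real.exp (-(2 * lam)) := by
      funext a
      rw [gw, ← Real.exp_add, ← Real.exp_add]
      congr 1
      ring
    rw [e]
    exact h2.mul_const _
  have hφi : ∀ z, Integrable (fun a => φ z (ω 1 0 a)) P := by
    intro z
    by_cases h1 : z ∈ sites l <;> by_cases h3 : z ∈ sites l' <;>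
      simp only [hφ, h1, h3, if_true, if_false]
    · exact hg2
    · simpa using hgi
    · simpa using hgi
    · simp
  have key := int_prod h (sites l ∪ sites l') hφm hφ0 (fun z _ => hφi z)
  have hprod : ∀ a, ∏ z ∈ sites l ∪ sites l', φ z (ω z.1 z.2 a) =
      wd β lam (ev0 ω a) l * wd β lam (ev0 ω a) l' := by
    intro a
    simp only [hφ]
    rw [Finset.prod_mul_distrib, ← wt_eq_wd, ← wt_eq_wd, wt_eq_prod, wt_eq_prod,
      Finset.prod_ite_mem, Finset.prod_ite_mem, Finset.union_inter_cancel_left,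
      Finset.union_inter_cancel_right]
  have hfac : ∀ z ∈ sites l ∪ sites l', ∫ a, φ z (ω 1 0 a) ∂P =
      if z ∈ sites l ∩ sites l' then ∫ a, gw β lam (ω 1 0 a) ^ 2 ∂P else 1 := by
    intro z hz
    by_cases h1 : z ∈ sites l <;> by_cases h3 : z ∈ sites l' <;>
      simp only [hφ, h1, h3, if_true, if_false, Finset.mem_inter, and_true, and_false, one_mul,
        mul_one]
    · refine integral_congr_ae (Eventually.of_forall fun a => ?_)
      exact (sq _).symm
    · exact gw_integral (h.meas 1 0) hi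
    · exact gw_integral (h.meas 1 0) hi
    · exact absurd (Finset.mem_union.1 hz) (by rintro (h4 | h4); exacts [h1 h4, h3 h4])
  rw [Finset.prod_congr rfl hfac, Finset.prod_ite_mem, Finset.prod_const] at key
  have hsub : (sites l ∪ sites l') ∩ (sites l ∩ sites l') = sites l ∩ sites l' :=
    Finset.inter_eq_right.2 fun z hz => Finset.mem_union_left _ (Finset.mem_inter.1 hz).1
  rw [hsub, Sec_card_inter hl] at key
  simp only [hprod] at key
  exact key

theorem W_sq {ω : ℕ → Vx d → Ω → ℝ} (h : IIDField P ω) {β g : ℝ}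
    (hi : Integrable (fun a => Real.exp (β * ω 1 0 a)) P)
    (h2 : Integrable (fun a => Real.exp (2 * β * ω 1 0 a)) P)
    (hg : ∫ a, gw β (cgf (ω 1 0) P β) (ω 1 0 a) ^ 2 ∂P = g) {n : ℕ}
    (hp : walkE (full d) n 0 (fun l => walkE (full d) n 0 fun l' => g ^ coin l l') ≤ 2) :
    Integrable (fun a => W (full d) β (cgf (ω 1 0) P β) (ev0 ω a) n ^ 2) P ∧
      ∫ a, W (full d) β (cgf (ω 1 0) P β) (ev0 ω a) n ^ 2 ∂P ≤ 2 := by
  obtain ⟨S, w, hS, hF⟩ := walkE_eq_sum (full d) n 0
  set lam := cgf (ω 1 0) P β with hlam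
  have hW : ∀ a, W (full d) β lam (ev0 ω a) n ^ 2 = ∑ l ∈ S, ∑ l' ∈ S,
      (w l * w l') * (wd β lam (ev0 ω a) l * wd β lam (ev0 ω a) l') := by
    intro a
    rw [W_eq_wd, hF, sq, Finset.sum_mul_sum]
    exact Finset.sum_congr rfl fun l _ => Finset.sum_congr rfl fun l' _ => by ring
  have hint : ∀ l ∈ S, ∀ l' ∈ S, Integrable (fun a =>
      (w l * w l') * (wd β lam (ev0 ω a) l * wd β lam (ev0 ω a) l')) P := by
    intro l hl l' hl'
    exact (wd_mul_int h hi h2 ((hS l hl).2.1.trans (hS l' hl').2.1.symm)).1.const_mul _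
  simp only [hW]
  constructor
  · exact integrable_finsetSum _ fun l hl => integrable_finsetSum _ fun l' hl' => hint l hl l' hl'
  · rw [integral_finsetSum _ fun l hl => integrable_finsetSum _ fun l' hl' => hint l hl l' hl']
    refine le_trans (le_of_eq ?_) hp
    rw [hF]
    refine Finset.sum_congr rfl fun l hl => ?_
    rw [integral_finsetSum _ fun l' hl' => hint l hl l' hl', hF, Finset.mul_sum]
    refine Finset.sum_congr rfl fun l' hl' => ?_
    rw [integral_const_mul,
      (wd_mul_int h hi h2 ((hS l hl).2.1.trans (hS l' hl').2.1.symm)).2, ← hlam, hg, mul_assoc]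

/-- Paley–Zygmund. -/
theorem half_le {X : Ω → ℝ} (hX : Measurable X) (h0 : ∀ a, 0 ≤ X a) (hi : Integrable X P)
    (h1 : ∫ a, X a ∂P = 1) (h2i : Integrable (fun a => X a ^ 2) P)
    (h2 : ∫ a, X a ^ 2 ∂P ≤ 2) : 1 / 8 ≤ P.real {a | 1 / 2 ≤ X a} := by
  have hA : MeasurableSet {a | 1 / 2 ≤ X a} := measurableSet_le measurable_const hX
  have hiA : Integrable ({a | 1 / 2 ≤ X a}.indicator fun _ => (2 : ℝ)) P :=
    (integrable_const (2 : ℝ)).indicator hA
  have hb : Integrable (fun a => 1 / 2 + 1 / 8 * X a ^ 2) P :=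
    (integrable_const (1 / 2 : ℝ)).add (h2i.const_mul (1 / 8))
  have hle : ∫ a, X a ∂P ≤ ∫ a, ((1 / 2 + 1 / 8 * X a ^ 2) +
      {a | 1 / 2 ≤ X a}.indicator (fun _ => (2 : ℝ)) a) ∂P := by
    refine integral_mono hi (hb.add hiA) fun a => ?_
    by_cases ha : 1 / 2 ≤ X a
    · have e : {a | 1 / 2 ≤ X a}.indicator (fun _ => (2 : ℝ)) a = 2 :=
        Set.indicator_of_mem (show a ∈ {a | 1 / 2 ≤ X a} from ha) _
      rw [e]
      nlinarith [sq_nonneg (X a - 4)]
    · have e : {a | 1 / 2 ≤ X a}.indicator (fun _ => (2 : ℝ)) a = 0 :=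
        Set.indicator_of_notMem (show a ∉ {a | 1 / 2 ≤ X a} from ha) _
      rw [e]
      push Not at ha
      nlinarith [sq_nonneg (X a)]
  rw [h1, integral_add hb hiA, integral_add (integrable_const _) (h2i.const_mul _),
    integral_const_mul, integral_indicator hA, integral_const, integral_const] at hle
  simp only [probReal_univ, measureReal_restrict_apply_univ, smul_eq_mul] at hle
  linarith

theorem not_tendsto {X : ℕ → Ω → ℝ} (hX : ∀ n, Measurable (X n))
    (h : ∀ n, 1 / 8 ≤ P.real {a | 1 / 2 ≤ X n a}) :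
    ¬ ∀ᵐ a ∂P, Tendsto (fun n => X n a) atTop (𝓝 0) := by
  intro h1
  have h2 := tendstoInMeasure_iff_measureReal_norm.1 (tendstoInMeasure_of_tendsto_ae
    (fun n => (hX n).aestronglyMeasurable) h1) (1 / 2) (by norm_num)
  obtain ⟨n, hn⟩ := (h2.eventually_lt_const (show (0 : ℝ) < 1 / 8 by norm_num)).exists
  have h3 : P.real {a | 1 / 2 ≤ X n a} ≤ P.real {a | 1 / 2 ≤ ‖X n a - 0‖} := by
    refine measureReal_mono (fun a ha => ?_) (measure_ne_top _ _)
    have ha' : 1 / 2 ≤ X n a := ha
    show 1 / 2 ≤ ‖X n a - 0‖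
    rw [sub_zero, Real.norm_eq_abs]
    exact ha'.trans (le_abs_self _)
  linarith [h n]

end Pool.Agent.MP_f3fa2b_pr
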