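import Pool.Agent.Lib.MP_f3fa2b_pr.Field

/-!
`E exp(2 (β X - λ(β))) → 1` as `β → 0+`.
-/

namespace Pool.Agent.MP_f3fa2b_pr

open MeasureTheory ProbabilityTheory Filter Topology
open scoped ENNReal

variable {Ω : Type*} [MeasurableSpace Ω] {P : Measure Ω} [IsProbabilityMeasure P] {X : Ω → ℝ}

theorem small_beta (hX : Measurable X) {b g₀ : ℝ} (hb : 0 < b) (hg : 1 < g₀)
    (hi : Integrable (fun a => Real.exp (b * X a)) P) :
    ∃ β₀ : ℝ, 0 < β₀ ∧ ∀ β : ℝ, 0 < β → β ≤ β₀ →
      Integrable (fun a => Real.exp (β * X a)) P ∧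
      Integrable (fun a => Real.exp (2 * β * X a)) P ∧
      ∫ a, gw β (cgf X P β) (X a) ^ 2 ∂P ≤ g₀ := by
  -- domination
  have hdom : ∀ s : ℝ, 0 ≤ s → s ≤ b → ∀ a, Real.exp (s * X a) ≤ 1 + Real.exp (b * X a) := by
    intro s hs hsb a
    rcases le_total 0 (X a) with h | h
    · have h1 : Real.exp (s * X a) ≤ Real.exp (b * X a) :=
        Real.exp_le_exp.mpr (mul_le_mul_of_nonneg_right hsb h)
      linarith
    · have h1 : Real.exp (s * X a) ≤ 1 := by
        rw [Real.exp_le_one_iff]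
        exact mul_nonpos_of_nonneg_of_nonpos hs h
      have h2 := Real.exp_pos (b * X a)
      linarith
  have hbi : Integrable (fun a => 1 + Real.exp (b * X a)) P := (integrable_const _).add hi
  have hint : ∀ s : ℝ, 0 ≤ s → s ≤ b → Integrable (fun a => Real.exp (s * X a)) P := by
    intro s hs hsb
    refine hbi.mono' ((hX.const_mul s).exp).aestronglyMeasurable (Eventually.of_forall fun a => ?_)
    rw [Real.norm_eq_abs, abs_of_pos (Real.exp_pos _)]
    exact hdom s hs hsb a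
  -- convergence of the moment generating function
  have hlim : Tendsto (fun s : ℝ => ∫ a, Real.exp (s * X a) ∂P) (𝓝[>] 0) (𝓝 1) := by
    have h1 : Tendsto (fun s : ℝ => ∫ a, Real.exp (s * X a) ∂P) (𝓝[>] 0)
        (𝓝 (∫ _, (1 : ℝ) ∂P)) := by
      refine tendsto_integral_filter_of_dominated_convergence
        (fun a => 1 + Real.exp (b * X a)) ?_ ?_ hbi ?_
      · exact Eventually.of_forall fun s => ((hX.const_mul s).exp).aestronglyMeasurable
      · filter_upwards [Ioo_mem_nhdsGT hb] with s hs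
        refine Eventually.of_forall fun a => ?_
        rw [Real.norm_eq_abs, abs_of_pos (Real.exp_pos _)]
        exact hdom s hs.1.le hs.2.le a
      · refine Eventually.of_forall fun a => ?_
        have h2 : ContinuousAt (fun s : ℝ => Real.exp (s * X a)) 0 := by fun_prop
        have h3 := h2.tendsto
        rw [zero_mul, Real.exp_zero] at h3
        exact h3.mono_left nhdsWithin_le_nhds
    simpa using h1
  have hlim2 : Tendsto (fun s : ℝ => ∫ a, Real.exp (2 * s * X a) ∂P) (𝓝[>] 0) (𝓝 1) := by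
    have h1 : Tendsto (fun s : ℝ => 2 * s) (𝓝[>] 0) (𝓝[>] 0) := by
      refine tendsto_nhdsWithin_iff.mpr ⟨?_, ?_⟩
      · have h2 : ContinuousAt (fun s : ℝ => 2 * s) 0 := by fun_prop
        have h3 := h2.tendsto
        rw [mul_zero] at h3
        exact h3.mono_left nhdsWithin_le_nhds
      · filter_upwards [self_mem_nhdsWithin] with s hs
        have hs0 : (0 : ℝ) < s := hs
        exact mul_pos two_pos hs0
    exact hlim.comp h1
  have hq : Tendsto (fun s : ℝ => (∫ a, Real.exp (2 * s * X a) ∂P) /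
      (∫ a, Real.exp (s * X a) ∂P) ^ 2) (𝓝[>] 0) (𝓝 1) := by
    have h1 := hlim2.div (hlim.pow 2) (by norm_num)
    rw [one_pow, div_one] at h1
    exact h1
  have hev : ∀ᶠ s : ℝ in 𝓝[>] 0, (∫ a, Real.exp (2 * s * X a) ∂P) /
      (∫ a, Real.exp (s * X a) ∂P) ^ 2 ≤ g₀ :=
    (hq.eventually (gt_mem_nhds hg)).mono fun s hs => hs.le
  obtain ⟨δ, hδ, hδ'⟩ := mem_nhdsGT_iff_exists_Ioo_subset.mp hev
  have hδ0 : 0 < δ := hδ
  refine ⟨min (δ / 2) (b / 2), by positivity, fun β hβ hβ' => ?_⟩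
  have hβδ : β < δ := by
    have := hβ'.trans (min_le_left _ _)
    linarith
  have hβb : β ≤ b / 2 := hβ'.trans (min_le_right _ _)
  have hi1 := hint β hβ.le (by linarith)
  have hi2 := hint (2 * β) (by linarith) (by linarith)
  refine ⟨hi1, hi2, ?_⟩
  have h := hδ' ⟨hβ, hβδ⟩
  have h' : (∫ a, Real.exp (2 * β * X a) ∂P) / (∫ a, Real.exp (β * X a) ∂P) ^ 2 ≤ g₀ := h
  have e : (fun a => gw β (cgf X P β) (X a) ^ 2) =
      fun a => Real.exp (2 * β * X a) * (Real.exp (-cgf X P β)) ^ 2 := by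
    funext a
    rw [gw, ← Real.exp_nat_mul, ← Real.exp_nat_mul, ← Real.exp_add]
    congr 1
    push_cast
    ring
  rw [e, integral_mul_const, Real.exp_neg, exp_cgf hi1, inv_pow, ← div_eq_mul_inv]
  exact h'

end Pool.Agent.MP_f3fa2b_pr
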