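import Pool.Agent.Lib.MP_f3fa2b_pr.FE.Pair
import Pool.Agent.Lib.MP_f3fa2b_pr.FE.Sec
import Pool.Agent.Lib.MP_f3fa2b_pr.FE.SmallB
import Pool.Agent.Lib.MP_f3fa2b_pr.Mart
import Pool.Agent.Lib.MP_f3fa2b_pr.Poly

/-!
Weak disorder on `ℤ^d`, `d ≥ 3`, for small `β`.
-/

namespace Pool.Agent.MP_f3fa2b_pr

open MeasureTheory ProbabilityTheory Filter Topology
open scoped ENNReal

variable {d : ℕ} {Ω : Type*} [MeasurableSpace Ω] {P : Measure Ω} [IsProbabilityMeasure P]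

private theorem weak_meas_ev0 {ω : ℕ → Vx d → Ω → ℝ} (h : IIDField P ω) :
    Measurable fun a => ev0 ω a :=
  measurable_pi_iff.2 fun i => measurable_pi_iff.2 fun y => h.meas i y

theorem weak_small (hd : 3 ≤ d) {ω : ℕ → Vx d → Ω → ℝ} (h : IIDField P ω) {b : ℝ} (hb : 0 < b)
    (hi : Integrable (fun a => Real.exp (b * ω 1 0 a)) P) :
    ∃ β₀ : ℝ, 0 < β₀ ∧ ∀ β : ℝ, 0 < β → β ≤ β₀ →
      Integrable (fun a => Real.exp (β * ω 1 0 a)) P ∧ WeakZd P ω β := by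
  obtain ⟨g₀, hg₀, hg⟩ := pair_le hd
  obtain ⟨β₀, hβ₀, hβ⟩ := small_beta (h.meas 1 0) hb hg₀ hi
  refine ⟨β₀, hβ₀, fun β h0 h1 => ?_⟩
  obtain ⟨i1, i2, i3⟩ := hβ β h0 h1
  refine ⟨i1, ?_⟩
  have hm : ∀ n, Measurable fun a => W (full d) β (cgf (ω 1 0) P β) (ev0 ω a) n :=
    fun n => (meas_W (full d) β (cgf (ω 1 0) P β) n).comp (weak_meas_ev0 h)
  refine not_tendsto (X := fun n a => W (full d) β (cgf (ω 1 0) P β) (ev0 ω a) n) hm fun n => ?_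
  have hdeg : 0 < deg (full d) (0 : Vx d) := by
    rw [deg_full]
    omega
  have hW := W_int hdeg h i1 n
  have hg0 : 0 ≤ ∫ a, gw β (cgf (ω 1 0) P β) (ω 1 0 a) ^ 2 ∂P :=
    integral_nonneg fun a => sq_nonneg _
  have hsq := W_sq h i1 i2 rfl (hg _ hg0 i3 n 0 0)
  exact half_le (hm n) (fun a => walkE_nonneg _ n 0 fun l => (Real.exp_pos _).le) hW.1 hW.2
    hsq.1 hsq.2

end Pool.Agent.MP_f3fa2b_pr
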