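import Pool.Agent.Lib.MP_f3fa2b_pr.FE.BoxMtp
import Pool.Agent.Lib.MP_f3fa2b_pr.FE.Slln
import Pool.Agent.Lib.MP_f3fa2b_pr.FE.Weak
import Pool.Agent.Lib.MP_f3fa2b_pr.Exist
import Pool.Agent.Lib.MP_f3fa2b_pr.Main

/-!
Strong disorder with zero free energy: assembly.
-/

namespace Pool.Agent.MP_f3fa2b_pr

open MeasureTheory ProbabilityTheory Filter Topology
open scoped ENNReal

universe u

variable {d : ℕ}

private theorem feMain_meas_modify (S O : Finset (Bond d)) :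
    Measurable (modify S O : Cfg d → Cfg d) := by
  refine measurable_pi_iff.mpr fun c => ?_
  by_cases hc : c ∈ S
  · simp only [modify, hc, if_true]
    exact measurable_const
  · simp only [modify, hc, if_false]
    exact measurable_pi_apply c

theorem boxes_exist [NeZero d] {μ : Measure (Cfg d)} [IsProbabilityMeasure μ] (h : TransInv μ)
    (he : FiniteEnergy μ) (r : ℕ) :
    ∀ᵐ η ∂μ, InfC η 0 → ∃ x ∈ cluster η 0, OpenBox η r x := by
  obtain ⟨O, M, hO⟩ := box_modify (d := d) r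
  have h1 : ∀ᵐ η ∂μ, ∀ p ∈ O, ¬ FewBoxes r M (modify (boxBonds d r) p.1 η) p.2 := by
    rw [Filter.eventually_all_finset]
    intro p _
    have h2 : ∀ᵐ η ∂μ, ¬ FewBoxes r M η p.2 := by
      rw [ae_iff]
      simpa using fewBoxes_null h r M p.2
    exact ae_of_ae_map (feMain_meas_modify _ _).aemeasurable ((map_modify_ac he _ _).ae_le h2)
  filter_upwards [h1] with η hη hinf
  by_contra hcon
  obtain ⟨p, hp, hf⟩ := hO η hinf fun v hv hc => hcon ⟨v, hv, hc⟩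
  exact hη p hp hf

/-- Both limits. -/
def SlowDecay.{v} (η : Cfg d) : Prop :=
  ∀ (Ω : Type v) [MeasurableSpace Ω] (P : Measure Ω) [IsProbabilityMeasure P]
    (ω : ℕ → Vx d → Ω → ℝ), IIDField P ω → Integrable (ω 1 0) P → ∀ β : ℝ, 0 < β →
    Integrable (fun a => Real.exp (β * ω 1 0 a)) P → WeakZd P ω β →
    ∀ᵐ a ∂P,
      Tendsto (fun n => W η β (cgf (ω 1 0) P β) (fun i x => ω i x a) n) atTop (𝓝 0) ∧
      Tendsto (fun n : ℕ => Real.log (W η β (cgf (ω 1 0) P β) (fun i x => ω i x a) n) / n)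
        atTop (𝓝 0)

theorem slow_of_boxes [NeZero d] {η : Cfg d} (hs : StrongDisorder.{u} η)
    (hη : ∀ r : ℕ, ∃ x ∈ cluster η 0, OpenBox η r x) : SlowDecay.{u} η := by
  intro Ω _ P _ ω h hω β hβ hi hw
  have h1 := hs Ω P ω h β hβ hi
  have h2 : ∀ᵐ a ∂P, ∀ j : ℕ, ∀ᶠ n : ℕ in atTop,
      -(1 / ((j : ℝ) + 1)) ≤ Real.log (W η β (cgf (ω 1 0) P β) (ev0 ω a) n) / n := by
    rw [ae_all_iff]
    exact fun j => lower_eps h hω hi hw hη (by positivity)
  filter_upwards [h1, h2] with a h1 h2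
  refine ⟨h1, ?_⟩
  rw [Metric.tendsto_nhds]
  intro ε hε
  obtain ⟨j, hj⟩ := exists_nat_one_div_lt hε
  filter_upwards [h2 j, h1.eventually (ge_mem_nhds zero_lt_one)] with n hn hn1
  have h0 : 0 ≤ W η β (cgf (ω 1 0) P β) (fun i x => ω i x a) n :=
    walkE_nonneg η n 0 fun _ => (Real.exp_pos _).le
  have h3 : Real.log (W η β (cgf (ω 1 0) P β) (fun i x => ω i x a) n) / n ≤ 0 :=
    div_nonpos_of_nonpos_of_nonneg (Real.log_nonpos h0 hn1) (Nat.cast_nonneg _)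
  rw [Real.dist_eq, sub_zero, abs_of_nonpos h3]
  have h4 : -(1 / ((j : ℝ) + 1)) ≤
      Real.log (W η β (cgf (ω 1 0) P β) (fun i x => ω i x a) n) / n := hn
  linarith

theorem fe_main :
    (∀ (d : ℕ) (μ : Measure (Cfg d)) [IsProbabilityMeasure μ], TransInv μ →
      FiniteEnergy μ → ∀ᵐ η ∂μ, (cluster η 0).Infinite → SlowDecay.{u} η) ∧
    ∀ d : ℕ, 3 ≤ d → ∀ (Ω : Type u) [MeasurableSpace Ω] (P : Measure Ω)
      [IsProbabilityMeasure P] (ω : ℕ → Vx d → Ω → ℝ), IIDField P ω → ∀ b : ℝ, 0 < b →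
      Integrable (fun a => Real.exp (b * ω 1 0 a)) P →
      ∃ β₀ : ℝ, 0 < β₀ ∧ ∀ β : ℝ, 0 < β → β ≤ β₀ →
        Integrable (fun a => Real.exp (β * ω 1 0 a)) P ∧ WeakZd P ω β := by
  refine ⟨?_, fun d hd Ω _ P _ ω h b hb hi => weak_small hd h hb hi⟩
  intro d μ hμ hT hF
  rcases Nat.eq_zero_or_pos d with rfl | hd
  · exact Eventually.of_forall fun η h => absurd (cluster_zero η) h
  · have : NeZero d := ⟨hd.ne'⟩
    have h1 := main.{u}.1 d μ hT hF
    have h2 : ∀ᵐ η ∂μ, ∀ r : ℕ, InfC η 0 → ∃ x ∈ cluster η 0, OpenBox η r x := by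
      rw [ae_all_iff]
      exact fun r => boxes_exist hT hF r
    filter_upwards [h1, h2] with η h1 h2 hi
    exact slow_of_boxes (h1 hi) fun r => h2 r hi

end Pool.Agent.MP_f3fa2b_pr
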