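import Pool.Agent.Lib.MP_f3fa2b_pr.FE.Super
import Pool.Agent.Lib.MP_f3fa2b_pr.FE.Basic

/-!
Two independent walks on `ℤ^d`, `d ≥ 3`: exponential moment of the number of meetings.
-/

namespace Pool.Agent.MP_f3fa2b_pr

variable {d : ℕ}

private theorem pair_neg (F : Vx d → ℝ) (w : Vx d) :
    ∑ s : Step d, F (w - vec s) = ∑ s : Step d, F (w + vec s) := by
  refine Finset.sum_bij' (fun s _ => ((s.1, !s.2) : Step d)) (fun s _ => ((s.1, !s.2) : Step d))
    (fun _ _ => Finset.mem_univ _) (fun _ _ => Finset.mem_univ _) ?_ ?_ ?_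
  · rintro ⟨i, b⟩ _
    simp
  · rintro ⟨i, b⟩ _
    simp
  · rintro ⟨i, b⟩ _
    cases b <;> simp [vec, sub_eq_add_neg]

/-- Two steps of `f`. -/
private theorem pair_two (hd : 3 ≤ d) {f : Vx d → ℝ}
    (hf : ∀ z, ∑ s : Step d, f (z + vec s) < 2 * d * f z) (z : Vx d) :
    ∑ s : Step d, ∑ s' : Step d, f (z + vec s - vec s') < (2 * d) ^ 2 * f z := by
  have hd0 : (0 : ℝ) < 2 * d := by
    have : (0 : ℝ) < d := by exact_mod_cast (by omega : 0 < d)
    positivity
  have h1 : ∑ s : Step d, ∑ s' : Step d, f (z + vec s - vec s') ≤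
      ∑ s : Step d, 2 * d * f (z + vec s) := by
    refine Finset.sum_le_sum fun s _ => ?_
    rw [pair_neg f (z + vec s)]
    exact (hf _).le
  have h2 : ∑ s : Step d, 2 * d * f (z + vec s) < (2 * d) ^ 2 * f z := by
    rw [← Finset.mul_sum, sq, mul_assoc (2 * (d : ℝ)) (2 * d)]
    exact mul_lt_mul_of_pos_left (hf z) hd0
  exact h1.trans_lt h2

private theorem pair_card (d : ℕ) : (Fintype.card (Step d) : ℝ) = 2 * d := by
  rw [Fintype.card_prod, Fintype.card_fin, Fintype.card_bool]
  push_cast
  ring

/-- Choice of `g₀`. -/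
private theorem pair_g (hd : 3 ≤ d) : ∃ H : Vx d → ℝ, (∀ z, 1 ≤ H z) ∧ (∀ z, H z ≤ 2) ∧
    ∃ g₀ : ℝ, 1 < g₀ ∧ ∀ g : ℝ, 0 ≤ g → g ≤ g₀ → ∀ z,
      ∑ s : Step d, ∑ s' : Step d,
        g ^ (if z + vec s - vec s' = 0 then 1 else 0) * H (z + vec s - vec s') ≤
        (2 * d) ^ 2 * H z := by
  classical
  obtain ⟨f, f0, f1, hf⟩ := exists_super hd
  have hd0 : (0 : ℝ) < 2 * d := by
    have : (0 : ℝ) < d := by exact_mod_cast (by omega : 0 < d)
    positivity
  have : Nonempty (Step d) := ⟨(⟨0, by omega⟩, true)⟩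
  obtain ⟨S, hS⟩ : ∃ S : Finset (Vx d), S =
      Finset.univ.image fun p : Step d × Step d => vec p.2 - vec p.1 := ⟨_, rfl⟩
  have hSne : S.Nonempty := by
    rw [hS]
    exact Finset.univ_nonempty.image _
  obtain ⟨δ, hδ0, hδ⟩ : ∃ δ : ℝ, 0 < δ ∧ ∀ z ∈ S,
      ∑ s : Step d, ∑ s' : Step d, f (z + vec s - vec s') + δ ≤ (2 * d) ^ 2 * f z := by
    obtain ⟨z0, hz0, hmin⟩ := S.exists_min_image (fun z => (2 * d) ^ 2 * f z -
      ∑ s : Step d, ∑ s' : Step d, f (z + vec s - vec s')) hSne
    refine ⟨(2 * d) ^ 2 * f z0 -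
      ∑ s : Step d, ∑ s' : Step d, f (z0 + vec s - vec s'), ?_, fun z hz => ?_⟩
    · have := pair_two hd hf z0
      linarith
    · have := hmin z hz
      linarith
  have hsum : ∀ z, ∑ s : Step d, ∑ s' : Step d, (1 + f (z + vec s - vec s')) =
      (2 * d) ^ 2 + ∑ s : Step d, ∑ s' : Step d, f (z + vec s - vec s') := by
    intro z
    simp only [Finset.sum_add_distrib, Finset.sum_const, Finset.card_univ, nsmul_eq_mul, mul_one,
      pair_card]
    ring
  refine ⟨fun z => 1 + f z, fun z => by linarith [f0 z], fun z => by linarith [f1 z],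
    1 + δ / (2 * (2 * d) ^ 2), by
      have : 0 < δ / (2 * (2 * (d : ℝ)) ^ 2) := by positivity
      linarith, fun g hg0 hg z => ?_⟩
  by_cases hz : z ∈ S
  · have h1 : ∀ s s' : Step d,
        g ^ (if z + vec s - vec s' = 0 then 1 else 0) * (1 + f (z + vec s - vec s')) ≤
        (1 + f (z + vec s - vec s')) + δ / (2 * d) ^ 2 := by
      intro s s'
      have a0 := f0 (z + vec s - vec s')
      have a1 := f1 (z + vec s - vec s')
      have hp : 0 ≤ δ / (2 * (d : ℝ)) ^ 2 := by positivity
      split_ifs with h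
      · rw [pow_one]
        have e : δ / (2 * (2 * (d : ℝ)) ^ 2) = δ / (2 * (d : ℝ)) ^ 2 / 2 := by
          rw [div_div, mul_comm]
        rw [e] at hg
        have h2 : (g - 1) * (1 + f (z + vec s - vec s')) ≤
            (δ / (2 * (d : ℝ)) ^ 2 / 2) * (1 + f (z + vec s - vec s')) :=
          mul_le_mul_of_nonneg_right (by linarith) (by linarith)
        have h3 : (δ / (2 * (d : ℝ)) ^ 2 / 2) * (1 + f (z + vec s - vec s')) ≤
            (δ / (2 * (d : ℝ)) ^ 2 / 2) * 2 :=
          mul_le_mul_of_nonneg_left (by linarith) (by linarith)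
        linarith
      · rw [pow_zero]
        linarith
    calc ∑ s : Step d, ∑ s' : Step d,
          g ^ (if z + vec s - vec s' = 0 then 1 else 0) * (1 + f (z + vec s - vec s'))
        ≤ ∑ s : Step d, ∑ s' : Step d, ((1 + f (z + vec s - vec s')) + δ / (2 * d) ^ 2) :=
          Finset.sum_le_sum fun s _ => Finset.sum_le_sum fun s' _ => h1 s s'
      _ = ∑ s : Step d, ∑ s' : Step d, (1 + f (z + vec s - vec s')) + δ := by
          simp only [Finset.sum_add_distrib, Finset.sum_const, Finset.card_univ, nsmul_eq_mul,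
            pair_card]
          field_simp
      _ ≤ (2 * d) ^ 2 * (1 + f z) := by
          rw [hsum]
          have := hδ z hz
          linarith
  · have h1 : ∀ s s' : Step d,
        g ^ (if z + vec s - vec s' = 0 then 1 else 0) * (1 + f (z + vec s - vec s')) =
        1 + f (z + vec s - vec s') := by
      intro s s'
      have h : ¬ (z + vec s - vec s' = 0) := by
        intro h
        apply hz
        rw [hS]
        refine Finset.mem_image.2 ⟨(s, s'), Finset.mem_univ _, ?_⟩
        have : z = vec s' - vec s := by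
          rw [sub_eq_zero] at h
          rw [← h]
          abel
        exact this.symm
      rw [if_neg h, pow_zero, one_mul]
    simp only [h1]
    rw [hsum]
    have := pair_two hd hf z
    linarith

private theorem pair_walk_succ (n : ℕ) (x : Vx d) (F : List (Vx d) → ℝ) :
    walkE (full d) (n + 1) x F =
      (∑ s : Step d, walkE (full d) n (x + vec s) (fun l => F ((x + vec s) :: l))) / (2 * d) := by
  have e : ∀ s : Step d, full d (bond x s) = true := fun _ => rfl
  simp only [walkE, e, if_true, deg_full]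
  push_cast
  rfl

private theorem pair_walk_sum (n : ℕ) (x : Vx d) (F : Step d → List (Vx d) → ℝ) :
    walkE (full d) n x (fun l => ∑ s, F s l) = ∑ s, walkE (full d) n x (F s) := by
  obtain ⟨S, w, h1, h2⟩ := walkE_eq_sum (full d) n x
  simp only [h2, Finset.mul_sum]
  exact Finset.sum_comm

private theorem pair_step (g : ℝ) (n : ℕ) (x x' : Vx d) :
    walkE (full d) (n + 1) x (fun l => walkE (full d) (n + 1) x' fun l' => g ^ coin l l') =
      (∑ s : Step d, ∑ s' : Step d, g ^ (if x - x' + vec s - vec s' = 0 then 1 else 0) *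
        walkE (full d) n (x + vec s) (fun l => walkE (full d) n (x' + vec s') fun l' =>
          g ^ coin l l')) / (2 * d) ^ 2 := by
  have key : ∀ s : Step d, walkE (full d) n (x + vec s)
      (fun l => walkE (full d) (n + 1) x' fun l' => g ^ coin ((x + vec s) :: l) l') =
      (∑ s' : Step d, g ^ (if x - x' + vec s - vec s' = 0 then 1 else 0) *
        walkE (full d) n (x + vec s) (fun l => walkE (full d) n (x' + vec s') fun l' =>
          g ^ coin l l')) / (2 * d) := by
    intro s
    have e1 : (fun l => walkE (full d) (n + 1) x' fun l' => g ^ coin ((x + vec s) :: l) l') =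
        fun l => (1 / (2 * d : ℝ)) * ∑ s' : Step d,
          (g ^ (if x - x' + vec s - vec s' = 0 then 1 else 0) *
            walkE (full d) n (x' + vec s') fun l' => g ^ coin l l') := by
      funext l
      rw [pair_walk_succ, div_eq_mul_one_div, mul_comm]
      congr 1
      refine Finset.sum_congr rfl fun s' _ => ?_
      rw [← walkE_mul]
      congr 1
      funext l'
      have e2 : x + vec s = x' + vec s' ↔ x - x' + vec s - vec s' = 0 := by
        have e3 : x - x' + vec s - vec s' = (x + vec s) - (x' + vec s') := by abel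
        rw [e3, sub_eq_zero]
      simp only [coin, e2, pow_add]
    rw [e1, walkE_mul, pair_walk_sum, div_eq_mul_one_div (∑ s' : Step d, _) (2 * (d : ℝ)),
      mul_comm (1 / (2 * (d : ℝ)))]
    congr 1
    refine Finset.sum_congr rfl fun s' _ => ?_
    rw [walkE_mul]
  rw [pair_walk_succ]
  simp only [key]
  rw [← Finset.sum_div, div_div, sq]

/-- `H = 1 + f` satisfies `(2d)^{-2} ∑_{s,s'} g^{1(z' = 0)} H(z') ≤ H(z)`, `z' = z + vec s - vec s'`,
for `g` close to `1`: two steps of `f`, strict inequality at the finitely many `z` from which `0`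
can be reached in two steps. Then `≤ H(x - x')` by induction on `n`. -/
theorem pair_le (hd : 3 ≤ d) : ∃ g₀ : ℝ, 1 < g₀ ∧ ∀ g : ℝ, 0 ≤ g → g ≤ g₀ →
    ∀ (n : ℕ) (x x' : Vx d),
      walkE (full d) n x (fun l => walkE (full d) n x' fun l' => g ^ coin l l') ≤ 2 := by
  obtain ⟨H, H1, H2, g₀, hg1, hg⟩ := pair_g hd
  refine ⟨g₀, hg1, fun g g0 gg n => ?_⟩
  have key : ∀ x x' : Vx d,
      walkE (full d) n x (fun l => walkE (full d) n x' fun l' => g ^ coin l l') ≤ H (x - x') := by
    induction n with
    | zero =>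
      intro x x'
      have : walkE (full d) 0 x (fun l => walkE (full d) 0 x' fun l' => g ^ coin l l') = 1 := by
        simp only [walkE, coin, pow_zero]
      rw [this]
      exact H1 _
    | succ n ih =>
      intro x x'
      rw [pair_step]
      have hd0 : (0 : ℝ) < (2 * d) ^ 2 := by
        have : (0 : ℝ) < d := by exact_mod_cast (by omega : 0 < d)
        positivity
      rw [div_le_iff₀ hd0, mul_comm (H (x - x'))]
      refine le_trans (Finset.sum_le_sum fun s _ => Finset.sum_le_sum fun s' _ => ?_)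
        (hg g g0 gg (x - x'))
      refine mul_le_mul_of_nonneg_left ?_ (pow_nonneg g0 _)
      have := ih (x + vec s) (x' + vec s')
      have e : x + vec s - (x' + vec s') = x - x' + vec s - vec s' := by abel
      rw [e] at this
      exact this
  intro x x'
  exact (key x x').trans (H2 _)

end Pool.Agent.MP_f3fa2b_pr
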