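import Pool.Agent.Lib.MP_f3fa2b_pr.FE.Zero
import Pool.Agent.Lib.MP_f3fa2b_pr.Mart

/-!
In weak disorder the partition function of `ℤ^d` is bounded below with large probability.
-/

namespace Pool.Agent.MP_f3fa2b_pr

open MeasureTheory ProbabilityTheory Filter Topology
open scoped ENNReal

variable {d : ℕ} {Ω : Type*} [MeasurableSpace Ω] {P : Measure Ω} [IsProbabilityMeasure P]

/-- A nonnegative martingale converges almost surely. -/
private theorem pos_lim {X : Type*} {m0 : MeasurableSpace X} {Q : Measure X}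
    [IsProbabilityMeasure Q] {ℱ : Filtration ℕ m0} {f : ℕ → X → ℝ} (hf : Martingale f ℱ Q)
    (h0 : ∀ n a, 0 ≤ f n a) :
    ∃ g : X → ℝ, Measurable g ∧ ∀ᵐ a ∂Q, Tendsto (fun n => f n a) atTop (𝓝 (g a)) := by
  have hbdd : ∀ n, eLpNorm (f n) 1 Q ≤ ((∫ a, f 0 a ∂Q).toNNReal : ℝ≥0∞) := by
    intro n
    have hint : ∫ a, f n a ∂Q = ∫ a, f 0 a ∂Q := by
      have h1 := hf.setIntegral_eq (Nat.zero_le n) (s := Set.univ) MeasurableSet.univ
      simpa using h1.symm
    rw [eLpNorm_one_eq_lintegral_enorm]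
    have h2 : ∫⁻ a, ‖f n a‖ₑ ∂Q = ENNReal.ofReal (∫ a, f n a ∂Q) := by
      rw [ofReal_integral_eq_lintegral_ofReal (hf.integrable n) (ae_of_all _ (h0 n))]
      refine lintegral_congr fun a => ?_
      exact Real.enorm_of_nonneg (h0 n a)
    rw [h2, hint]
    exact le_of_eq rfl
  refine ⟨ℱ.limitProcess f Q, ?_, hf.submartingale.ae_tendsto_limitProcess hbdd⟩
  exact (Filtration.stronglyMeasurable_limit_process'.measurable)

/-- The martingale converges to a limit which is almost surely positive (`zero_one`). -/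
theorem W_pos [NeZero d] {ω : ℕ → Vx d → Ω → ℝ} (h : IIDField P ω) {β : ℝ}
    (hi : Integrable (fun a => Real.exp (β * ω 1 0 a)) P) (hw : WeakZd P ω β) {ρ : ℝ}
    (hρ : 0 < ρ) :
    ∃ δ : ℝ, 0 < δ ∧ δ ≤ 1 ∧ ∃ N : ℕ, ∀ n ≥ N,
      P.real {a | W (full d) β (cgf (ω 1 0) P β) (ev0 ω a) n < δ} ≤ ρ := by
  have hd : 0 < deg (full d) (0 : Vx d) := by
    rw [deg_full]
    have := NeZero.pos d
    omega
  have hmart := W_mart hd h hi
  have h0 : ∀ n a, 0 ≤ W (full d) β (cgf (ω 1 0) P β) (fun i x => ω i x a) n := fun n a => by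
    rw [W_eq_wd]
    exact walkE_nonneg _ _ _ fun l => (wd_pos _ _ _ _).le
  obtain ⟨g, hgm, hg⟩ := pos_lim hmart h0
  have hz : ∀ᵐ a ∂P, ¬ Tendsto (fun n => W (full d) β (cgf (ω 1 0) P β) (ev0 ω a) n) atTop
      (𝓝 0) := by
    rcases zero_one h β (cgf (ω 1 0) P β) with h1 | h1
    · exact absurd h1 hw
    · exact h1
  have hgp : ∀ᵐ a ∂P, 0 < g a := by
    filter_upwards [hg, hz] with a ha hb
    have h1 : 0 ≤ g a := ge_of_tendsto' ha fun n => h0 n a
    rcases h1.lt_or_eq with h2 | h2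
    · exact h2
    · rw [← h2] at ha
      exact absurd ha hb
  have hρ2 : (0 : ℝ≥0∞) < ENNReal.ofReal (ρ / 2) := ENNReal.ofReal_pos.2 (by positivity)
  have hlim : Tendsto (fun k : ℕ => P {a | g a ≤ 2 * (1 / ((k : ℝ) + 1))}) atTop (𝓝 0) := by
    have hint : ⋂ k : ℕ, {a | g a ≤ 2 * (1 / ((k : ℝ) + 1))} ⊆ {a | ¬ 0 < g a} := by
      intro a ha
      rw [Set.mem_iInter] at ha
      have h1 : Tendsto (fun k : ℕ => 2 * (1 / ((k : ℝ) + 1))) atTop (𝓝 0) := by
        have h2 := tendsto_one_div_add_atTop_nhds_zero_nat (𝕜 := ℝ)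
        have h3 := h2.const_mul 2
        rw [mul_zero] at h3
        exact h3
      exact not_lt.2 (ge_of_tendsto' h1 fun k => ha k)
    have h2 : P (⋂ k : ℕ, {a | g a ≤ 2 * (1 / ((k : ℝ) + 1))}) = 0 :=
      measure_mono_null hint (ae_iff.1 hgp)
    rw [← h2]
    refine tendsto_measure_iInter_atTop (fun k => ?_) ?_ ⟨0, measure_ne_top _ _⟩
    · exact (measurableSet_le hgm measurable_const).nullMeasurableSet
    · intro m n hmn a ha
      have ha' : g a ≤ 2 * (1 / ((n : ℝ) + 1)) := ha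
      have h3 : (1 : ℝ) / ((n : ℝ) + 1) ≤ 1 / ((m : ℝ) + 1) :=
        Nat.one_div_le_one_div hmn
      show g a ≤ 2 * (1 / ((m : ℝ) + 1))
      linarith
  obtain ⟨k, hk⟩ := ((tendsto_order.1 hlim).2 _ hρ2).exists
  obtain ⟨δ, hδ⟩ : ∃ δ : ℝ, δ = 1 / ((k : ℝ) + 1) := ⟨_, rfl⟩
  rw [← hδ] at hk
  have hδ0 : 0 < δ := by
    rw [hδ]
    positivity
  have hδ1 : δ ≤ 1 := by
    rw [hδ, div_le_one (by positivity)]
    have : (0 : ℝ) ≤ k := Nat.cast_nonneg k
    linarith
  have him : TendstoInMeasure P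
      (fun n a => W (full d) β (cgf (ω 1 0) P β) (fun i x => ω i x a) n) atTop g :=
    tendstoInMeasure_of_tendsto_ae (fun n => (hmart.integrable n).aestronglyMeasurable) hg
  rw [tendstoInMeasure_iff_dist] at him
  obtain ⟨N, hN⟩ := eventually_atTop.1 ((tendsto_order.1 (him δ hδ0)).2 _ hρ2)
  refine ⟨δ, hδ0, hδ1, N, fun n hn => ?_⟩
  have hsub : {a | W (full d) β (cgf (ω 1 0) P β) (ev0 ω a) n < δ} ⊆
      {a | g a ≤ 2 * δ} ∪
        {a | δ ≤ dist (W (full d) β (cgf (ω 1 0) P β) (fun i x => ω i x a) n) (g a)} := by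
    intro a ha
    have ha' : W (full d) β (cgf (ω 1 0) P β) (fun i x => ω i x a) n < δ := ha
    by_cases hga : g a ≤ 2 * δ
    · exact Or.inl hga
    · right
      show δ ≤ dist (W (full d) β (cgf (ω 1 0) P β) (fun i x => ω i x a) n) (g a)
      rw [Real.dist_eq, abs_sub_comm]
      refine le_trans ?_ (le_abs_self _)
      linarith [not_le.1 hga]
  have hle : P {a | W (full d) β (cgf (ω 1 0) P β) (ev0 ω a) n < δ} ≤ ENNReal.ofReal ρ := by
    refine (measure_mono hsub).trans ((measure_union_le _ _).trans ?_)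
    have h4 : ENNReal.ofReal ρ = ENNReal.ofReal (ρ / 2) + ENNReal.ofReal (ρ / 2) := by
      rw [← ENNReal.ofReal_add (by positivity) (by positivity), add_halves]
    rw [h4]
    exact add_le_add hk.le (hN n hn).le
  exact ENNReal.toReal_le_of_le_ofReal hρ.le hle

end Pool.Agent.MP_f3fa2b_pr
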