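import Pool.Agent.Lib.MP_f3fa2b_pr.FE.Basic

/-!
Paths of `ℤ^d` in a box.
-/

namespace Pool.Agent.MP_f3fa2b_pr

variable {d : ℕ}

private theorem ret_sum_vec (s : Step d) : ∑ i, vec s i = if s.2 then 1 else -1 := by
  unfold vec ev
  split_ifs with h
  · simp
  · simp

private theorem ret_par {x : Vx d} {l : List (Vx d)} (hl : Pth (full d) x l) :
    Even (∑ i, (lst x l i - x i) + (l.length : ℤ)) := by
  induction l generalizing x with
  | nil => simp [lst_nil]
  | cons y l ih =>
    obtain ⟨⟨s, -, hs⟩, h2⟩ := hl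
    have h3 := ih h2
    rw [lst_cons]
    have h4 : ∑ i, (lst y l i - x i) = ∑ i, (lst y l i - y i) + ∑ i, vec s i := by
      rw [← Finset.sum_add_distrib]
      refine Finset.sum_congr rfl fun i _ => ?_
      rw [hs, Pi.add_apply]
      ring
    rw [h4, ret_sum_vec, List.length_cons]
    push_cast
    split_ifs with h
    · have h5 : ∑ i, (lst y l i - y i) + 1 + ((l.length : ℤ) + 1) =
          ∑ i, (lst y l i - y i) + (l.length : ℤ) + 2 := by ring
      rw [h5]
      exact h3.add even_two
    · have h5 : ∑ i, (lst y l i - y i) + -1 + ((l.length : ℤ) + 1) =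
          ∑ i, (lst y l i - y i) + (l.length : ℤ) := by ring
      rw [h5]
      exact h3

theorem par_walk {x : Vx d} {l : List (Vx d)} (hl : Pth (full d) x l) (he : Even l.length) :
    Even (∑ i, (lst x l i - x i)) := by
  have h1 := ret_par hl
  have h2 : Even (l.length : ℤ) := by exact_mod_cast he
  exact (Int.even_add.1 h1).2 h2

private theorem ret_vec_t (i : Fin d) : vec ((i, true) : Step d) = ev i := by simp [vec]

private theorem ret_vec_f (i : Fin d) : vec ((i, false) : Step d) = -ev i := by simp [vec]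

private theorem ret_pth_append {x : Vx d} {l l' : List (Vx d)} (h : Pth (full d) x l)
    (h' : Pth (full d) (lst x l) l') : Pth (full d) x (l ++ l') := (pth_append _ _ _ _).2 ⟨h, h'⟩

/-- The path `x + e1, x, x + e1, ...`. -/
theorem exists_triv [NeZero d] {r : ℕ} (hr : 1 ≤ r) (x : Vx d) (n : ℕ) :
    ∃ l : List (Vx d), l.length = n ∧ Pth (full d) x l ∧ (∀ u ∈ l, InBox r x u) ∧
      (Even n → lst x l = x) := by
  have i0 : Fin d := ⟨0, Nat.pos_of_ne_zero (NeZero.ne d)⟩
  have hx : InBox r x x := fun i => by simp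
  have hy : InBox r x (x + ev i0) := fun i => by
    rw [Pi.add_apply, add_sub_cancel_left]
    have hr' : (1 : ℤ) ≤ r := by exact_mod_cast hr
    by_cases h : i = i0
    · subst h
      simp only [ev, Pi.single_eq_same, abs_one]
      exact hr'
    · simp only [ev, Pi.single_eq_of_ne h, abs_zero]
      exact Nat.cast_nonneg r
  have h1 : ∃ s : Step d, full d (bond x s) = true ∧ x + ev i0 = x + vec s :=
    ⟨(i0, true), rfl, by rw [ret_vec_t]⟩
  have h2 : ∃ s : Step d, full d (bond (x + ev i0) s) = true ∧ x = x + ev i0 + vec s :=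
    ⟨(i0, false), rfl, by rw [ret_vec_f, add_neg_cancel_right]⟩
  induction n using Nat.strong_induction_on with
  | _ n ih =>
    match n, ih with
    | 0, _ => exact ⟨[], rfl, trivial, fun u hu => absurd hu List.not_mem_nil, fun _ => rfl⟩
    | 1, _ =>
      refine ⟨[x + ev i0], rfl, ⟨h1, trivial⟩, fun u hu => ?_, fun h => absurd h (by decide)⟩
      rw [List.mem_singleton.1 hu]
      exact hy
    | n + 2, ih =>
      obtain ⟨l, a1, a2, a3, a4⟩ := ih n (by omega)
      refine ⟨(x + ev i0) :: x :: l, by rw [List.length_cons, List.length_cons, a1],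
        ⟨h1, h2, a2⟩, fun u hu => ?_, fun h => ?_⟩
      · rcases List.mem_cons.1 hu with h | h
        · rw [h]; exact hy
        · rcases List.mem_cons.1 h with h | h
          · rw [h]; exact hx
          · exact a3 u h
      · rw [lst_cons, lst_cons]
        exact a4 ((Nat.even_add.1 h).2 even_two)

private theorem ret_aux {r : ℕ} (x : Vx d) (k : ℕ) : ∀ y : Vx d, InBox r x y →
    ∑ i, (y i - x i).natAbs = k → ∃ l : List (Vx d), l.length = k ∧ Pth (full d) y l ∧
      lst y l = x ∧ ∀ u ∈ l, InBox r x u := by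
  induction k with
  | zero =>
    intro y _ hk
    refine ⟨[], rfl, trivial, ?_, fun u hu => absurd hu List.not_mem_nil⟩
    rw [lst_nil]
    funext i
    have h1 := (Finset.sum_eq_zero_iff.1 hk) i (Finset.mem_univ i)
    omega
  | succ k ih =>
    intro y hy hk
    obtain ⟨i, hi⟩ : ∃ i, y i ≠ x i := by
      by_contra h
      push Not at h
      rw [Finset.sum_eq_zero (fun i _ => by rw [h i, sub_self]; rfl)] at hk
      exact absurd hk (by omega)
    obtain ⟨s, hs1, hs2⟩ : ∃ s : Step d, (y i + vec s i - x i).natAbs + 1 = (y i - x i).natAbs ∧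
        ∀ j, j ≠ i → vec s j = 0 := by
      rcases lt_or_gt_of_ne hi with h | h
      · refine ⟨(i, true), ?_, fun j hj => ?_⟩
        · rw [ret_vec_t]
          simp only [ev, Pi.single_eq_same]
          omega
        · rw [ret_vec_t]
          simp only [ev, Pi.single_eq_of_ne hj]
      · refine ⟨(i, false), ?_, fun j hj => ?_⟩
        · rw [ret_vec_f]
          simp only [ev, Pi.neg_apply, Pi.single_eq_same]
          omega
        · rw [ret_vec_f]
          simp only [ev, Pi.neg_apply, Pi.single_eq_of_ne hj, neg_zero]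
    have hj : ∀ j, j ≠ i → (y + vec s) j = y j := fun j h => by
      rw [Pi.add_apply, hs2 j h, add_zero]
    have hbox : InBox r x (y + vec s) := fun j => by
      by_cases h : j = i
      · subst h
        have h1 := hy j
        have h2 : |(y + vec s) j - x j| ≤ |y j - x j| := by
          rw [Pi.add_apply, Int.abs_eq_natAbs, Int.abs_eq_natAbs]
          omega
        exact h2.trans h1
      · rw [hj j h]
        exact hy j
    have hsum : ∑ j, ((y + vec s) j - x j).natAbs = k := by
      rw [← Finset.add_sum_erase _ _ (Finset.mem_univ i)] at hk ⊢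
      have h1 : ∑ j ∈ Finset.univ.erase i, ((y + vec s) j - x j).natAbs =
          ∑ j ∈ Finset.univ.erase i, (y j - x j).natAbs :=
        Finset.sum_congr rfl fun j h => by rw [hj j (Finset.ne_of_mem_erase h)]
      rw [h1, Pi.add_apply]
      omega
    obtain ⟨l, a1, a2, a3, a4⟩ := ih (y + vec s) hbox hsum
    refine ⟨(y + vec s) :: l, by rw [List.length_cons, a1], ⟨⟨s, rfl, rfl⟩, a2⟩, ?_,
      fun u hu => ?_⟩
    · rw [lst_cons]
      exact a3
    · rcases List.mem_cons.1 hu with h | h
      · rw [h]; exact hbox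
      · exact a4 u h

/-- A path of length exactly `2 d r` from a point of the box at even distance to the centre. -/
theorem exists_ret [NeZero d] {r : ℕ} (hr : 1 ≤ r) {x y : Vx d} (hy : y ∈ Evb r x) :
    ∃ l : List (Vx d), l.length = 2 * d * r ∧ Pth (full d) y l ∧ lst y l = x ∧
      ∀ u ∈ l, InBox r x u := by
  obtain ⟨hb, he⟩ := mem_Evb.1 hy
  obtain ⟨l, a1, a2, a3, a4⟩ := ret_aux x _ y hb rfl
  have h1 : ∑ i, (y i - x i).natAbs ≤ d * r := by
    calc ∑ i, (y i - x i).natAbs ≤ ∑ _i : Fin d, r := Finset.sum_le_sum fun i _ => by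
          have h := hb i
          rw [Int.abs_eq_natAbs] at h
          exact_mod_cast h
      _ = d * r := by rw [Finset.sum_const, Finset.card_univ, Fintype.card_fin, smul_eq_mul]
  have h2 : Even (∑ i, (y i - x i).natAbs) := by
    have h3 : ((∑ i, (y i - x i).natAbs : ℕ) : ℤ) = ∑ i, |y i - x i| := by
      push_cast
      rfl
    have h4 : Even (∑ i, |y i - x i| - ∑ i, (y i - x i)) := by
      rw [← Finset.sum_sub_distrib]
      refine Finset.even_sum _ fun i _ => ?_
      rcases abs_cases (y i - x i) with h | h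
      · rw [h.1, sub_self]; exact Even.zero
      · rw [h.1]; exact ⟨-(y i - x i), by ring⟩
    have h5 : Even (∑ i, |y i - x i|) := (Int.even_sub.1 h4).2 he
    rw [← h3] at h5
    exact_mod_cast h5
  have h6 : ∑ i, (y i - x i).natAbs ≤ 2 * d * r := h1.trans (by nlinarith)
  obtain ⟨l', b1, b2, b3, b4⟩ := exists_triv hr x (2 * d * r - ∑ i, (y i - x i).natAbs)
  have h7 : Even (2 * d * r - ∑ i, (y i - x i).natAbs) := by
    refine (Nat.even_sub h6).2 ⟨fun _ => h2, fun _ => ?_⟩
    rw [mul_assoc]
    exact even_two_mul _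
  refine ⟨l ++ l', ?_, ret_pth_append a2 (by rw [a3]; exact b2), ?_, fun u hu => ?_⟩
  · rw [List.length_append, a1, b1]
    omega
  · rw [lst_append, a3]
    exact b4 h7
  · rcases List.mem_append.1 hu with h | h
    · exact a4 u h
    · exact b3 u h

end Pool.Agent.MP_f3fa2b_pr
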