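import Pool.Agent.Lib.MP_f3fa2b_pr.Defs

/-!
A bounded strictly superharmonic function on `ℤ^d`, `d ≥ 3` (transience).
-/

namespace Pool.Agent.MP_f3fa2b_pr

variable {d : ℕ}

private theorem super_aux {y c t : ℝ} (h : |y| ≤ 1 / 16) (hc : |c| ≤ 1 / 2) (ht : |t| ≤ 1) :
    |c + y * t| ≤ 1 := by
  have h1 : |y * t| ≤ 1 / 16 := by
    rw [abs_mul]
    nlinarith [abs_nonneg y, abs_nonneg t]
  calc |c + y * t| ≤ |c| + |y * t| := abs_add_le _ _
    _ ≤ 1 := by linarith

/-- Fourth powers: `(1 + y) (1 - y/4 + 11 y²/64)⁴ ≥ 1` for `|y| ≤ 1/16`. -/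
theorem quarter_bound {y : ℝ} (h : |y| ≤ 1 / 16) :
    (1 + y) ^ (-(1 / 4) : ℝ) ≤ 1 - y / 4 + 11 / 64 * y ^ 2 := by
  obtain ⟨h1, h2⟩ := abs_le.1 h
  set g : ℝ := 1 - y / 4 + 11 / 64 * y ^ 2 with hg
  have hg1 : 0 < g := by
    have : 0 ≤ y ^ 2 := sq_nonneg y
    rw [hg]; linarith
  have hy : 0 < 1 + y := by linarith
  have key : 1 ≤ (1 + y) * g ^ 4 := by
    have hc : ∀ c : ℝ, -(1 / 2) ≤ c → c ≤ 1 / 2 → |c| ≤ 1 / 2 := fun c h3 h4 => abs_le.2 ⟨h3, h4⟩
    have t7 : |(14641 / 16777216 : ℝ)| ≤ 1 := by rw [abs_of_nonneg] <;> norm_num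
    have t6 := super_aux h (hc (-70543 / 16777216) (by norm_num) (by norm_num)) t7
    have t5 := super_aux h (hc (6897 / 262144) (by norm_num) (by norm_num)) t6
    have t4 := super_aux h (hc (-4455 / 65536) (by norm_num) (by norm_num)) t5
    have t3 := super_aux h (hc (863 / 4096) (by norm_num) (by norm_num)) t4
    have t2 := super_aux h (hc (-549 / 2048) (by norm_num) (by norm_num)) t3
    have t1 := super_aux h (hc (31 / 64) (by norm_num) (by norm_num)) t2
    set k : ℝ := 31 / 64 + y * (-549 / 2048 + y * (863 / 4096 + y * (-4455 / 65536 +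
      y * (6897 / 262144 + y * (-70543 / 16777216 + y * (14641 / 16777216)))))) with hk
    have e : (1 + y) * g ^ 4 = 1 + y ^ 2 * (1 / 16 + y * k) := by
      rw [hg, hk]; ring
    have h3 : |y * k| ≤ 1 / 16 := by
      rw [abs_mul]
      nlinarith [abs_nonneg y, abs_nonneg k]
    have h4 : 0 ≤ y ^ 2 * (1 / 16 + y * k) :=
      mul_nonneg (sq_nonneg y) (by linarith [(abs_le.1 h3).1])
    rw [e]; linarith
  have h4 : ((1 + y) ^ (-(1 / 4) : ℝ)) ^ 4 = (1 + y)⁻¹ := by
    rw [← Real.rpow_natCast, ← Real.rpow_mul hy.le]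
    norm_num
    rw [Real.rpow_neg_one]
  have h5 : ((1 + y) ^ (-(1 / 4) : ℝ)) ^ 4 ≤ g ^ 4 := by
    rw [h4, inv_le_iff_one_le_mul₀ hy]
    linarith [key]
  exact le_of_pow_le_pow_left₀ (by norm_num) hg1.le h5

private theorem super_bern {u : ℝ} (h0 : 0 < u) (h1 : u ≤ 1 / 256) :
    1 + u / 4 ≤ (1 - u) ^ (-(1 / 4) : ℝ) := by
  have hy : 0 < 1 - u := by linarith
  have h4 : ((1 - u) ^ (-(1 / 4) : ℝ)) ^ 4 = (1 - u)⁻¹ := by
    rw [← Real.rpow_natCast, ← Real.rpow_mul hy.le]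
    norm_num
    rw [Real.rpow_neg_one]
  have h5 : (1 + u / 4) ^ 4 ≤ ((1 - u) ^ (-(1 / 4) : ℝ)) ^ 4 := by
    rw [h4, le_inv_comm₀ (by positivity) hy]
    rw [inv_eq_one_div, le_div_iff₀ (by positivity)]
    nlinarith [mul_pos h0 h0, mul_pos (mul_pos h0 h0) h0, mul_pos (mul_pos h0 h0) (mul_pos h0 h0),
      mul_pos (mul_pos (mul_pos h0 h0) (mul_pos h0 h0)) h0]
  exact le_of_pow_le_pow_left₀ (by norm_num) (Real.rpow_nonneg hy.le _) h5

private theorem super_step (z : Vx d) (i : Fin d) (b : Bool) :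
    ∑ k, (((z + vec (i, b)) k : ℤ) : ℝ) ^ 2 =
      ∑ k, ((z k : ℤ) : ℝ) ^ 2 + (if b then 2 * (z i : ℝ) else -(2 * (z i : ℝ))) + 1 := by
  classical
  have h : ∀ k, (((z + vec (i, b)) k : ℤ) : ℝ) ^ 2 = ((z k : ℤ) : ℝ) ^ 2 +
      (if k = i then (if b then 2 * (z i : ℝ) else -(2 * (z i : ℝ))) + 1 else 0) := by
    intro k
    by_cases hk : k = i
    · subst hk
      cases b
      · simp only [Pi.add_apply, vec, ev, Bool.false_eq_true, if_false, Pi.neg_apply,
          Pi.single_eq_same, if_true]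
        push_cast
        ring
      · simp only [Pi.add_apply, vec, ev, if_true, Pi.single_eq_same]
        push_cast
        ring
    · cases b
      · simp only [Pi.add_apply, vec, ev, Bool.false_eq_true, if_false, Pi.neg_apply,
          Pi.single_eq_of_ne hk, if_neg hk]
        push_cast
        ring
      · simp only [Pi.add_apply, vec, ev, if_true, Pi.single_eq_of_ne hk, if_neg hk]
        push_cast
        ring
  rw [Finset.sum_congr rfl fun k _ => h k, Finset.sum_add_distrib, Finset.sum_ite_eq',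
    if_pos (Finset.mem_univ i)]
  ring

/-- `f(z) = (255 + |z|²)^(-1/4)`. With `v = 256 + |z|²` and `y_i = 2 z_i / v`, `|y_i| ≤ 1/16`, one
has `∑_s f(z + vec s) = v^(-1/4) ∑_i ((1 + y_i)^(-1/4) + (1 - y_i)^(-1/4))
≤ v^(-1/4) (2 d + (11/32) ∑ y_i²)`, `∑ y_i² ≤ 4/v`, and `f(z) ≥ v^(-1/4) (1 + 1/(4v))`. -/
theorem exists_super (hd : 3 ≤ d) :
    ∃ f : Vx d → ℝ, (∀ z, 0 ≤ f z) ∧ (∀ z, f z ≤ 1) ∧
      ∀ z, ∑ s : Step d, f (z + vec s) < 2 * d * f z := by
  classical
  have hN : ∀ z : Vx d, 0 ≤ ∑ k, ((z k : ℤ) : ℝ) ^ 2 := fun z =>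
    Finset.sum_nonneg fun k _ => sq_nonneg _
  refine ⟨fun z => (255 + ∑ k, ((z k : ℤ) : ℝ) ^ 2) ^ (-(1 / 4) : ℝ), fun z => ?_, fun z => ?_,
    fun z => ?_⟩
  · exact Real.rpow_nonneg (by linarith [hN z]) _
  · exact Real.rpow_le_one_of_one_le_of_nonpos (by linarith [hN z]) (by norm_num)
  · set v : ℝ := 256 + ∑ k, ((z k : ℤ) : ℝ) ^ 2 with hv
    have hv0 : 256 ≤ v := by rw [hv]; linarith [hN z]
    have hvp : 0 < v := by linarith
    set y : Fin d → ℝ := fun i => 2 * (z i : ℝ) / v with hy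
    have hsq : ∀ i, ((z i : ℤ) : ℝ) ^ 2 ≤ v - 256 := by
      intro i
      rw [hv]
      have := Finset.single_le_sum (f := fun k => ((z k : ℤ) : ℝ) ^ 2)
        (fun k _ => sq_nonneg _) (Finset.mem_univ i)
      linarith
    have hyb : ∀ i, |y i| ≤ 1 / 16 := by
      intro i
      have h1 := hsq i
      show |2 * (z i : ℝ) / v| ≤ 1 / 16
      rw [abs_div, abs_of_pos hvp, div_le_iff₀ hvp, abs_mul, abs_two]
      have h2 : |((z i : ℤ) : ℝ)| ^ 2 = ((z i : ℤ) : ℝ) ^ 2 := sq_abs _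
      nlinarith [sq_nonneg (|((z i : ℤ) : ℝ)| - 16)]
    set V : ℝ := v ^ (-(1 / 4) : ℝ) with hV
    have hVp : 0 < V := Real.rpow_pos_of_pos hvp _
    -- the neighbours
    have hs : ∀ (i : Fin d) (b : Bool),
        (255 + ∑ k, (((z + vec (i, b)) k : ℤ) : ℝ) ^ 2) ^ (-(1 / 4) : ℝ) ≤
          V * (1 + (if b then -(y i / 4) else y i / 4) + 11 / 64 * (y i) ^ 2) := by
      intro i b
      have hyi := hyb i
      obtain ⟨ha, hb'⟩ := abs_le.1 hyi
      rw [super_step]
      cases b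
      · have e : 255 + (∑ k, ((z k : ℤ) : ℝ) ^ 2 + (if false = true then 2 * (z i : ℝ)
            else -(2 * (z i : ℝ))) + 1) = v * (1 + -(y i)) := by
          have : v * y i = 2 * (z i : ℝ) := by rw [hy]; field_simp
          simp only [Bool.false_eq_true, if_false]
          linarith
        rw [e, Real.mul_rpow hvp.le (by linarith)]
        refine mul_le_mul_of_nonneg_left ?_ hVp.le
        have := quarter_bound (y := -(y i)) (by rw [abs_neg]; exact hyi)
        simp only [Bool.false_eq_true, if_false]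
        calc (1 + -(y i)) ^ (-(1 / 4) : ℝ) ≤ _ := this
          _ = _ := by ring
      · have e : 255 + (∑ k, ((z k : ℤ) : ℝ) ^ 2 + (if true = true then 2 * (z i : ℝ)
            else -(2 * (z i : ℝ))) + 1) = v * (1 + y i) := by
          have : v * y i = 2 * (z i : ℝ) := by rw [hy]; field_simp
          simp only [if_true]
          linarith
        rw [e, Real.mul_rpow hvp.le (by linarith)]
        refine mul_le_mul_of_nonneg_left ?_ hVp.le
        have := quarter_bound (y := y i) hyi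
        simp only [if_true]
        calc (1 + y i) ^ (-(1 / 4) : ℝ) ≤ _ := this
          _ = _ := by ring
    have hsum : ∑ s : Step d, (255 + ∑ k, (((z + vec s) k : ℤ) : ℝ) ^ 2) ^ (-(1 / 4) : ℝ) ≤
        V * (2 * d + 11 / 32 * ∑ i, (y i) ^ 2) := by
      calc ∑ s : Step d, (255 + ∑ k, (((z + vec s) k : ℤ) : ℝ) ^ 2) ^ (-(1 / 4) : ℝ)
          ≤ ∑ s : Step d, V * (1 + (if s.2 then -(y s.1 / 4) else y s.1 / 4) +
              11 / 64 * (y s.1) ^ 2) := Finset.sum_le_sum fun s _ => hs s.1 s.2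
        _ = ∑ i : Fin d, ∑ b : Bool, V * (1 + (if b then -(y i / 4) else y i / 4) +
              11 / 64 * (y i) ^ 2) := Fintype.sum_prod_type _
        _ = ∑ i : Fin d, V * (2 + 11 / 32 * (y i) ^ 2) := by
            refine Finset.sum_congr rfl fun i _ => ?_
            rw [Fintype.sum_bool]
            simp only [if_true, Bool.false_eq_true, if_false]
            ring
        _ = V * (2 * d + 11 / 32 * ∑ i, (y i) ^ 2) := by
            rw [← Finset.mul_sum, Finset.sum_add_distrib, ← Finset.mul_sum]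
            simp only [Finset.sum_const, Finset.card_univ, Fintype.card_fin, nsmul_eq_mul]
            ring
    have hy2 : ∑ i, (y i) ^ 2 ≤ 4 / v := by
      have e : ∑ i, (y i) ^ 2 = 4 * (∑ k, ((z k : ℤ) : ℝ) ^ 2) / v ^ 2 := by
        rw [Finset.mul_sum, Finset.sum_div]
        refine Finset.sum_congr rfl fun i _ => ?_
        show (2 * (z i : ℝ) / v) ^ 2 = _
        rw [div_pow]
        ring
      rw [e, div_le_div_iff₀ (by positivity) hvp]
      have : (∑ k, ((z k : ℤ) : ℝ) ^ 2) = v - 256 := by rw [hv]; ring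
      rw [this]
      nlinarith
    have hf : V * (1 + 1 / v / 4) ≤ (255 + ∑ k, ((z k : ℤ) : ℝ) ^ 2) ^ (-(1 / 4) : ℝ) := by
      have e : 255 + ∑ k, ((z k : ℤ) : ℝ) ^ 2 = v * (1 - 1 / v) := by
        rw [mul_sub, mul_one, mul_one_div_cancel hvp.ne', hv]; ring
      have hu : 1 / v ≤ 1 / 256 := one_div_le_one_div_of_le (by norm_num) hv0
      rw [e, Real.mul_rpow hvp.le (by linarith)]
      exact mul_le_mul_of_nonneg_left (super_bern (by positivity) hu) hVp.le
    have hd' : (3 : ℝ) ≤ d := by exact_mod_cast hd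
    refine lt_of_le_of_lt hsum ?_
    refine lt_of_lt_of_le ?_ (mul_le_mul_of_nonneg_left hf (by positivity))
    have hinv : 0 < 1 / v := by positivity
    have h4v : 4 / v = 4 * (1 / v) := by ring
    rw [h4v] at hy2
    have h1 : 2 * (d : ℝ) + 11 / 32 * ∑ i, (y i) ^ 2 < 2 * d * (1 + 1 / v / 4) := by
      nlinarith
    calc V * (2 * d + 11 / 32 * ∑ i, (y i) ^ 2) < V * (2 * d * (1 + 1 / v / 4)) :=
          mul_lt_mul_of_pos_left h1 hVp
      _ = 2 * d * (V * (1 + 1 / v / 4)) := by ring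

end Pool.Agent.MP_f3fa2b_pr
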