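import Pool.Agent.Lib.MP_f3fa2b_pr.FE.Basic

/-!
Zero-one law for the polymer on `ℤ^d`.
-/

namespace Pool.Agent.MP_f3fa2b_pr

open MeasureTheory ProbabilityTheory Filter Topology
open scoped ENNReal

variable {d : ℕ} {Ω : Type*} [MeasurableSpace Ω] {P : Measure Ω} [IsProbabilityMeasure P]

private theorem zero_split (β lam : ℝ) (w : Env d) (k n : ℕ) :
    W (full d) β lam w (k + n) = walkE (full d) k 0 fun l =>
      wd β lam w l * walkE (full d) n (lst 0 l) fun l' => wd β lam (tsh k w) l' := by
  rw [W_eq_wd, walkE_append]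
  refine walkE_congr _ _ _ fun l hl _ => ?_
  rw [← walkE_mul]
  refine walkE_congr _ _ _ fun l' _ _ => ?_
  rw [wd_append, hl]

/-- `W_n → 0` iff for every `k` and every `y` which can be reached in `k` steps the partition
function started from `y` at time `k` tends to `0`. -/
theorem tendsto_iff [NeZero d] (β lam : ℝ) (w : Env d) (k : ℕ) :
    Tendsto (fun n => W (full d) β lam w n) atTop (𝓝 0) ↔
      ∀ l : List (Vx d), l.length = k → Pth (full d) 0 l →
        Tendsto (fun n => walkE (full d) n (lst 0 l) fun l' => wd β lam (tsh k w) l')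
          atTop (𝓝 0) := by
  have hsh : Tendsto (fun n => W (full d) β lam w n) atTop (𝓝 0) ↔
      Tendsto (fun n => W (full d) β lam w (k + n)) atTop (𝓝 0) := by
    have e : (fun n => W (full d) β lam w (k + n)) = fun n => W (full d) β lam w (n + k) := by
      funext n
      rw [add_comm]
    rw [e]
    exact (tendsto_add_atTop_iff_nat (f := fun n => W (full d) β lam w n) k).symm
  rw [hsh]
  constructor
  · intro h l hl hp
    have hd : (0 : ℝ) < 1 / (2 * d) := by
      have h1 : 0 < d := NeZero.pos d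
      have h2 : (0 : ℝ) < d := by exact_mod_cast h1
      positivity
    obtain ⟨c, hc⟩ : ∃ c : ℝ, c = (1 / (2 * d) : ℝ) ^ k * wd β lam w l := ⟨_, rfl⟩
    have hc0 : 0 < c := by
      rw [hc]
      exact mul_pos (pow_pos hd k) (wd_pos _ _ _ _)
    have h1 : Tendsto (fun n => c⁻¹ * W (full d) β lam w (k + n)) atTop (𝓝 0) := by
      have h2 := h.const_mul c⁻¹
      rw [mul_zero] at h2
      exact h2
    refine squeeze_zero (fun n => walkE_nonneg _ _ _ fun l' => (wd_pos _ _ _ _).le)
      (fun n => ?_) h1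
    rw [zero_split, le_inv_mul_iff₀ hc0]
    obtain ⟨Z, hZ⟩ : ∃ Z : List (Vx d) → ℝ, Z = fun l =>
      walkE (full d) n (lst 0 l) fun l' => wd β lam (tsh k w) l' := ⟨_, rfl⟩
    have hZ0 : ∀ l, 0 ≤ Z l := fun l => by
      rw [hZ]
      exact walkE_nonneg _ _ _ fun l' => (wd_pos _ _ _ _).le
    have hZl : (walkE (full d) n (lst 0 l) fun l' => wd β lam (tsh k w) l') = Z l := by rw [hZ]
    have hZl' : (walkE (full d) k 0 fun l =>
        wd β lam w l * walkE (full d) n (lst 0 l) fun l' => wd β lam (tsh k w) l') =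
        walkE (full d) k 0 fun l => wd β lam w l * Z l := by rw [hZ]
    rw [hZl, hZl']
    have h3 := path_prob (full d) hp
    rw [hl] at h3
    calc c * Z l = (1 / (2 * d) : ℝ) ^ k * (wd β lam w l * Z l) := by
          rw [hc]
          ring
      _ ≤ (walkE (full d) k 0 fun l' => ind (l' = l)) * (wd β lam w l * Z l) :=
          mul_le_mul_of_nonneg_right h3 (mul_nonneg (wd_pos _ _ _ _).le (hZ0 l))
      _ = walkE (full d) k 0 fun l' => (wd β lam w l * Z l) * ind (l' = l) := by
          rw [walkE_mul, mul_comm]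
      _ ≤ walkE (full d) k 0 fun l' => wd β lam w l' * Z l' := by
          refine walkE_mono _ _ _ fun l' _ _ => ?_
          by_cases hll : l' = l
          · rw [ind_pos hll, mul_one, hll]
          · rw [ind_neg hll, mul_zero]
            exact mul_nonneg (wd_pos _ _ _ _).le (hZ0 l')
  · intro h
    obtain ⟨S, c, h1, h2⟩ := walkE_eq_sum (full d) k (0 : Vx d)
    have e : (fun n => W (full d) β lam w (k + n)) = fun n => ∑ l ∈ S, c l * (wd β lam w l *
        walkE (full d) n (lst 0 l) fun l' => wd β lam (tsh k w) l') := by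
      funext n
      rw [zero_split, h2]
    rw [e]
    have h3 : Tendsto (fun n => ∑ l ∈ S, c l * (wd β lam w l *
        walkE (full d) n (lst 0 l) fun l' => wd β lam (tsh k w) l')) atTop
        (𝓝 (∑ l ∈ S, c l * (wd β lam w l * 0))) :=
      tendsto_finsetSum S fun l hl =>
        ((h l (h1 l hl).2.1 (h1 l hl).2.2).const_mul _).const_mul _
    have h4 : ∑ l ∈ S, c l * (wd β lam w l * 0) = 0 :=
      Finset.sum_eq_zero fun l _ => by rw [mul_zero, mul_zero]
    rw [h4] at h3
    exact h3

private theorem zero_meas [NeZero d] {X : Type*} {m : MeasurableSpace X}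
    {ω : ℕ → Vx d → X → ℝ} (β lam : ℝ) (k : ℕ)
    (hm : ∀ i y, k ≤ i → Measurable (ω i y)) :
    MeasurableSet {a | Tendsto (fun n => W (full d) β lam (ev0 ω a) n) atTop (𝓝 0)} := by
  have hE : Measurable fun a => tsh k (ev0 ω a) :=
    measurable_pi_lambda _ fun i => measurable_pi_lambda _ fun y =>
      hm (k + i) y (Nat.le_add_right k i)
  have e : {a | Tendsto (fun n => W (full d) β lam (ev0 ω a) n) atTop (𝓝 0)} =
      ⋂ l : List (Vx d), {a | l.length = k → Pth (full d) 0 l →
        Tendsto (fun n => walkE (full d) n (lst 0 l) fun l' => wd β lam (tsh k (ev0 ω a)) l')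
          atTop (𝓝 0)} := by
    ext a
    rw [Set.mem_iInter]
    exact tendsto_iff β lam (ev0 ω a) k
  rw [e]
  refine MeasurableSet.iInter fun l => ?_
  by_cases hl : l.length = k ∧ Pth (full d) 0 l
  · have e1 : {a | l.length = k → Pth (full d) 0 l →
        Tendsto (fun n => walkE (full d) n (lst 0 l) fun l' => wd β lam (tsh k (ev0 ω a)) l')
          atTop (𝓝 0)} = {a | Tendsto (fun n => walkE (full d) n (lst 0 l) fun l' =>
            wd β lam (tsh k (ev0 ω a)) l') atTop (𝓝 0)} := by
      ext a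
      exact ⟨fun h => h hl.1 hl.2, fun h _ _ => h⟩
    rw [e1]
    refine measurableSet_tendsto (𝓝 0) fun n => ?_
    exact (meas_walkE_env (full d) n (lst 0 l) (F := fun w l' => wd β lam w l')
      (fun l' => meas_wd β lam l')).comp hE
  · have e1 : {a | l.length = k → Pth (full d) 0 l →
        Tendsto (fun n => walkE (full d) n (lst 0 l) fun l' => wd β lam (tsh k (ev0 ω a)) l')
          atTop (𝓝 0)} = Set.univ := by
      refine Set.eq_univ_of_forall fun a h1 h2 => ?_
      exact absurd ⟨h1, h2⟩ hl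
    rw [e1]
    exact MeasurableSet.univ

private theorem zero_tail [NeZero d] {X : Type*} {ω : ℕ → Vx d → X → ℝ} (β lam : ℝ) :
    MeasurableSet[limsup (fun z : ℕ × Vx d => MeasurableSpace.comap (ω z.1 z.2) inferInstance)
      (Filter.comap Prod.fst atTop)]
      {a | Tendsto (fun n => W (full d) β lam (ev0 ω a) n) atTop (𝓝 0)} := by
  have hb : (Filter.comap (Prod.fst : ℕ × Vx d → ℕ) atTop).HasBasis (fun _ : ℕ => True)
      fun k => Prod.fst ⁻¹' Set.Ici k := atTop_basis.comap Prod.fst
  rw [hb.limsup_eq_iInf_iSup]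
  rw [MeasurableSpace.measurableSet_iInf]
  intro k
  rw [MeasurableSpace.measurableSet_iInf]
  intro _
  refine zero_meas β lam k fun i y hi => ?_
  refine Measurable.of_comap_le ?_
  exact le_biSup (fun z : ℕ × Vx d => MeasurableSpace.comap (ω z.1 z.2) inferInstance)
    (show ((i, y) : ℕ × Vx d) ∈ Prod.fst ⁻¹' Set.Ici k from hi)

/-- Kolmogorov: `measure_zero_or_one_of_measurableSet_limsup_atTop` for the σ-algebras of the
times `n`. -/
theorem zero_one [NeZero d] {ω : ℕ → Vx d → Ω → ℝ} (h : IIDField P ω) (β lam : ℝ) :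
    (∀ᵐ a ∂P, Tendsto (fun n => W (full d) β lam (ev0 ω a) n) atTop (𝓝 0)) ∨
      ∀ᵐ a ∂P, ¬ Tendsto (fun n => W (full d) β lam (ev0 ω a) n) atTop (𝓝 0) := by
  have h01 : P {a | Tendsto (fun n => W (full d) β lam (ev0 ω a) n) atTop (𝓝 0)} = 0 ∨
      P {a | Tendsto (fun n => W (full d) β lam (ev0 ω a) n) atTop (𝓝 0)} = 1 := by
    refine measure_zero_or_one_of_measurableSet_limsup
      (s := fun z : ℕ × Vx d => MeasurableSpace.comap (ω z.1 z.2) inferInstance)
      (f := Filter.comap Prod.fst atTop) (p := fun t => ∃ n : ℕ, ∀ z ∈ t, z.1 ≤ n)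
      (ns := fun n : ℕ => {z : ℕ × Vx d | z.1 ≤ n})
      (fun z => (h.meas z.1 z.2).comap_le) h.indep.iIndep ?_ ?_ ?_ ?_ (zero_tail β lam)
    · rintro t ⟨n, hn⟩
      exact Filter.mem_comap.2 ⟨Set.Ioi n, Ioi_mem_atTop n,
        fun z hz hzt => absurd (hn z hzt) (not_le.2 hz)⟩
    · refine Monotone.directed_le fun m n hmn z hz => ?_
      exact le_trans hz hmn
    · exact fun n => ⟨n, fun z hz => hz⟩
    · exact fun z => ⟨z.1, le_refl z.1⟩
  have hms : MeasurableSet {a | Tendsto (fun n => W (full d) β lam (ev0 ω a) n) atTop (𝓝 0)} :=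
    zero_meas β lam 0 fun i y _ => h.meas i y
  rcases h01 with h0 | h1
  · right
    exact measure_eq_zero_iff_ae_notMem.1 h0
  · left
    exact (mem_ae_iff_prob_eq_one hms).2 h1

end Pool.Agent.MP_f3fa2b_pr
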